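import Pool.Agent.N924.LP.Cont

set_option autoImplicit false

/-! # Equidistributed families of integral vectors and null sets -/

namespace Pool.Agent.N924.LP

open Filter Topology

noncomputable section

variable {τ κ : Type} [Fintype κ]

/-- uniform distribution modulo all `q` along the sets `S N` -/
def Eqd (S : ℕ → Finset τ) (z : τ → κ → ℤ) : Prop :=
  ∀ q : ℕ, 1 ≤ q → ∀ ρ : κ → ℤ,
    Tendsto (fun N => ({t : τ | t ∈ S N ∧ ∀ i, (q : ℤ) ∣ z t i - ρ i}.ncard : ℝ) / (S N).card)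
      atTop (𝓝 (1 / (q : ℝ) ^ Fintype.card κ))

/-- density zero along the sets `S N` -/
def Nul (S : ℕ → Finset τ) (E : Set τ) : Prop :=
  ∀ ε : ℝ, 0 < ε → ∃ N₀ : ℕ, ∀ N : ℕ, N₀ ≤ N →
    ({t : τ | t ∈ S N ∧ t ∈ E}.ncard : ℝ) ≤ ε * (S N).card

theorem fin_part (S : ℕ → Finset τ) (N : ℕ) (Q : τ → Prop) : {t : τ | t ∈ S N ∧ Q t}.Finite :=
  (Finset.finite_toSet (S N)).subset fun t ht => ht.1

theorem Nul.mono {S : ℕ → Finset τ} {E E' : Set τ} (h : Nul S E') (hE : E ⊆ E') : Nul S E := by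
  intro ε hε
  obtain ⟨N₀, h1⟩ := h ε hε
  refine ⟨N₀, fun N hN => le_trans ?_ (h1 N hN)⟩
  have h2 : {t : τ | t ∈ S N ∧ t ∈ E}.ncard ≤ {t : τ | t ∈ S N ∧ t ∈ E'}.ncard :=
    Set.ncard_le_ncard (fun t ht => ⟨ht.1, hE ht.2⟩) (fin_part S N _)
  exact_mod_cast h2

theorem nul_union {S : ℕ → Finset τ} {ι : Type} (u : Finset ι) (B : ι → Set τ)
    (h : ∀ i ∈ u, Nul S (B i)) : Nul S {t | ∃ i ∈ u, t ∈ B i} := by
  classical
  induction u using Finset.induction_on with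
  | empty =>
    intro ε hε
    refine ⟨0, fun N _ => ?_⟩
    have e1 : {t : τ | t ∈ S N ∧ t ∈ {t | ∃ i ∈ (∅ : Finset ι), t ∈ B i}} = ∅ := by
      ext t
      simp
    rw [e1, Set.ncard_empty]
    push_cast
    positivity
  | insert i u hi ih =>
    intro ε hε
    obtain ⟨N₁, h1⟩ := ih (fun j hj => h j (Finset.mem_insert_of_mem hj)) (ε / 2) (by positivity)
    obtain ⟨N₂, h2⟩ := h i (Finset.mem_insert_self _ _) (ε / 2) (by positivity)
    refine ⟨max N₁ N₂, fun N hN => ?_⟩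
    have a1 := h1 N ((le_max_left _ _).trans hN)
    have a2 := h2 N ((le_max_right _ _).trans hN)
    have hsub : {t : τ | t ∈ S N ∧ t ∈ {t | ∃ j ∈ insert i u, t ∈ B j}} ⊆
        {t : τ | t ∈ S N ∧ t ∈ {t | ∃ j ∈ u, t ∈ B j}} ∪ {t : τ | t ∈ S N ∧ t ∈ B i} := by
      rintro t ⟨ht, j, hj, htj⟩
      rcases Finset.mem_insert.mp hj with rfl | hj
      · exact Or.inr ⟨ht, htj⟩
      · exact Or.inl ⟨ht, j, hj, htj⟩
    have h3 := (Set.ncard_le_ncard hsub ((fin_part S N _).union (fin_part S N _))).trans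
      (Set.ncard_union_le _ _)
    have h4 : ({t : τ | t ∈ S N ∧ t ∈ {t | ∃ j ∈ insert i u, t ∈ B j}}.ncard : ℝ) ≤
        ({t : τ | t ∈ S N ∧ t ∈ {t | ∃ j ∈ u, t ∈ B j}}.ncard : ℝ) +
        ({t : τ | t ∈ S N ∧ t ∈ B i}.ncard : ℝ) := by exact_mod_cast h3
    linarith

/-- sets contained in few classes -/
theorem nul_thin {S : ℕ → Finset τ} {z : τ → κ → ℤ} (hz : Eqd S z) {E : Set τ}
    (hE : ∀ ε : ℝ, 0 < ε → ∃ q : ℕ, 1 ≤ q ∧ ∃ T : Finset (κ → ZMod q),
      (T.card : ℝ) ≤ ε * (q : ℝ) ^ Fintype.card κ ∧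
      ∀ t ∈ E, (fun i => ((z t i : ℤ) : ZMod q)) ∈ T) : Nul S E := by
  classical
  intro ε hε
  obtain ⟨q, hq, T, hT, hmem⟩ := hE (ε / 2) (by positivity)
  have : NeZero q := ⟨by omega⟩
  have hq0 : (0 : ℝ) < (q : ℝ) ^ Fintype.card κ := by positivity
  let C : (κ → ZMod q) → ℕ → Set τ := fun c N =>
    {t : τ | t ∈ S N ∧ ∀ i, (q : ℤ) ∣ z t i - ((c i).val : ℤ)}
  have hlim : Tendsto (fun N => ∑ c ∈ T, ((C c N).ncard : ℝ) / (S N).card) atTop
      (𝓝 (∑ c ∈ T, 1 / (q : ℝ) ^ Fintype.card κ)) :=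
    tendsto_finsetSum _ fun c _ => hz q hq fun i => ((c i).val : ℤ)
  rw [Finset.sum_const, nsmul_eq_mul] at hlim
  have hlt : (T.card : ℝ) * (1 / (q : ℝ) ^ Fintype.card κ) < ε := by
    rw [mul_one_div, div_lt_iff₀ hq0]
    have : ε / 2 * (q : ℝ) ^ Fintype.card κ < ε * (q : ℝ) ^ Fintype.card κ :=
      mul_lt_mul_of_pos_right (by linarith) hq0
    linarith
  obtain ⟨N₀, hN₀⟩ := eventually_atTop.mp (hlim.eventually (gt_mem_nhds hlt))
  refine ⟨N₀, fun N hN => ?_⟩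
  have h1 := hN₀ N hN
  rcases Nat.eq_zero_or_pos (S N).card with h0 | h0
  · have e1 : {t : τ | t ∈ S N ∧ t ∈ E} = ∅ := by
      ext t
      rw [Finset.card_eq_zero] at h0
      simp [h0]
    rw [e1, h0, Set.ncard_empty]
    simp
  · have hsub : {t : τ | t ∈ S N ∧ t ∈ E} ⊆ ⋃ c ∈ T, C c N := by
      rintro t ⟨ht, htE⟩
      rw [Set.mem_iUnion₂]
      refine ⟨_, hmem t htE, ht, fun i => ?_⟩
      rw [← ZMod.intCast_zmod_eq_zero_iff_dvd]
      push_cast
      rw [ZMod.natCast_zmod_val, sub_self]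
    have h2 : {t : τ | t ∈ S N ∧ t ∈ E}.ncard ≤ ∑ c ∈ T, (C c N).ncard := by
      refine (Set.ncard_le_ncard hsub ?_).trans ?_
      · exact T.finite_toSet.biUnion fun c _ => fin_part S N _
      · clear hsub hlim hlt h1 hT hmem hN₀
        induction T using Finset.induction_on with
        | empty => simp
        | insert c T hc ih =>
          rw [Finset.set_biUnion_insert, Finset.sum_insert hc]
          exact (Set.ncard_union_le _ _).trans (Nat.add_le_add_left ih _)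
    have h3 : (0 : ℝ) < (S N).card := by exact_mod_cast h0
    rw [← Finset.sum_div, div_lt_iff₀ h3] at h1
    have h4 : ({t : τ | t ∈ S N ∧ t ∈ E}.ncard : ℝ) ≤ ∑ c ∈ T, ((C c N).ncard : ℝ) := by
      exact_mod_cast h2
    linarith

/-- vectors whose coordinate `i` is determined by the others -/
theorem card_graph {q : ℕ} [NeZero q] (i : κ) (g : (κ → ZMod q) → ZMod q)
    (hg : ∀ c c' : κ → ZMod q, (∀ j, j ≠ i → c j = c' j) → g c = g c')
    [DecidableEq κ] (T : Finset (κ → ZMod q)) (hT : ∀ c ∈ T, c i = g c) :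
    T.card * q ≤ q ^ Fintype.card κ := by
  classical
  have h1 : T.card ≤ Fintype.card ({j // j ≠ i} → ZMod q) := by
    rw [← Finset.card_univ]
    apply Finset.card_le_card_of_injOn (fun c j => c j.1) (fun c _ => Finset.mem_coe.2 (Finset.mem_univ _))
    intro c hc c' hc' h
    have h2 : ∀ j, j ≠ i → c j = c' j := fun j hj => congrFun h ⟨j, hj⟩
    funext j
    by_cases hj : j = i
    · subst hj
      rw [hT c hc, hT c' hc', hg c c' h2]
    · exact h2 j hj
  rw [Fintype.card_fun, ZMod.card, Fintype.card_subtype_compl, Fintype.card_subtype_eq] at h1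
  have h2 : 1 ≤ Fintype.card κ := Fintype.card_pos_iff.2 ⟨i⟩
  calc T.card * q ≤ q ^ (Fintype.card κ - 1) * q := Nat.mul_le_mul_right _ h1
    _ = q ^ Fintype.card κ := by rw [← pow_succ]; congr 1; omega

/-- a coordinate, or the difference of two coordinates, in a finite set -/
theorem nul_diff {S : ℕ → Finset τ} {z : τ → κ → ℤ} (hz : Eqd S z) (i : κ) (j : Option κ)
    (hij : j ≠ some i) (D : Finset ℤ) : Nul S {t | z t i - j.elim 0 (z t) ∈ D} := by
  classical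
  apply nul_thin hz
  intro ε hε
  obtain ⟨q, hq⟩ := exists_nat_gt (max 1 ((D.card : ℝ) / ε))
  have hq1 : (1 : ℝ) < q := lt_of_le_of_lt (le_max_left _ _) hq
  have hq2 : (D.card : ℝ) / ε < q := lt_of_le_of_lt (le_max_right _ _) hq
  have hq3 : 1 ≤ q := by
    have : 1 < q := by exact_mod_cast hq1
    omega
  have : NeZero q := ⟨by omega⟩
  let G : ℤ → Finset (κ → ZMod q) := fun d =>
    Finset.univ.filter fun c => c i = j.elim 0 c + (d : ZMod q)
  refine ⟨q, hq3, D.biUnion G, ?_, ?_⟩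
  · have h1 : ∀ d ∈ D, (G d).card * q ≤ q ^ Fintype.card κ := by
      intro d _
      refine card_graph i (fun c => j.elim 0 c + (d : ZMod q)) ?_ _ ?_
      · intro c c' h
        rcases j with _ | j
        · rfl
        · have : j ≠ i := fun h => hij (by rw [h])
          simp only [Option.elim_some]
          rw [h j this]
      · intro c hc
        exact (Finset.mem_filter.1 hc).2
    have h2 : (D.biUnion G).card * q ≤ D.card * q ^ Fintype.card κ := by
      calc (D.biUnion G).card * q ≤ (∑ d ∈ D, (G d).card) * q :=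
            Nat.mul_le_mul_right _ Finset.card_biUnion_le
        _ = ∑ d ∈ D, (G d).card * q := by rw [Finset.sum_mul]
        _ ≤ ∑ d ∈ D, q ^ Fintype.card κ := Finset.sum_le_sum h1
        _ = D.card * q ^ Fintype.card κ := by rw [Finset.sum_const, smul_eq_mul]
    have h3 : ((D.biUnion G).card : ℝ) * q ≤ D.card * (q : ℝ) ^ Fintype.card κ := by
      exact_mod_cast h2
    have hq0 : (0 : ℝ) < q := by linarith
    rw [div_lt_iff₀ hε] at hq2
    have h4 : (0 : ℝ) ≤ (q : ℝ) ^ Fintype.card κ := by positivity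
    have h5 : ((D.biUnion G).card : ℝ) * q ≤ (ε * (q : ℝ) ^ Fintype.card κ) * q := by nlinarith
    exact le_of_mul_le_mul_right h5 hq0
  · intro t ht
    rw [Finset.mem_biUnion]
    refine ⟨_, ht, Finset.mem_filter.2 ⟨Finset.mem_univ _, ?_⟩⟩
    rcases j with _ | j
    · simp
    · simp

variable {p : ℕ} [hp : Fact p.Prime]

/-- the zero set of a power series on a class modulo `p ^ 2` -/
theorem nul_class {S : ℕ → Finset τ} {z : τ → κ → ℤ} (hz : Eqd S z) {s : ℕ} (e : κ ≃ Fin s)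
    (Y : Sys p s) (h : Y.R) (hh : h ≠ 0) (ρ : κ → ℤ) :
    Nul S {t | ∃ y : Fin s → ℤ, (∀ i, z t i = ρ i + (p : ℤ) ^ 2 * y (e i)) ∧
      Y.ev (fun i => ((y i : ℤ) : ℤ_[p])) h = 0} := by
  classical
  apply nul_thin hz
  intro ε hε
  obtain ⟨k, T, hT, hmem⟩ := content Y h hh ε hε
  have hk : NeZero (p ^ k) := ⟨pow_ne_zero _ hp.out.ne_zero⟩
  have hs : Fintype.card κ = s := by rw [Fintype.card_congr e, Fintype.card_fin]
  refine ⟨p ^ (k + 2), Nat.one_le_pow _ _ hp.out.pos,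
    T.image fun c i => ((ρ i + (p : ℤ) ^ 2 * ((c (e i)).val : ℤ) : ℤ) : ZMod (p ^ (k + 2))), ?_, ?_⟩
  · have h1 : ((T.image fun c i => ((ρ i + (p : ℤ) ^ 2 * ((c (e i)).val : ℤ) : ℤ) :
        ZMod (p ^ (k + 2)))).card : ℝ) ≤ T.card := by exact_mod_cast Finset.card_image_le
    refine h1.trans (hT.trans ?_)
    rw [hs]
    have h2 : (((p ^ k : ℕ) : ℝ)) ≤ ((p ^ (k + 2) : ℕ) : ℝ) := by
      exact_mod_cast Nat.pow_le_pow_right hp.out.pos (by omega)
    gcongr
  · rintro t ⟨y, hy1, hy2⟩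
    rw [Finset.mem_image]
    refine ⟨_, hmem _ hy2, ?_⟩
    funext i
    rw [hy1 i, eq_comm, ZMod.intCast_eq_intCast_iff_dvd_sub]
    have h1 : rd (p := p) k (fun i => ((y i : ℤ) : ℤ_[p])) (e i) = ((y (e i) : ℤ) : ZMod (p ^ k)) := by
      unfold rd
      rw [map_intCast]
    rw [h1]
    have h2 : ((p ^ k : ℕ) : ℤ) ∣ (((y (e i) : ℤ) : ZMod (p ^ k)).val : ℤ) - y (e i) := by
      rw [← ZMod.intCast_zmod_eq_zero_iff_dvd]
      push_cast
      rw [ZMod.natCast_zmod_val, sub_self]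
    obtain ⟨w, hw⟩ := h2
    refine ⟨w, ?_⟩
    have h3 : ρ i + (p : ℤ) ^ 2 * ((((y (e i) : ℤ) : ZMod (p ^ k)).val : ℤ)) -
        (ρ i + (p : ℤ) ^ 2 * y (e i)) =
        (p : ℤ) ^ 2 * ((((y (e i) : ℤ) : ZMod (p ^ k)).val : ℤ) - y (e i)) := by ring
    rw [h3, hw]
    push_cast
    ring

end

end Pool.Agent.N924.LP
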