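import Pool.Agent.N924.LP.Hin
import Pool.Agent.N924.LP.Eq
import Pool.Agent.H33R4.PLACES

set_option autoImplicit false

/-! # Leopoldt's conjecture for almost all members of the families -/

namespace Pool.Agent.N924.LP

open Polynomial NumberField Pool.Agent.H33R4
open Pool.Agent.H637R2.Leo (Leopoldt)

noncomputable section

variable {r₁ r₂ : ℕ}

/-- the polynomial -/
def pol (v : Idx r₁ r₂ → ℤ) : ℤ[X] :=
  ∏ i, fB (fun i => v (Sum.inl i)) (fun k => v (Sum.inr (Sum.inl k)))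
    (fun k => v (Sum.inr (Sum.inr k))) i - 1

/-- the conclusion -/
def Holds (p : ℕ) [Fact p.Prime] (v : Idx r₁ r₂ → ℤ) : Prop :=
  Irreducible (pol v) ∧ ∀ (K : Type) [Field K] [NumberField K] (θ : K), aeval θ (pol v) = 0 →
    IntermediateField.adjoin ℚ {θ} = ⊤ →
    InfinitePlace.nrRealPlaces K = r₁ ∧ InfinitePlace.nrComplexPlaces K = r₂ ∧ Leopoldt K p

/-- `Far` for a vector -/
def FarV (v : Idx r₁ r₂ → ℤ) : Prop :=
  Far (fun i => v (Sum.inl i)) (fun k => v (Sum.inr (Sum.inl k))) (fun k => v (Sum.inr (Sum.inr k)))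

theorem holds_of (p : ℕ) [Fact p.Prime] (hr : 1 ≤ r₁ + r₂) (v : Idx r₁ r₂ → ℤ) (hF : FarV v)
    (hbad : ¬ Bd p (r₁ + r₂ - 1) (pol v)) : Holds p v := by
  obtain ⟨hirr, hmon, hdeg⟩ := far_irr hr hF
  have hroots := far_roots hr hF
  refine ⟨hirr, ?_⟩
  intro K _ _ θ hθ hgen
  obtain ⟨hd, hreal⟩ := places_proof _ hmon hirr K θ hθ hgen
  rw [hroots] at hreal
  have h1 := InfinitePlace.card_add_two_mul_card_eq_rank K
  have h2 := InfinitePlace.card_eq_nrRealPlaces_add_nrComplexPlaces K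
  rw [hd, hreal, hdeg] at h1
  have hcomp : InfinitePlace.nrComplexPlaces K = r₂ := by omega
  refine ⟨hreal, hcomp, ?_⟩
  by_contra hL
  apply hbad
  refine ⟨K, inferInstance, inferInstance, θ, hθ, hd, hgen, ?_, hL⟩
  unfold Units.rank
  rw [h2, hreal, hcomp]

/-- a representative of a class modulo `p ^ 2` with parameters which are far apart -/
def rep (p : ℕ) {s : ℕ} (e : Idx r₁ r₂ ≃ Fin s) (R : Idx r₁ r₂ → ZMod (p ^ 2)) :
    Idx r₁ r₂ → ℤ := fun i =>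
  ((R i).val : ℤ) + (p : ℤ) ^ 2 * ((bd r₁ r₂ : ℤ) ^ 2 * ((e i : ℕ) + 1))

theorem rep_far (p : ℕ) [hp : Fact p.Prime] {s : ℕ} (e : Idx r₁ r₂ ≃ Fin s)
    (R : Idx r₁ r₂ → ZMod (p ^ 2)) : FarV (rep p e R) := by
  have : NeZero (p ^ 2) := ⟨pow_ne_zero _ hp.out.ne_zero⟩
  have hb3 : (3 : ℤ) ≤ bd r₁ r₂ := by
    have : 3 ≤ bd r₁ r₂ := by unfold bd; omega
    exact_mod_cast this
  have hp1 : (1 : ℤ) ≤ (p : ℤ) ^ 2 := by
    have : (0 : ℤ) < (p : ℤ) ^ 2 := by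
      have := hp.out.pos
      positivity
    linarith
  have hv0 : ∀ i, (0 : ℤ) ≤ ((R i).val : ℤ) := fun i => by positivity
  have hv1 : ∀ i, ((R i).val : ℤ) < (p : ℤ) ^ 2 := fun i => by exact_mod_cast ZMod.val_lt (R i)
  have hlt : ∀ i j, (e i : ℕ) < (e j : ℕ) → (bd r₁ r₂ : ℤ) ≤ rep p e R j - rep p e R i := by
    intro i j hij
    have h1 : ((e i : ℕ) : ℤ) + 1 ≤ (e j : ℕ) := by exact_mod_cast hij
    unfold rep
    have h2 := hv0 j
    have h3 := hv1 i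
    have h4 : (p : ℤ) ^ 2 * ((bd r₁ r₂ : ℤ) ^ 2 * 1) ≤
        (p : ℤ) ^ 2 * ((bd r₁ r₂ : ℤ) ^ 2 * (((e j : ℕ) : ℤ) - ((e i : ℕ) : ℤ))) := by
      have : (1 : ℤ) ≤ ((e j : ℕ) : ℤ) - ((e i : ℕ) : ℤ) := by linarith
      gcongr
    have h5 : (bd r₁ r₂ : ℤ) + (p : ℤ) ^ 2 ≤ (p : ℤ) ^ 2 * ((bd r₁ r₂ : ℤ) ^ 2 * 1) := by
      nlinarith [mul_nonneg (sub_nonneg.2 hp1) (show (0 : ℤ) ≤ (bd r₁ r₂ : ℤ) ^ 2 - 1 by nlinarith)]
    have h6 : (p : ℤ) ^ 2 * ((bd r₁ r₂ : ℤ) ^ 2 * (((e j : ℕ) : ℤ) - ((e i : ℕ) : ℤ))) =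
        (p : ℤ) ^ 2 * ((bd r₁ r₂ : ℤ) ^ 2 * (((e j : ℕ) : ℤ) + 1)) -
        (p : ℤ) ^ 2 * ((bd r₁ r₂ : ℤ) ^ 2 * (((e i : ℕ) : ℤ) + 1)) := by ring
    linarith
  have hne : ∀ i j, i ≠ j → (bd r₁ r₂ : ℤ) ≤ |rep p e R i - rep p e R j| := by
    intro i j hij
    have h1 : (e i : ℕ) ≠ (e j : ℕ) := fun h => hij (e.injective (Fin.ext h))
    rcases lt_or_gt_of_ne h1 with h | h
    · rw [abs_sub_comm]
      exact (hlt i j h).trans (le_abs_self _)
    · exact (hlt j i h).trans (le_abs_self _)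
  refine ⟨fun i j hij => hne _ _ (by simpa using hij), fun k l hkl => hne _ _ (by simpa using hkl),
    fun k => ?_⟩
  change _ ≤ rep p e R (Sum.inr (Sum.inr k))
  unfold rep
  have h1 := hv0 (Sum.inr (Sum.inr k))
  have h2 : (0 : ℤ) ≤ ((e (Sum.inr (Sum.inr k)) : ℕ) : ℤ) := by positivity
  have h3 : (bd r₁ r₂ : ℤ) ^ 2 ≤ (p : ℤ) ^ 2 * ((bd r₁ r₂ : ℤ) ^ 2 *
      (((e (Sum.inr (Sum.inr k)) : ℕ) : ℤ) + 1)) := by
    have h4 : (1 : ℤ) ≤ (p : ℤ) ^ 2 * (((e (Sum.inr (Sum.inr k)) : ℕ) : ℤ) + 1) := by nlinarith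
    calc (bd r₁ r₂ : ℤ) ^ 2 = (bd r₁ r₂ : ℤ) ^ 2 * 1 := by ring
      _ ≤ (bd r₁ r₂ : ℤ) ^ 2 * ((p : ℤ) ^ 2 * (((e (Sum.inr (Sum.inr k)) : ℕ) : ℤ) + 1)) := by
          gcongr
      _ = _ := by ring
  push_cast
  linarith

/-- a power series for every class -/
theorem cls_abc (p : ℕ) [hp : Fact p.Prime] (hr : 1 ≤ r₁ + r₂) {s : ℕ} (e : Idx r₁ r₂ ≃ Fin s)
    (Y : Sys p s) (ρ : Idx r₁ r₂ → ℤ) (hF : FarV ρ) :
    ∃ h : Y.R, h ≠ 0 ∧ ∀ (v : Idx r₁ r₂ → ℤ) (y : Fin s → ℤ),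
      (∀ i, v i = ρ i + (p : ℤ) ^ 2 * y (e i)) → Bd p (r₁ + r₂ - 1) (pol v) →
      Y.ev (fun i => ((y i : ℤ) : ℤ_[p])) h = 0 := by
  classical
  have hne : Nonempty (Fin r₁ ⊕ Fin r₂) := by
    rw [← Fintype.card_pos_iff, Fintype.card_sum, Fintype.card_fin, Fintype.card_fin]
    omega
  obtain ⟨i₀⟩ := hne
  have hcard : Fintype.card {i : Fin r₁ ⊕ Fin r₂ // i ≠ i₀} = r₁ + r₂ - 1 := by
    rw [Fintype.card_subtype_compl]
    simp
  let eq : Fin (r₁ + r₂ - 1) ≃ {i : Fin r₁ ⊕ Fin r₂ // i ≠ i₀} :=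
    (Fintype.equivFinOfCardEq hcard).symm
  have hpol : ∀ v : Idx r₁ r₂ → ℤ, sp (fun i => v (e.symm i)) (fm (Ph e)) = pol v := by
    intro v
    rw [sp_fm]
    unfold pol
    congr 1
    refine Finset.prod_congr rfl fun i _ => ?_
    rw [sp_Ph]
    unfold fz
    simp only [Equiv.symm_apply_apply]
  have hF' : Far (fun i => (fun j => ρ (e.symm j)) (e (Sum.inl i)))
      (fun k => (fun j => ρ (e.symm j)) (e (Sum.inr (Sum.inl k))))
      (fun k => (fun j => ρ (e.symm j)) (e (Sum.inr (Sum.inr k)))) := by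
    simp only [Equiv.symm_apply_apply]
    exact hF
  have hmon : ∀ i, (Ph (s := s) e i).Monic := fun i => fB_monic _ _ _ i
  have hdeg : ∀ i, 0 < (Ph (s := s) e i).natDegree := by
    rintro (i | k)
    · unfold Ph
      rw [fB_natDegree_inl]
      norm_num
    · unfold Ph
      rw [fB_natDegree_inr]
      norm_num
  obtain ⟨h, h0, h1⟩ := cls Y (Ph e) hmon hdeg i₀ (r₁ + r₂ - 1) (fun k => (eq k).1)
    (fun j => ρ (e.symm j)) (e (jj i₀)) (by rw [hpol]; exact (far_irr hr hF).1)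
    (hind_abc e e.injective _ hF' i₀ _ _ (fun k l hkl => eq.injective (Subtype.ext hkl))
      fun k => (eq k).2)
  refine ⟨h, h0, fun v y hv hbad => h1 (fun j => v (e.symm j)) y (fun i => ?_) ?_⟩
  · rw [hv, Equiv.apply_symm_apply]
  · rw [hpol]
    exact hbad

/-- **Leopoldt's conjecture for almost all members.** -/
theorem main {τ : Type} (S : ℕ → Finset τ) (p : ℕ) [hp : Fact p.Prime] (hr : 1 ≤ r₁ + r₂)
    (z : τ → Idx r₁ r₂ → ℤ) (hz : Eqd S z) :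
    Nul S {t | (∀ k, 0 < z t (Sum.inr (Sum.inr k))) ∧ ¬ Holds p (z t)} := by
  classical
  have hne2 : NeZero (p ^ 2) := ⟨pow_ne_zero _ hp.out.ne_zero⟩
  let s := Fintype.card (Idx r₁ r₂)
  let e : Idx r₁ r₂ ≃ Fin s := Fintype.equivFin _
  obtain ⟨Y⟩ := exists_sys p s
  choose h hh0 hh using fun R : Idx r₁ r₂ → ZMod (p ^ 2) =>
    cls_abc p hr e Y (rep p e R) (rep_far p e R)
  let D : Finset ℤ := Finset.Ioo (-(bd r₁ r₂ : ℤ) ^ 2) ((bd r₁ r₂ : ℤ) ^ 2)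
  let B₁ : Idx r₁ r₂ × Option (Idx r₁ r₂) → Set τ := fun x =>
    if x.2 = some x.1 then ∅ else {t | z t x.1 - x.2.elim 0 (z t) ∈ D}
  let B₂ : (Idx r₁ r₂ → ZMod (p ^ 2)) → Set τ := fun R =>
    {t | ∃ y : Fin s → ℤ, (∀ i, z t i = rep p e R i + (p : ℤ) ^ 2 * y (e i)) ∧
      Y.ev (fun i => ((y i : ℤ) : ℤ_[p])) (h R) = 0}
  have hB₁ : Nul S {t | ∃ x ∈ (Finset.univ : Finset (Idx r₁ r₂ × Option (Idx r₁ r₂))),
      t ∈ B₁ x} := by
    apply nul_union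
    rintro ⟨i, j⟩ _
    by_cases hij : j = some i
    · simp only [B₁, if_pos hij]
      intro ε hε
      refine ⟨0, fun N _ => ?_⟩
      have e1 : {t : τ | t ∈ S N ∧ t ∈ (∅ : Set τ)} = ∅ := by
        ext t
        simp
      rw [e1, Set.ncard_empty]
      push_cast
      positivity
    · simp only [B₁, if_neg hij]
      exact nul_diff hz i j hij D
  have hB₂ : Nul S {t | ∃ R ∈ (Finset.univ : Finset (Idx r₁ r₂ → ZMod (p ^ 2))), t ∈ B₂ R} :=
    nul_union _ _ fun R _ => nul_class hz e Y (h R) (hh0 R) _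
  have hB : Nul S {t | ∃ b ∈ (Finset.univ : Finset Bool), t ∈ (fun b : Bool => if b then
      {t | ∃ x ∈ (Finset.univ : Finset (Idx r₁ r₂ × Option (Idx r₁ r₂))), t ∈ B₁ x} else
      {t | ∃ R ∈ (Finset.univ : Finset (Idx r₁ r₂ → ZMod (p ^ 2))), t ∈ B₂ R}) b} := by
    apply nul_union
    rintro (_ | _) _
    · simpa using hB₂
    · simpa using hB₁
  refine hB.mono ?_
  rintro t ⟨hpos, hnot⟩
  by_cases hx : ∃ x ∈ (Finset.univ : Finset (Idx r₁ r₂ × Option (Idx r₁ r₂))), t ∈ B₁ x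
  · exact ⟨true, Finset.mem_univ _, by simpa using hx⟩
  · refine ⟨false, Finset.mem_univ _, ?_⟩
    simp only [Bool.false_eq_true, if_false]
    have hno : ∀ i j, j ≠ some i → z t i - j.elim 0 (z t) ∉ D := by
      intro i j hij hmem
      refine hx ⟨(i, j), Finset.mem_univ _, ?_⟩
      simp only [B₁, if_neg hij]
      exact hmem
    have hb1 : (bd r₁ r₂ : ℤ) ≤ (bd r₁ r₂ : ℤ) ^ 2 := by
      have : (3 : ℤ) ≤ bd r₁ r₂ := by
        have : 3 ≤ bd r₁ r₂ := by unfold bd; omega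
        exact_mod_cast this
      nlinarith
    have habs : ∀ i j : Idx r₁ r₂, i ≠ j → (bd r₁ r₂ : ℤ) ≤ |z t i - z t j| := by
      intro i j hij
      have h1 := hno i (some j) (by simpa using hij.symm)
      simp only [D, Option.elim_some, Finset.mem_Ioo, not_and_or, not_lt] at h1
      rcases h1 with h1 | h1
      · have := neg_le_abs (z t i - z t j)
        linarith
      · have := le_abs_self (z t i - z t j)
        linarith
    have hfar : FarV (z t) := by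
      refine ⟨fun i j hij => habs _ _ (by simpa using hij), fun k l hkl => habs _ _ (by simpa using hkl),
        fun k => ?_⟩
      have h1 := hno (Sum.inr (Sum.inr k)) none (by simp)
      simp only [D, Option.elim_none, sub_zero, Finset.mem_Ioo, not_and_or, not_lt] at h1
      have h2 := hpos k
      have h3 : (0 : ℤ) ≤ (bd r₁ r₂ : ℤ) ^ 2 := by positivity
      rcases h1 with h1 | h1
      · linarith
      · exact_mod_cast h1
    have hbad : Bd p (r₁ + r₂ - 1) (pol (z t)) := by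
      by_contra hb
      exact hnot (holds_of p hr _ hfar hb)
    refine ⟨fun i => ((z t i : ℤ) : ZMod (p ^ 2)), Finset.mem_univ _, ?_⟩
    set R : Idx r₁ r₂ → ZMod (p ^ 2) := fun i => ((z t i : ℤ) : ZMod (p ^ 2)) with hR
    have hdvd : ∀ i, (p : ℤ) ^ 2 ∣ z t i - rep p e R i := by
      intro i
      have h1 : ((p ^ 2 : ℕ) : ℤ) ∣ z t i - ((R i).val : ℤ) := by
        rw [← ZMod.intCast_zmod_eq_zero_iff_dvd]
        push_cast
        rw [ZMod.natCast_zmod_val]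
        change ((z t i : ℤ) : ZMod (p ^ 2)) - ((z t i : ℤ) : ZMod (p ^ 2)) = 0
        exact sub_self _
      push_cast at h1
      unfold rep
      obtain ⟨w, hw⟩ := h1
      refine ⟨w - (bd r₁ r₂ : ℤ) ^ 2 * ((e i : ℕ) + 1), ?_⟩
      rw [mul_sub, ← hw]
      push_cast
      ring
    choose y hy using hdvd
    have hy' : ∀ i, z t i = rep p e R i + (p : ℤ) ^ 2 * (fun j => y (e.symm j)) (e i) := by
      intro i
      simp only [Equiv.symm_apply_apply]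
      rw [← hy i]
      ring
    exact ⟨fun j => y (e.symm j), hy', hh R (z t) _ hy' hbad⟩

end

end Pool.Agent.N924.LP
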