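import Pool.Agent.N924.LP.SigS
import Pool.Agent.N924.LP.Eq
import Pool.Agent.H33R4.PLACES

set_option autoImplicit false

/-! # Leopoldt's conjecture for almost all fields `ℚ(θ)`, `∏ (θ² - A_i²) = 1` -/

namespace Pool.Agent.N924.LP

open Polynomial NumberField Pool.Agent.H33R4
open Pool.Agent.H637R2.Leo (Leopoldt)

noncomputable section

/-- the sum of two coordinates in a finite set -/
theorem nul_sum {τ κ : Type} [Fintype κ] {S : ℕ → Finset τ} {z : τ → κ → ℤ} (hz : Eqd S z)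
    (i j : κ) (hij : j ≠ i) (D : Finset ℤ) : Nul S {t | z t i + z t j ∈ D} := by
  classical
  apply nul_thin hz
  intro ε hε
  obtain ⟨q, hq⟩ := exists_nat_gt (max 1 ((D.card : ℝ) / ε))
  have hq1 : (1 : ℝ) < q := lt_of_le_of_lt (le_max_left _ _) hq
  have hq2 : (D.card : ℝ) / ε < q := lt_of_le_of_lt (le_max_right _ _) hq
  have hq3 : 1 ≤ q := by
    have : 1 < q := by exact_mod_cast hq1
    omega
  have : NeZero q := ⟨by omega⟩
  let G : ℤ → Finset (κ → ZMod q) := fun d =>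
    Finset.univ.filter fun c => c i = -c j + (d : ZMod q)
  refine ⟨q, hq3, D.biUnion G, ?_, ?_⟩
  · have h1 : ∀ d ∈ D, (G d).card * q ≤ q ^ Fintype.card κ := by
      intro d _
      refine card_graph i (fun c => -c j + (d : ZMod q)) ?_ _ ?_
      · intro c c' h
        rw [h j hij]
      · intro c hc
        exact (Finset.mem_filter.1 hc).2
    have h2 : (D.biUnion G).card * q ≤ D.card * q ^ Fintype.card κ := by
      calc (D.biUnion G).card * q ≤ (∑ d ∈ D, (G d).card) * q :=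
            Nat.mul_le_mul_right _ Finset.card_biUnion_le
        _ = ∑ d ∈ D, (G d).card * q := by rw [Finset.sum_mul]
        _ ≤ ∑ d ∈ D, q ^ Fintype.card κ := Finset.sum_le_sum h1
        _ = D.card * q ^ Fintype.card κ := by rw [Finset.sum_const, smul_eq_mul]
    have h3 : ((D.biUnion G).card : ℝ) * q ≤ D.card * (q : ℝ) ^ Fintype.card κ := by
      exact_mod_cast h2
    have hq0 : (0 : ℝ) < q := by linarith
    rw [div_lt_iff₀ hε] at hq2
    have h4 : (0 : ℝ) ≤ (q : ℝ) ^ Fintype.card κ := by positivity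
    have h5 : ((D.biUnion G).card : ℝ) * q ≤ (ε * (q : ℝ) ^ Fintype.card κ) * q := by nlinarith
    exact le_of_mul_le_mul_right h5 hq0
  · intro t ht
    rw [Finset.mem_biUnion]
    refine ⟨_, ht, Finset.mem_filter.2 ⟨Finset.mem_univ _, ?_⟩⟩
    push_cast
    ring

variable {d : ℕ}

/-- the polynomial `∏ (Y² - A_i²) - 1` -/
def polS (A : Fin d → ℤ) : ℤ[X] := ∏ i, sB A i - 1

/-- `±A_i` are far apart -/
def FarS (A : Fin d → ℤ) : Prop :=
  Far (dA A) (fun i : Fin 0 => i.elim0) (fun i : Fin 0 => i.elim0)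

theorem farS_of (A : Fin d → ℤ) (h1 : ∀ i, (bd (d + d) 0 : ℤ) ≤ |A i|)
    (h2 : ∀ i j, i ≠ j → (bd (d + d) 0 : ℤ) ≤ |A i - A j|)
    (h3 : ∀ i j, i ≠ j → (bd (d + d) 0 : ℤ) ≤ |A i + A j|) : FarS A := by
  refine ⟨?_, fun k => k.elim0, fun k => k.elim0⟩
  intro i j
  refine Fin.addCases (fun i => ?_) (fun i => ?_) i <;>
    refine Fin.addCases (fun j => ?_) (fun j => ?_) j <;> intro hij <;> unfold dA
  · rw [Fin.append_left, Fin.append_left]
    exact h2 i j fun h => hij (by rw [h])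
  · rw [Fin.append_left, Fin.append_right, sub_neg_eq_add]
    by_cases h : i = j
    · have e2 : A i + A i = 2 * A i := by ring
      rw [← h, e2, abs_mul]
      have := h1 i
      have h0 := abs_nonneg (A i)
      rw [show |(2 : ℤ)| = 2 from rfl]
      linarith
    · exact h3 i j h
  · rw [Fin.append_left, Fin.append_right]
    have e1 : |-A i - A j| = |A i + A j| := by rw [← abs_neg]; congr 1; ring
    rw [e1]
    by_cases h : i = j
    · have e2 : A i + A i = 2 * A i := by ring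
      rw [← h, e2, abs_mul]
      have := h1 i
      have h0 := abs_nonneg (A i)
      rw [show |(2 : ℤ)| = 2 from rfl]
      linarith
    · exact h3 i j h
  · rw [Fin.append_right, Fin.append_right]
    have e1 : |-A i - -A j| = |A i - A j| := by rw [← abs_neg]; congr 1; ring
    rw [e1]
    exact h2 i j fun h => hij (by rw [h])

theorem bd3 (a b : ℕ) : (3 : ℤ) ≤ bd a b := by
  have : 3 ≤ bd a b := by unfold bd; omega
  exact_mod_cast this

theorem FarS.gapE {A : Fin d → ℤ} (h : FarS A) (i j : Fin (d + d)) (hij : i ≠ j) :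
    3 ≤ |dA A i - dA A j| := (bd3 _ _).trans (h.ha i j hij)

theorem FarS.gapF {A : Fin d → ℤ} (h : FarS A) (i j : Fin d) (hij : i ≠ j) :
    3 ≤ |A i ^ 2 - A j ^ 2| := by
  have h1 := h.gapE (Fin.castAdd d i) (Fin.castAdd d j) (fun h => hij (Fin.castAdd_injective _ _ h))
  have h2 := h.gapE (Fin.castAdd d i) (Fin.natAdd d j) (fun h => by
    have := congrArg Fin.val h
    simp only [Fin.val_castAdd, Fin.val_natAdd] at this
    have := i.2
    omega)
  unfold dA at h1 h2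
  rw [Fin.append_left, Fin.append_left] at h1
  rw [Fin.append_left, Fin.append_right, sub_neg_eq_add] at h2
  have e1 : A i ^ 2 - A j ^ 2 = (A i - A j) * (A i + A j) := by ring
  rw [e1, abs_mul]
  nlinarith

theorem leo_of (p : ℕ) [Fact p.Prime] (hd : 1 ≤ d) (A : Fin d → ℤ) (hF : FarS A)
    (hbad : ¬ Bd p (d + d - 1) (polS A)) (E : Type) [Field E] [NumberField E] (θ : E)
    (hθ : ∏ i, (θ ^ 2 - ((A i : ℤ) : E) ^ 2) = 1) (hgen : IntermediateField.adjoin ℚ {θ} = ⊤) :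
    Leopoldt E p := by
  obtain ⟨hirr, hmon, hdeg⟩ := far_irr (r₁ := d + d) (r₂ := 0) (by omega) hF
  have hroots := far_roots (r₁ := d + d) (r₂ := 0) (by omega) hF
  have hθ' : aeval θ (polS A) = 0 := by
    unfold polS sB
    rw [map_sub, map_one, map_prod, Fintype.prod_sum_type, sub_eq_zero]
    have h1 : ∏ i, (aeval θ) (fB (dA A) (fun i : Fin 0 => i.elim0) (fun i : Fin 0 => i.elim0)
        (Sum.inl i)) = 1 := by
      rw [← hθ, ← SG.prod_dA]
      refine Finset.prod_congr rfl fun i _ => ?_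
      change (aeval θ) (X - C (dA A i)) = _
      simp
    rw [h1, one_mul]
    exact Finset.prod_empty
  obtain ⟨hdd, hreal⟩ := places_proof _ hmon hirr E θ hθ' hgen
  rw [hroots] at hreal
  have h1 := InfinitePlace.card_add_two_mul_card_eq_rank E
  have h2 := InfinitePlace.card_eq_nrRealPlaces_add_nrComplexPlaces E
  rw [hdd, hreal, hdeg] at h1
  have hcomp : InfinitePlace.nrComplexPlaces E = 0 := by omega
  by_contra hL
  apply hbad
  refine ⟨E, inferInstance, inferInstance, θ, hθ', hdd, hgen, ?_, hL⟩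
  unfold Units.rank
  rw [h2, hreal, hcomp]
  omega

/-- representatives -/
def repS (p : ℕ) (R : Fin d → ZMod (p ^ 2)) : Fin d → ℤ := fun i =>
  ((R i).val : ℤ) + (p : ℤ) ^ 2 * ((bd (d + d) 0 : ℤ) ^ 2 * ((i : ℕ) + 1))

theorem repS_far (p : ℕ) [hp : Fact p.Prime] (R : Fin d → ZMod (p ^ 2)) : FarS (repS p R) := by
  have : NeZero (p ^ 2) := ⟨pow_ne_zero _ hp.out.ne_zero⟩
  have hb3 : (3 : ℤ) ≤ bd (d + d) 0 := bd3 _ _
  have hp1 : (1 : ℤ) ≤ (p : ℤ) ^ 2 := by
    have : (0 : ℤ) < (p : ℤ) ^ 2 := by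
      have := hp.out.pos
      positivity
    linarith
  have hv0 : ∀ i, (0 : ℤ) ≤ ((R i).val : ℤ) := fun i => by positivity
  have hv1 : ∀ i, ((R i).val : ℤ) < (p : ℤ) ^ 2 := fun i => by exact_mod_cast ZMod.val_lt (R i)
  have hbb : (bd (d + d) 0 : ℤ) ≤ (bd (d + d) 0 : ℤ) ^ 2 := by nlinarith
  have hpos : ∀ i, (bd (d + d) 0 : ℤ) ≤ repS p R i := by
    intro i
    unfold repS
    have h2 := hv0 i
    have h3 : (0 : ℤ) ≤ ((i : ℕ) : ℤ) := by positivity
    have h4 : (1 : ℤ) ≤ (p : ℤ) ^ 2 * (((i : ℕ) : ℤ) + 1) := by nlinarith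
    have h5 : (bd (d + d) 0 : ℤ) ^ 2 ≤ (p : ℤ) ^ 2 * ((bd (d + d) 0 : ℤ) ^ 2 * (((i : ℕ) : ℤ) + 1)) := by
      calc (bd (d + d) 0 : ℤ) ^ 2 = (bd (d + d) 0 : ℤ) ^ 2 * 1 := by ring
        _ ≤ (bd (d + d) 0 : ℤ) ^ 2 * ((p : ℤ) ^ 2 * (((i : ℕ) : ℤ) + 1)) := by gcongr
        _ = _ := by ring
    linarith
  have hlt : ∀ i j : Fin d, (i : ℕ) < (j : ℕ) → (bd (d + d) 0 : ℤ) ≤ repS p R j - repS p R i := by
    intro i j hij
    have h1 : ((i : ℕ) : ℤ) + 1 ≤ (j : ℕ) := by exact_mod_cast hij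
    unfold repS
    have h2 := hv0 j
    have h3 := hv1 i
    have h4 : (p : ℤ) ^ 2 * ((bd (d + d) 0 : ℤ) ^ 2 * 1) ≤
        (p : ℤ) ^ 2 * ((bd (d + d) 0 : ℤ) ^ 2 * (((j : ℕ) : ℤ) - ((i : ℕ) : ℤ))) := by
      have : (1 : ℤ) ≤ ((j : ℕ) : ℤ) - ((i : ℕ) : ℤ) := by linarith
      gcongr
    have h5 : (bd (d + d) 0 : ℤ) + (p : ℤ) ^ 2 ≤ (p : ℤ) ^ 2 * ((bd (d + d) 0 : ℤ) ^ 2 * 1) := by
      nlinarith [mul_nonneg (sub_nonneg.2 hp1)
        (show (0 : ℤ) ≤ (bd (d + d) 0 : ℤ) ^ 2 - 1 by nlinarith)]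
    have h6 : (p : ℤ) ^ 2 * ((bd (d + d) 0 : ℤ) ^ 2 * (((j : ℕ) : ℤ) - ((i : ℕ) : ℤ))) =
        (p : ℤ) ^ 2 * ((bd (d + d) 0 : ℤ) ^ 2 * (((j : ℕ) : ℤ) + 1)) -
        (p : ℤ) ^ 2 * ((bd (d + d) 0 : ℤ) ^ 2 * (((i : ℕ) : ℤ) + 1)) := by ring
    linarith
  refine farS_of _ (fun i => (hpos i).trans (le_abs_self _)) (fun i j hij => ?_) (fun i j _ => ?_)
  · have h1 : (i : ℕ) ≠ (j : ℕ) := fun h => hij (Fin.ext h)
    rcases lt_or_gt_of_ne h1 with h | h
    · rw [abs_sub_comm]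
      exact (hlt i j h).trans (le_abs_self _)
    · exact (hlt j i h).trans (le_abs_self _)
  · have h1 := hpos i
    have h2 := hpos j
    refine le_trans ?_ (le_abs_self _)
    linarith

/-- a power series for every class -/
theorem cls_sym (p : ℕ) [hp : Fact p.Prime] (hd : 1 ≤ d) (Y : Sys p d) (ρ : Fin d → ℤ)
    (hF : FarS ρ) :
    ∃ h : Y.R, h ≠ 0 ∧ ∀ (v y : Fin d → ℤ), (∀ i, v i = ρ i + (p : ℤ) ^ 2 * y i) →
      Bd p (d + d - 1) (polS v) → Y.ev (fun i => ((y i : ℤ) : ℤ_[p])) h = 0 := by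
  classical
  let j₀ : Fin d := ⟨0, by omega⟩
  have hcard : Fintype.card {i : Fin (d + d) ⊕ Fin 0 // i ≠ k0 j₀} = d + d - 1 := by
    rw [Fintype.card_subtype_compl]
    simp
  let eq : Fin (d + d - 1) ≃ {i : Fin (d + d) ⊕ Fin 0 // i ≠ k0 j₀} :=
    (Fintype.equivFinOfCardEq hcard).symm
  have hpol : ∀ v : Fin d → ℤ, sp v (fm (PhS d)) = polS v := by
    intro v
    rw [sp_fm]
    unfold polS
    congr 1
    exact Finset.prod_congr rfl fun i _ => sp_PhS v i
  have hmon : ∀ i, (PhS d i).Monic := fun i => fB_monic _ _ _ i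
  have hdeg : ∀ i, 0 < (PhS d i).natDegree := by
    rintro (i | k)
    · unfold PhS sB
      rw [fB_natDegree_inl]
      norm_num
    · exact k.elim0
  obtain ⟨h, h0, h1⟩ := cls Y (PhS d) hmon hdeg (k0 j₀) (d + d - 1) (fun k => (eq k).1) ρ j₀
    (by rw [hpol]; exact (far_irr (r₁ := d + d) (r₂ := 0) (by omega) hF).1)
    (hind_sym ρ hF j₀ _ _ (fun k l hkl => eq.injective (Subtype.ext hkl)) fun k => (eq k).2)
  refine ⟨h, h0, fun v y hv hbad => h1 v y hv ?_⟩
  rw [hpol]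
  exact hbad

/-- the conclusion for `A` -/
def HoldsS (p : ℕ) [Fact p.Prime] (A : Fin d → ℤ) : Prop :=
  FarS A ∧ ∀ (E : Type) [Field E] [NumberField E] (θ : E),
    ∏ i, (θ ^ 2 - ((A i : ℤ) : E) ^ 2) = 1 → IntermediateField.adjoin ℚ {θ} = ⊤ → Leopoldt E p

theorem mainS {τ : Type} (S : ℕ → Finset τ) (p : ℕ) [hp : Fact p.Prime] (hd : 1 ≤ d)
    (z : τ → Fin d → ℤ) (hz : Eqd S z) : Nul S {t | ¬ HoldsS p (z t)} := by
  classical
  have hne2 : NeZero (p ^ 2) := ⟨pow_ne_zero _ hp.out.ne_zero⟩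
  obtain ⟨Y⟩ := exists_sys p d
  choose h hh0 hh using fun R : Fin d → ZMod (p ^ 2) =>
    cls_sym p hd Y (repS p R) (repS_far p R)
  let D : Finset ℤ := Finset.Ioo (-(bd (d + d) 0 : ℤ)) (bd (d + d) 0 : ℤ)
  have hDabs : ∀ x : ℤ, x ∉ D → (bd (d + d) 0 : ℤ) ≤ |x| := by
    intro x hx
    simp only [D, Finset.mem_Ioo, not_and_or, not_lt] at hx
    rcases hx with hx | hx
    · have := neg_le_abs x
      linarith
    · exact hx.trans (le_abs_self _)
  let ι : Type := ((Fin d × Option (Fin d)) ⊕ (Fin d × Fin d)) ⊕ (Fin d → ZMod (p ^ 2))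
  let B : ι → Set τ := fun x => match x with
    | Sum.inl (Sum.inl x) => if x.2 = some x.1 then ∅ else {t | z t x.1 - x.2.elim 0 (z t) ∈ D}
    | Sum.inl (Sum.inr x) => if x.2 = x.1 then ∅ else {t | z t x.1 + z t x.2 ∈ D}
    | Sum.inr R => {t | ∃ y : Fin d → ℤ, (∀ i, z t i = repS p R i + (p : ℤ) ^ 2 * y i) ∧
      Y.ev (fun i => ((y i : ℤ) : ℤ_[p])) (h R) = 0}
  have hempty : Nul S (∅ : Set τ) := by
    intro ε hε
    refine ⟨0, fun N _ => ?_⟩
    have e1 : {t : τ | t ∈ S N ∧ t ∈ (∅ : Set τ)} = ∅ := by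
      ext t
      simp
    rw [e1, Set.ncard_empty]
    push_cast
    positivity
  have hB : Nul S {t | ∃ x ∈ (Finset.univ : Finset ι), t ∈ B x} := by
    apply nul_union
    rintro ((⟨i, j⟩ | ⟨i, j⟩) | R) _
    · by_cases hij : j = some i
      · simp only [B, if_pos hij]
        exact hempty
      · simp only [B, if_neg hij]
        exact nul_diff hz i j hij D
    · by_cases hij : j = i
      · simp only [B, if_pos hij]
        exact hempty
      · simp only [B, if_neg hij]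
        exact nul_sum hz i j hij D
    · exact nul_class hz (Equiv.refl (Fin d)) Y (h R) (hh0 R) _
  refine hB.mono ?_
  intro t hnot
  by_contra hno
  have hno' : ∀ x : ι, t ∉ B x := fun x hx => hno ⟨x, Finset.mem_univ _, hx⟩
  apply hnot
  have hfar : FarS (z t) := by
    refine farS_of _ (fun i => ?_) (fun i j hij => ?_) (fun i j hij => ?_)
    · apply hDabs
      have h1 := hno' (Sum.inl (Sum.inl (i, none)))
      simpa [B] using h1
    · apply hDabs
      have h1 := hno' (Sum.inl (Sum.inl (i, some j)))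
      simp only [B] at h1
      rw [if_neg (by simpa using hij.symm)] at h1
      exact h1
    · apply hDabs
      have h1 := hno' (Sum.inl (Sum.inr (i, j)))
      simp only [B] at h1
      rw [if_neg (by simpa using hij.symm)] at h1
      exact h1
  refine ⟨hfar, fun E _ _ θ hθ hgen => leo_of p hd (z t) hfar ?_ E θ hθ hgen⟩
  intro hbad
  set R : Fin d → ZMod (p ^ 2) := fun i => ((z t i : ℤ) : ZMod (p ^ 2)) with hR
  have hdvd : ∀ i, (p : ℤ) ^ 2 ∣ z t i - repS p R i := by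
    intro i
    have h1 : ((p ^ 2 : ℕ) : ℤ) ∣ z t i - ((R i).val : ℤ) := by
      rw [← ZMod.intCast_zmod_eq_zero_iff_dvd]
      push_cast
      rw [ZMod.natCast_zmod_val]
      change ((z t i : ℤ) : ZMod (p ^ 2)) - ((z t i : ℤ) : ZMod (p ^ 2)) = 0
      exact sub_self _
    push_cast at h1
    unfold repS
    obtain ⟨w, hw⟩ := h1
    refine ⟨w - (bd (d + d) 0 : ℤ) ^ 2 * ((i : ℕ) + 1), ?_⟩
    rw [mul_sub, ← hw]
    push_cast
    ring
  choose y hy using hdvd
  have hy' : ∀ i, z t i = repS p R i + (p : ℤ) ^ 2 * y i := by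
    intro i
    rw [← hy i]
    ring
  exact hno' (Sum.inr R) ⟨y, hy', hh R (z t) _ hy' hbad⟩

end

end Pool.Agent.N924.LP
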