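import Pool.Agent.N924.LP.Eq

set_option autoImplicit false

/-! # Products of intervals are equidistributed -/

namespace Pool.Agent.N924.LP

open Filter Topology Finset

noncomputable section

theorem count (a b : ℤ) (hab : a ≤ b) (q : ℕ) (hq : 1 ≤ q) (ρ : ℤ) :
    |((#{x ∈ Ioc a b | (q : ℤ) ∣ x - ρ} : ℕ) : ℝ) - ((b : ℝ) - a) / q| ≤ 1 := by
  have hq0 : (0 : ℤ) < q := by exact_mod_cast hq
  have h1 : #{x ∈ Ioc a b | (q : ℤ) ∣ x - ρ} = #{x ∈ Ioc a b | x ≡ ρ [ZMOD q]} := by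
    congr 1
    ext x
    rw [mem_filter, mem_filter]
    refine and_congr_right fun _ => ?_
    rw [Int.modEq_comm, Int.modEq_iff_dvd]
  have h2 := Int.Ioc_filter_modEq_card a b hq0 ρ
  rw [← h1] at h2
  set X : ℚ := ((b : ℚ) - ρ) / ((q : ℤ) : ℚ) with hX
  set Y : ℚ := ((a : ℚ) - ρ) / ((q : ℤ) : ℚ) with hY
  have hqq : (0 : ℚ) < ((q : ℤ) : ℚ) := by exact_mod_cast hq0
  have hYX : Y ≤ X := by
    rw [hX, hY]
    have : (a : ℚ) ≤ b := by exact_mod_cast hab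
    gcongr
  have hfl : (0 : ℤ) ≤ ⌊X⌋ - ⌊Y⌋ := sub_nonneg.2 (Int.floor_le_floor hYX)
  rw [max_eq_left hfl] at h2
  have h3 : X - Y = ((b : ℚ) - a) / q := by
    rw [hX, hY]
    push_cast
    ring
  have h4 : |((#{x ∈ Ioc a b | (q : ℤ) ∣ x - ρ} : ℕ) : ℚ) - ((b : ℚ) - a) / q| ≤ 1 := by
    have h5 : ((#{x ∈ Ioc a b | (q : ℤ) ∣ x - ρ} : ℕ) : ℚ) = (⌊X⌋ : ℚ) - ⌊Y⌋ := by
      have := congrArg (fun n : ℤ => (n : ℚ)) h2
      push_cast at this
      exact this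
    rw [h5, ← h3, abs_le]
    constructor
    · linarith [Int.lt_floor_add_one X, Int.floor_le Y]
    · linarith [Int.lt_floor_add_one Y, Int.floor_le X]
  have h6 : ((|((#{x ∈ Ioc a b | (q : ℤ) ∣ x - ρ} : ℕ) : ℚ) - ((b : ℚ) - a) / q| : ℚ) : ℝ) ≤
      ((1 : ℚ) : ℝ) := by exact_mod_cast h4
  push_cast at h6
  exact h6

theorem freq (a b : ℕ → ℤ) (hab : Tendsto (fun N => ((b N : ℝ) - a N)) atTop atTop) (q : ℕ)
    (hq : 1 ≤ q) (ρ : ℤ) :
    Tendsto (fun N => ((#{x ∈ Ioc (a N) (b N) | (q : ℤ) ∣ x - ρ} : ℕ) : ℝ) /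
      (#(Ioc (a N) (b N)) : ℕ)) atTop (𝓝 (1 / q)) := by
  rw [tendsto_iff_norm_sub_tendsto_zero]
  have h1 : Tendsto (fun N => 1 / ((b N : ℝ) - a N)) atTop (𝓝 0) := by
    simp only [one_div]
    exact hab.inv_tendsto_atTop
  refine squeeze_zero' (Eventually.of_forall fun N => norm_nonneg _) ?_ h1
  filter_upwards [hab.eventually_gt_atTop 0] with N hN
  have hle : a N ≤ b N := by
    have : (a N : ℝ) < b N := by linarith
    exact_mod_cast this.le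
  have hcard : ((#(Ioc (a N) (b N)) : ℕ) : ℝ) = (b N : ℝ) - a N := by
    rw [Int.card_Ioc]
    have h3 : (((b N - a N).toNat : ℤ) : ℝ) = ((b N - a N : ℤ) : ℝ) := by
      rw [Int.toNat_of_nonneg (by linarith)]
    push_cast at h3
    exact_mod_cast h3
  rw [hcard, Real.norm_eq_abs]
  have hq0 : (0 : ℝ) < q := by exact_mod_cast hq
  have h2 := count (a N) (b N) hle q hq ρ
  have e1 : ((#{x ∈ Ioc (a N) (b N) | (q : ℤ) ∣ x - ρ} : ℕ) : ℝ) / ((b N : ℝ) - a N) - 1 / q =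
      (((#{x ∈ Ioc (a N) (b N) | (q : ℤ) ∣ x - ρ} : ℕ) : ℝ) - ((b N : ℝ) - a N) / q) /
        ((b N : ℝ) - a N) := by
    field_simp
  rw [e1, abs_div, abs_of_pos hN]
  gcongr

/-- boxes -/
theorem eqd_box {κ : Type} [Fintype κ] [DecidableEq κ] (a b : κ → ℕ → ℤ)
    (hab : ∀ i, Tendsto (fun N => ((b i N : ℝ) - a i N)) atTop atTop) :
    Eqd (fun N => Fintype.piFinset fun i => Ioc (a i N) (b i N)) (fun x : κ → ℤ => x) := by
  intro q hq ρ
  have h1 := tendsto_finset_prod (Finset.univ : Finset κ) fun i _ => freq (a i) (b i) (hab i) q hq (ρ i)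
  have h2 : ∏ i : κ, (1 / (q : ℝ)) = 1 / (q : ℝ) ^ Fintype.card κ := by
    rw [Finset.prod_const, Finset.card_univ, one_div_pow]
  rw [h2] at h1
  refine h1.congr fun N => ?_
  rw [Finset.prod_div_distrib]
  congr 1
  · have e1 : {t : κ → ℤ | t ∈ (Fintype.piFinset fun i => Ioc (a i N) (b i N)) ∧
        ∀ i, (q : ℤ) ∣ t i - ρ i} =
        ↑(Fintype.piFinset fun i => {x ∈ Ioc (a i N) (b i N) | (q : ℤ) ∣ x - ρ i}) := by
      ext t
      simp only [Set.mem_ofPred_eq, Finset.mem_coe, Fintype.mem_piFinset, Finset.mem_filter]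
      exact ⟨fun h i => ⟨h.1 i, h.2 i⟩, fun h => ⟨fun i => (h i).1, fun i => (h i).2⟩⟩
    rw [e1, Set.ncard_coe_finset, Fintype.card_piFinset]
    push_cast
    rfl
  · rw [Fintype.card_piFinset]
    push_cast
    rfl

end

end Pool.Agent.N924.LP
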