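import Pool.Agent.H33R4.SIG
import Pool.Agent.H33R4.IRR

set_option autoImplicit false

/-! # Irreducibility and real roots of `∏ (Y - a_i) ∏ ((Y - b_k)² + c_k) - 1` -/

namespace Pool.Agent.N924.LP

open Polynomial Pool.Agent.H33R4

noncomputable section

/-- the factors -/
def fB {B : Type} [CommRing B] {r₁ r₂ : ℕ} (a : Fin r₁ → B) (b c : Fin r₂ → B) :
    Fin r₁ ⊕ Fin r₂ → B[X]
  | Sum.inl i => X - C (a i)
  | Sum.inr k => (X - C (b k)) ^ 2 + C (c k)

theorem fB_map {A B : Type} [CommRing A] [CommRing B] (φ : A →+* B) {r₁ r₂ : ℕ} (a : Fin r₁ → A)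
    (b c : Fin r₂ → A) (i : Fin r₁ ⊕ Fin r₂) :
    (fB a b c i).map φ = fB (fun i => φ (a i)) (fun k => φ (b k)) (fun k => φ (c k)) i := by
  rcases i with i | k
  · simp [fB]
  · simp [fB]

theorem fB_monic {B : Type} [CommRing B] [Nontrivial B] {r₁ r₂ : ℕ} (a : Fin r₁ → B)
    (b c : Fin r₂ → B) (i : Fin r₁ ⊕ Fin r₂) : (fB a b c i).Monic := by
  rcases i with i | k
  · exact monic_X_sub_C _
  · change ((X - C (b k)) ^ 2 + C (c k)).Monic
    apply Monic.add_of_left ((monic_X_sub_C _).pow 2)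
    refine lt_of_le_of_lt degree_C_le ?_
    rw [degree_eq_natDegree ((monic_X_sub_C _).pow 2).ne_zero, (monic_X_sub_C _).natDegree_pow,
      natDegree_X_sub_C]
    norm_num

theorem fB_natDegree_inl {B : Type} [CommRing B] [Nontrivial B] {r₁ r₂ : ℕ} (a : Fin r₁ → B)
    (b c : Fin r₂ → B) (i : Fin r₁) : (fB a b c (Sum.inl i)).natDegree = 1 := natDegree_X_sub_C _

theorem fB_natDegree_inr {B : Type} [CommRing B] [Nontrivial B] {r₁ r₂ : ℕ} (a : Fin r₁ → B)
    (b c : Fin r₂ → B) (k : Fin r₂) : (fB a b c (Sum.inr k)).natDegree = 2 := by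
  change ((X - C (b k)) ^ 2 + C (c k)).natDegree = 2
  rw [natDegree_add_C, (monic_X_sub_C _).natDegree_pow, natDegree_X_sub_C]

/-- `L` -/
def bd (r₁ r₂ : ℕ) : ℕ := 3 * (r₁ + r₂) + 3

/-- the parameters are far apart -/
structure Far {r₁ r₂ : ℕ} (a : Fin r₁ → ℤ) (b c : Fin r₂ → ℤ) : Prop where
  ha : ∀ i j, i ≠ j → (bd r₁ r₂ : ℤ) ≤ |a i - a j|
  hb : ∀ k l, k ≠ l → (bd r₁ r₂ : ℤ) ≤ |b k - b l|
  hc : ∀ k, ((bd r₁ r₂ : ℕ) : ℤ) ^ 2 ≤ c k

namespace Base

/-- the factors as real functions -/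
def ph {r₁ r₂ : ℕ} (a : Fin r₁ → ℤ) (b c : Fin r₂ → ℤ) : Fin r₁ ⊕ Fin r₂ → ℝ → ℝ
  | Sum.inl i => fun x => x - a i
  | Sum.inr k => fun x => (x - b k) ^ 2 + c k

theorem eval_fam {r₁ r₂ : ℕ} (a : Fin r₁ → ℤ) (b c : Fin r₂ → ℤ) (x : ℝ) :
    ((∏ i, fB a b c i - 1 : ℤ[X]).map (Int.castRingHom ℝ)).eval x = ∏ i, ph a b c i x - 1 := by
  rw [Polynomial.map_sub, Polynomial.eval_sub, Polynomial.map_one, Polynomial.eval_one,
    Polynomial.map_prod, Polynomial.eval_prod]
  congr 1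
  refine Finset.prod_congr rfl fun i _ => ?_
  rcases i with i | k
  · simp [fB, ph]
  · simp [fB, ph]

theorem fact_all {r₁ r₂ : ℕ} {a : Fin r₁ → ℤ} {b c : Fin r₂ → ℤ} (hF : Far a b c) {t : ℝ}
    (ht0 : t = bd r₁ r₂) (i : Fin r₁) {x y : ℝ}
    (hx : |x - a i| ≤ 1) (hy : |y - a i| ≤ 1) (j : Fin r₁ ⊕ Fin r₂)
    (hj : j ≠ Sum.inl i) : 0 < ph a b c j x * ph a b c j y ∧ 1 ≤ |ph a b c j x| ∧
      Real.log |ph a b c j x| - Real.log |ph a b c j y| ≤ 3 / (|t| - 1) * |x - y| := by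
  have ht3 : (3 : ℝ) ≤ bd r₁ r₂ := by
    have : 3 ≤ bd r₁ r₂ := by unfold bd; omega
    exact_mod_cast this
  have ht : 3 ≤ |t| := by rw [ht0, abs_of_nonneg (by linarith)]; exact ht3
  have htabs : |t| = bd r₁ r₂ := by rw [ht0, abs_of_nonneg (by linarith)]
  rcases j with l | k
  · have hne : i ≠ l := fun h => hj (by rw [h])
    have h1 : (bd r₁ r₂ : ℝ) ≤ |(a i : ℝ) - a l| := by
      exact_mod_cast hF.ha i l hne
    exact SIGaux.fact_lin ht (by rw [htabs]; exact h1) hx hy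
  · have hck : (bd r₁ r₂ : ℝ) ^ 2 ≤ c k := by exact_mod_cast hF.hc k
    have htt : t ^ 2 = (bd r₁ r₂ : ℝ) ^ 2 := by rw [ht0]
    have ht2 : 0 < t ^ 2 := by rw [htt]; positivity
    have h1 : (1 : ℝ) ≤ c k / t ^ 2 := by
      rw [one_le_div ht2, htt]
      exact hck
    have h2 : ((c k : ℝ) / t ^ 2) * t ^ 2 = c k := div_mul_cancel₀ _ ht2.ne'
    have h3 := SIGaux.fact_quad (s := b k) (c := c k / t ^ 2) (t := t) (x := x) (y := y) ht h1 (by
      calc |x - y| = |(x - a i) - (y - a i)| := by ring_nf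
        _ ≤ |x - a i| + |y - a i| := abs_sub _ _
        _ ≤ 2 := by linarith)
    rw [h2] at h3
    exact h3

open Finset in
theorem split {r₁ r₂ : ℕ} (a : Fin r₁ → ℤ) (b c : Fin r₂ → ℤ) (i : Fin r₁) (x : ℝ) :
    ∏ j, ph a b c j x = (x - a i) * ∏ j ∈ univ.erase (Sum.inl i), ph a b c j x := by
  rw [← Finset.mul_prod_erase univ _ (mem_univ (Sum.inl i))]
  rfl

open Finset in
theorem uniq {r₁ r₂ : ℕ} {a : Fin r₁ → ℤ} {b c : Fin r₂ → ℤ} (hF : Far a b c) (i : Fin r₁)
    {x y : ℝ} (hx : |x - a i| ≤ 1) (hy : |y - a i| ≤ 1) (hPx : ∏ j, ph a b c j x = 1)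
    (hPy : ∏ j, ph a b c j y = 1) : x = y := by
  obtain ⟨t, ht0⟩ : ∃ t : ℝ, t = bd r₁ r₂ := ⟨_, rfl⟩
  have ht : (3 * (r₁ + r₂) + 3 : ℝ) ≤ |t| := by
    rw [ht0, abs_of_nonneg (by positivity)]
    unfold bd
    push_cast
    exact le_rfl
  have h0 : (0 : ℝ) ≤ (r₁ : ℝ) + r₂ := by positivity
  have ht3 : 3 ≤ |t| := by linarith
  set S := (univ : Finset (Fin r₁ ⊕ Fin r₂)).erase (Sum.inl i) with hS
  have hcard : (S.card : ℝ) ≤ r₁ + r₂ := by
    have : S.card ≤ Fintype.card (Fin r₁ ⊕ Fin r₂) := by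
      rw [← Finset.card_univ]; exact Finset.card_le_card (Finset.erase_subset _ _)
    rw [Fintype.card_sum, Fintype.card_fin, Fintype.card_fin] at this
    exact_mod_cast this
  -- the logarithms of the other factors
  have hlog : ∀ z : ℝ, |z - a i| ≤ 1 → ∏ j, ph a b c j z = 1 →
      z - a i ≠ 0 ∧ Real.log |z - a i| = - ∑ j ∈ S, Real.log |ph a b c j z| := by
    intro z hz hP
    rw [split a b c i z] at hP
    have hz0 : z - a i ≠ 0 := by
      intro h; rw [h, zero_mul] at hP; exact zero_ne_one hP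
    have hne : ∀ j ∈ S, |ph a b c j z| ≠ 0 := fun j hj => by
      have := (fact_all hF ht0 i hz hz j (Finset.ne_of_mem_erase hj)).2.1
      linarith
    refine ⟨hz0, ?_⟩
    have h1 : |z - a i| * ∏ j ∈ S, |ph a b c j z| = 1 := by
      rw [← Finset.abs_prod, ← abs_mul, hP, abs_one]
    have h2 := congrArg Real.log h1
    rw [Real.log_mul (abs_ne_zero.mpr hz0) (Finset.prod_ne_zero_iff.mpr hne), Real.log_one,
      Real.log_prod hne] at h2
    linarith
  have key : ∀ z w : ℝ, |z - a i| ≤ 1 → |w - a i| ≤ 1 → ∏ j, ph a b c j z = 1 →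
      ∏ j, ph a b c j w = 1 → |w - a i| ≤ |z - a i| → z = w := by
    intro z w hz hw hPz hPw hle
    obtain ⟨hz0, hzl⟩ := hlog z hz hPz
    obtain ⟨hw0, hwl⟩ := hlog w hw hPw
    -- same sign
    have hQ : 0 < (∏ j ∈ S, ph a b c j z) * ∏ j ∈ S, ph a b c j w := by
      rw [← Finset.prod_mul_distrib]
      exact Finset.prod_pos fun j hj =>
        (fact_all hF ht0 i hz hw j (Finset.ne_of_mem_erase hj)).1
    have hsame : 0 < (z - a i) * (w - a i) := by
      have e1 := hPz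
      have e2 := hPw
      rw [split a b c i z] at e1
      rw [split a b c i w] at e2
      have e3 : ((z - a i) * (w - a i)) *
          ((∏ j ∈ S, ph a b c j z) * ∏ j ∈ S, ph a b c j w) = 1 := by
        calc _ = ((z - a i) * ∏ j ∈ S, ph a b c j z) *
            ((w - a i) * ∏ j ∈ S, ph a b c j w) := by ring
          _ = 1 := by rw [e1, e2, one_mul]
      by_contra hneg
      push Not at hneg
      have := mul_nonpos_of_nonpos_of_nonneg hneg hQ.le
      linarith
    have hdist : |z - w| = |z - a i| - |w - a i| := by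
      rcases lt_or_gt_of_ne hz0 with h | h
      · have h' : w - a i < 0 := by
          by_contra h''
          push Not at h''
          have := mul_nonpos_of_nonpos_of_nonneg h.le h''
          linarith
        rw [abs_of_neg h, abs_of_neg h'] at *
        rw [abs_of_nonpos (by linarith)]
        ring
      · have h' : 0 < w - a i := by
          by_contra h''
          push Not at h''
          have := mul_nonpos_of_nonneg_of_nonpos h.le h''
          linarith
        rw [abs_of_pos h, abs_of_pos h'] at *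
        rw [abs_of_nonneg (by linarith)]
        ring
    -- lower bound for the difference of the logarithms
    have hzp : 0 < |z - a i| := abs_pos.mpr hz0
    have hwp : 0 < |w - a i| := abs_pos.mpr hw0
    have hlow : |z - w| ≤ Real.log |z - a i| - Real.log |w - a i| := by
      have h1 := SIGaux.log_diff hwp hzp
      have h2 : (|w - a i| - |z - a i|) / |z - a i| ≤ -|z - w| := by
        rw [div_le_iff₀ hzp]
        rw [hdist]
        nlinarith
      linarith
    have hup : Real.log |z - a i| - Real.log |w - a i|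
        ≤ ∑ j ∈ S, 3 / (|t| - 1) * |w - z| := by
      rw [hzl, hwl]
      have : -∑ j ∈ S, Real.log |ph a b c j z| - -∑ j ∈ S, Real.log |ph a b c j w|
          = ∑ j ∈ S, (Real.log |ph a b c j w| - Real.log |ph a b c j z|) := by
        rw [Finset.sum_sub_distrib]; ring
      rw [this]
      exact Finset.sum_le_sum fun j hj =>
        (fact_all hF ht0 i hw hz j (Finset.ne_of_mem_erase hj)).2.2
    rw [Finset.sum_const, nsmul_eq_mul] at hup
    have h3 : (S.card : ℝ) * (3 / (|t| - 1) * |w - z|) ≤ (3 * (r₁ + r₂) / (|t| - 1)) * |z - w| := by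
      rw [abs_sub_comm w z]
      have h4 : 0 < |t| - 1 := by linarith
      calc (S.card : ℝ) * (3 / (|t| - 1) * |z - w|) ≤ (r₁ + r₂) * (3 / (|t| - 1) * |z - w|) := by
            gcongr
        _ = (3 * (r₁ + r₂) / (|t| - 1)) * |z - w| := by ring
    have h5 : 3 * ((r₁ : ℝ) + r₂) / (|t| - 1) < 1 := by
      rw [div_lt_one (by linarith)]; linarith
    have h6 : |z - w| = 0 := by
      by_contra hne
      have hpos : 0 < |z - w| := lt_of_le_of_ne (abs_nonneg _) (Ne.symm hne)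
      have := mul_lt_mul_of_pos_right h5 hpos
      linarith
    linarith [sub_eq_zero.mp (abs_eq_zero.mp h6)]
  rcases le_total |y - a i| |x - a i| with h | h
  · exact key x y hx hy hPx hPy h
  · exact (key y x hy hx hPy hPx h).symm

theorem cont {r₁ r₂ : ℕ} (a : Fin r₁ → ℤ) (b c : Fin r₂ → ℤ) :
    Continuous fun x => ∏ j, ph a b c j x := by
  refine continuous_finsetProd _ fun j _ => ?_
  rcases j with l | k
  · simp only [ph]; fun_prop
  · simp only [ph]; fun_prop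

open Finset in
theorem exi {r₁ r₂ : ℕ} {a : Fin r₁ → ℤ} {b c : Fin r₂ → ℤ} (hF : Far a b c) (i : Fin r₁) :
    ∃ x : ℝ, |x - a i| ≤ 1 ∧ ∏ j, ph a b c j x = 1 := by
  set S := (univ : Finset (Fin r₁ ⊕ Fin r₂)).erase (Sum.inl i) with hS
  have h1 : |(a i + 1 : ℝ) - a i| ≤ 1 := by simp
  have h2 : |(a i - 1 : ℝ) - a i| ≤ 1 := by simp
  have hQ : 0 < (∏ j ∈ S, ph a b c j (a i + 1)) * ∏ j ∈ S, ph a b c j (a i - 1) := by
    rw [← Finset.prod_mul_distrib]
    exact Finset.prod_pos fun j hj =>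
      (fact_all hF rfl i h1 h2 j (Finset.ne_of_mem_erase hj)).1
  have hA : ∀ z : ℝ, |z - a i| ≤ 1 → 1 ≤ |∏ j ∈ S, ph a b c j z| := by
    intro z hz
    rw [Finset.abs_prod]
    exact SIGaux.one_le_prodR _ _ fun j hj =>
      (fact_all hF rfl i hz hz j (Finset.ne_of_mem_erase hj)).2.1
  have h0 : ∏ j, ph a b c j (a i) = 0 := by
    rw [split a b c i]; simp
  rcases le_or_gt 0 (∏ j ∈ S, ph a b c j (a i + 1)) with h | h
  · have hv : 1 ≤ ∏ j, ph a b c j (a i + 1) := by
      rw [split a b c i]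
      have := hA _ h1
      rw [abs_of_nonneg h] at this
      simpa using this
    obtain ⟨x, hx, hx1⟩ := intermediate_value_Icc (show (a i : ℝ) ≤ a i + 1 by linarith)
      (cont a b c).continuousOn (show (1 : ℝ) ∈ Set.Icc _ _ from ⟨by rw [h0]; norm_num, hv⟩)
    exact ⟨x, by rw [abs_le]; constructor <;> linarith [hx.1, hx.2], hx1⟩
  · have hneg : ∏ j ∈ S, ph a b c j (a i - 1) < 0 := by
      by_contra h'
      push Not at h'
      have := mul_nonpos_of_nonpos_of_nonneg h.le h'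
      linarith
    have hv : 1 ≤ ∏ j, ph a b c j (a i - 1) := by
      rw [split a b c i]
      have := hA _ h2
      rw [abs_of_neg hneg] at this
      have e : (a i - 1 - a i : ℝ) = -1 := by ring
      rw [e]
      linarith
    obtain ⟨x, hx, hx1⟩ := intermediate_value_Icc' (show (a i - 1 : ℝ) ≤ a i by linarith)
      (cont a b c).continuousOn (show (1 : ℝ) ∈ Set.Icc _ _ from ⟨by rw [h0]; norm_num, hv⟩)
    exact ⟨x, by rw [abs_le]; constructor <;> linarith [hx.1, hx.2], hx1⟩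

theorem loc {r₁ r₂ : ℕ} {a : Fin r₁ → ℤ} {b c : Fin r₂ → ℤ} (hF : Far a b c)
    (hr : 1 ≤ r₁ + r₂) {x : ℝ} (hx : ∏ j, ph a b c j x = 1) :
    ∃ i, |x - a i| ≤ 1 := by
  by_contra hcon
  push Not at hcon
  have h1 : ∀ j, 1 < |ph a b c j x| := by
    intro j
    rcases j with l | k
    · exact hcon l
    · have hck : (bd r₁ r₂ : ℝ) ^ 2 ≤ c k := by exact_mod_cast hF.hc k
      have ht3 : (3 : ℝ) ≤ bd r₁ r₂ := by
        have : 3 ≤ bd r₁ r₂ := by unfold bd; omega
        exact_mod_cast this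
      have h3 : 1 < (x - b k) ^ 2 + (c k : ℝ) := by
        nlinarith [sq_nonneg (x - b k)]
      change 1 < |(x - b k) ^ 2 + (c k : ℝ)|
      rw [abs_of_pos (by linarith)]
      exact h3
  have hne : Nonempty (Fin r₁ ⊕ Fin r₂) := by
    rw [← Fintype.card_pos_iff, Fintype.card_sum, Fintype.card_fin, Fintype.card_fin]; omega
  obtain ⟨j₀⟩ := hne
  have h4 : 1 < |∏ j, ph a b c j x| := by
    rw [Finset.abs_prod, ← Finset.mul_prod_erase Finset.univ _ (Finset.mem_univ j₀)]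
    have h5 : 1 ≤ ∏ j ∈ Finset.univ.erase j₀, |ph a b c j x| :=
      SIGaux.one_le_prodR _ _ fun j _ => (h1 j).le
    nlinarith [h1 j₀]
  rw [hx, abs_one] at h4
  exact lt_irrefl _ h4

end Base

open Base in
theorem far_roots {r₁ r₂ : ℕ} (hr : 1 ≤ r₁ + r₂) {a : Fin r₁ → ℤ} {b c : Fin r₂ → ℤ}
    (hF : Far a b c) :
    ((∏ i, fB a b c i - 1 : ℤ[X]).map (Int.castRingHom ℝ)).roots.toFinset.card = r₁ := by
  classical
  set f := (∏ i, fB a b c i - 1 : ℤ[X]).map (Int.castRingHom ℝ) with hf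
  have ht3 : (3 : ℝ) ≤ bd r₁ r₂ := by
    have : 3 ≤ bd r₁ r₂ := by unfold bd; omega
    exact_mod_cast this
  have hev : ∀ x, f.eval x = ∏ j, ph a b c j x - 1 := eval_fam a b c
  have hf0 : f ≠ 0 := by
    intro h
    have h1 : ∀ x, ∏ j, ph a b c j x = 1 := fun x => by
      have := hev x
      rw [h, eval_zero] at this
      linarith
    rcases Nat.eq_zero_or_pos r₁ with hr1 | hr1
    · subst hr1
      obtain ⟨i, _⟩ := loc hF hr (h1 0)
      exact i.elim0
    · have h2 := h1 (a ⟨0, hr1⟩)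
      rw [split a b c ⟨0, hr1⟩] at h2
      simp at h2
  choose ρ hρ1 hρ2 using fun i => exi hF i
  have hinj : Function.Injective ρ := by
    intro i l h
    by_contra hne
    have h1 : (bd r₁ r₂ : ℝ) ≤ |(a i : ℝ) - a l| := by exact_mod_cast hF.ha i l hne
    have h2 := hρ1 i
    have h3 := hρ1 l
    rw [h] at h2
    have h4 : |(a i : ℝ) - a l| ≤ 2 := by
      calc |(a i : ℝ) - a l| = |(ρ l - a l) - (ρ l - a i)| := by ring_nf
        _ ≤ |ρ l - a l| + |ρ l - a i| := abs_sub _ _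
        _ ≤ 2 := by linarith
    linarith
  have himg : f.roots.toFinset = Finset.univ.image ρ := by
    ext x
    rw [Multiset.mem_toFinset, mem_roots hf0, IsRoot.def, hev, sub_eq_zero, Finset.mem_image]
    constructor
    · intro hx
      obtain ⟨i, hi⟩ := loc hF hr hx
      exact ⟨i, Finset.mem_univ _, uniq hF i (hρ1 i) hi (hρ2 i) hx⟩
    · rintro ⟨i, _, rfl⟩
      exact hρ2 i
  rw [himg, Finset.card_image_of_injective _ hinj, Finset.card_univ, Fintype.card_fin]

/-! ### irreducibility -/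

namespace Base

/-- the complex roots of the factors -/
def al {r₁ r₂ : ℕ} (a : Fin r₁ → ℤ) (b c : Fin r₂ → ℤ) : IRR.J r₁ r₂ → ℂ
  | Sum.inl i => ⟨(a i : ℝ), 0⟩
  | Sum.inr (k, s) => ⟨(b k : ℝ), (if s then 1 else -1) * Real.sqrt (c k : ℝ)⟩

theorem far_al {r₁ r₂ : ℕ} {a : Fin r₁ → ℤ} {b c : Fin r₂ → ℤ} (hF : Far a b c)
    (j j' : IRR.J r₁ r₂) (hne : j ≠ j') : 2 < ‖al a b c j - al a b c j'‖ := by
  have ht3 : (3 : ℝ) ≤ bd r₁ r₂ := by
    have : 3 ≤ bd r₁ r₂ := by unfold bd; omega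
    exact_mod_cast this
  have hs : ∀ k, (3 : ℝ) ≤ Real.sqrt (c k : ℝ) := by
    intro k
    have hck : (bd r₁ r₂ : ℝ) ^ 2 ≤ c k := by exact_mod_cast hF.hc k
    refine ht3.trans ?_
    rw [← Real.sqrt_sq (by linarith : (0 : ℝ) ≤ bd r₁ r₂)]
    exact Real.sqrt_le_sqrt hck
  rcases j with i | ⟨k, s⟩ <;> rcases j' with i' | ⟨k', s'⟩
  · have h1 : i ≠ i' := fun h => hne (by rw [h])
    have h2 : (bd r₁ r₂ : ℝ) ≤ |(a i : ℝ) - a i'| := by exact_mod_cast hF.ha i i' h1
    have h3 := Complex.abs_re_le_norm (al a b c (Sum.inl i) - al a b c (Sum.inl i'))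
    simp only [al, Complex.sub_re] at h3 ⊢
    linarith
  · have h3 := Complex.abs_im_le_norm (al a b c (Sum.inl i) - al a b c (Sum.inr (k', s')))
    have h4 := hs k'
    simp only [al, Complex.sub_im, zero_sub, abs_neg, abs_mul] at h3 ⊢
    have h5 : |if s' = true then (1 : ℝ) else -1| = 1 := by split_ifs <;> simp
    rw [h5, one_mul, abs_of_nonneg (by linarith)] at h3
    linarith
  · have h3 := Complex.abs_im_le_norm (al a b c (Sum.inr (k, s)) - al a b c (Sum.inl i'))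
    have h4 := hs k
    simp only [al, Complex.sub_im, sub_zero, abs_mul] at h3 ⊢
    have h5 : |if s = true then (1 : ℝ) else -1| = 1 := by split_ifs <;> simp
    rw [h5, one_mul, abs_of_nonneg (by linarith)] at h3
    linarith
  · by_cases hk : k = k'
    · subst hk
      have hss : s ≠ s' := fun h => hne (by rw [h])
      have h3 := Complex.abs_im_le_norm (al a b c (Sum.inr (k, s)) - al a b c (Sum.inr (k, s')))
      have h4 := hs k
      simp only [al, Complex.sub_im] at h3 ⊢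
      rcases s with _ | _ <;> rcases s' with _ | _
      · exact absurd rfl hss
      · simp only [Bool.false_eq_true, if_false, if_true] at h3 ⊢
        have h6 := neg_le_abs (-1 * Real.sqrt (c k : ℝ) - 1 * Real.sqrt (c k : ℝ))
        linarith
      · simp only [Bool.false_eq_true, if_false, if_true] at h3 ⊢
        have h6 := le_abs_self (1 * Real.sqrt (c k : ℝ) - -1 * Real.sqrt (c k : ℝ))
        linarith
      · exact absurd rfl hss
    · have h2 : (bd r₁ r₂ : ℝ) ≤ |(b k : ℝ) - b k'| := by exact_mod_cast hF.hb k k' hk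
      have h3 := Complex.abs_re_le_norm (al a b c (Sum.inr (k, s)) - al a b c (Sum.inr (k', s')))
      simp only [al, Complex.sub_re] at h3 ⊢
      linarith

theorem eval_inl {r₁ r₂ : ℕ} (a : Fin r₁ → ℤ) (b c : Fin r₂ → ℤ) (i : Fin r₁) (θ : ℂ) :
    ((fB a b c (Sum.inl i)).map (Int.castRingHom ℂ)).eval θ = θ - al a b c (Sum.inl i) := by
  have h : al a b c (Sum.inl i) = (a i : ℂ) := by
    apply Complex.ext <;> simp [al]
  rw [h]
  simp [fB]

theorem eval_inr {r₁ r₂ : ℕ} (a : Fin r₁ → ℤ) (b c : Fin r₂ → ℤ) (k : Fin r₂)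
    (hc : 0 < c k) (θ : ℂ) :
    ((fB a b c (Sum.inr k)).map (Int.castRingHom ℂ)).eval θ =
      (θ - al a b c (Sum.inr (k, true))) * (θ - al a b c (Sum.inr (k, false))) := by
  have h1 : al a b c (Sum.inr (k, true)) = (b k : ℂ) + (Real.sqrt (c k : ℝ) : ℂ) * Complex.I := by
    apply Complex.ext <;> simp [al]
  have h2 : al a b c (Sum.inr (k, false)) = (b k : ℂ) - (Real.sqrt (c k : ℝ) : ℂ) * Complex.I := by
    apply Complex.ext <;> simp [al]
  have h3 : ((Real.sqrt (c k : ℝ) : ℝ) : ℂ) ^ 2 = (c k : ℂ) := by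
    rw [← Complex.ofReal_pow, Real.sq_sqrt (by exact_mod_cast hc.le)]
    simp
  rw [h1, h2]
  have h4 : ((fB a b c (Sum.inr k)).map (Int.castRingHom ℂ)).eval θ =
      (θ - (b k : ℂ)) ^ 2 + (c k : ℂ) := by
    simp [fB]
  rw [h4]
  linear_combination (-1 : ℂ) * h3 + (Real.sqrt (c k : ℝ) : ℂ) ^ 2 * Complex.I_sq

theorem al_conj {r₁ r₂ : ℕ} (a : Fin r₁ → ℤ) (b c : Fin r₂ → ℤ) (k : Fin r₂) (s : Bool) :
    (starRingEnd ℂ) (al a b c (Sum.inr (k, s))) = al a b c (Sum.inr (k, !s)) := by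
  apply Complex.ext
  · simp [al]
  · cases s <;> simp [al]

/-- the degree of a nonconstant factor -/
theorem deg_le {r₁ r₂ : ℕ} {a : Fin r₁ → ℤ} {b c : Fin r₂ → ℤ} (hF : Far a b c)
    (g : ℤ[X]) (hg : g.Monic) (hd : 0 < g.natDegree) (hdvd : g ∣ ∏ i, fB a b c i - 1) :
    r₁ + 2 * r₂ ≤ g.natDegree := by
  classical
  have hc : ∀ k, 0 < c k := by
    intro k
    have h1 := hF.hc k
    have h2 : (0 : ℤ) < ((bd r₁ r₂ : ℕ) : ℤ) ^ 2 := by
      have : 0 < bd r₁ r₂ := by unfold bd; omega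
      positivity
    linarith
  set R := (g.map (Int.castRingHom ℂ)).roots with hR
  have hconj : ∀ (k : Fin r₂) (s : Bool), (∃ θ ∈ R, ‖θ - al a b c (Sum.inr (k, s))‖ ≤ 1) →
      ∃ θ ∈ R, ‖θ - al a b c (Sum.inr (k, !s))‖ ≤ 1 := by
    rintro k s ⟨θ, hθ, h⟩
    refine ⟨(starRingEnd ℂ) θ, IRR.conj_root g hg hθ, ?_⟩
    rw [← al_conj, ← map_sub, Complex.norm_conj]
    exact h
  have hall : ∀ j : IRR.J r₁ r₂, ∃ θ ∈ R, ‖θ - al a b c j‖ ≤ 1 := by
    rintro (i | ⟨k, s⟩)
    · obtain ⟨θ, hθ, h⟩ := IRR.near (fB a b c) g hg hd hdvd (Sum.inl i)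
      rw [eval_inl] at h
      exact ⟨θ, hθ, h⟩
    · obtain ⟨θ, hθ, h⟩ := IRR.near (fB a b c) g hg hd hdvd (Sum.inr k)
      rw [eval_inr a b c k (hc k), norm_mul] at h
      have h1 : ‖θ - al a b c (Sum.inr (k, true))‖ ≤ 1 ∨
          ‖θ - al a b c (Sum.inr (k, false))‖ ≤ 1 := by
        by_contra hno
        push Not at hno
        nlinarith [hno.1, hno.2]
      have h2 : ∃ s', ∃ θ ∈ R, ‖θ - al a b c (Sum.inr (k, s'))‖ ≤ 1 := by
        rcases h1 with h1 | h1
        · exact ⟨true, θ, hθ, h1⟩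
        · exact ⟨false, θ, hθ, h1⟩
      obtain ⟨s', hs'⟩ := h2
      rcases Bool.eq_or_eq_not s s' with rfl | rfl
      · exact hs'
      · exact hconj k s' hs'
  choose ρ hρ hρ1 using hall
  have hinj : Function.Injective ρ := by
    intro j j' h
    by_contra hne
    have h1 := far_al hF j j' hne
    have h2 : al a b c j - al a b c j' = (ρ j' - al a b c j') - (ρ j - al a b c j) := by
      rw [h]; ring
    have h3 : ‖al a b c j - al a b c j'‖ ≤ 2 := by
      calc ‖al a b c j - al a b c j'‖ ≤ ‖ρ j' - al a b c j'‖ + ‖ρ j - al a b c j‖ := by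
            rw [h2]; exact norm_sub_le _ _
        _ ≤ 2 := by linarith [hρ1 j, hρ1 j']
    linarith
  have hcard : Fintype.card (IRR.J r₁ r₂) ≤ R.toFinset.card := by
    rw [← Finset.card_univ, ← Finset.card_image_of_injective Finset.univ hinj]
    apply Finset.card_le_card
    intro x hx
    obtain ⟨j, -, rfl⟩ := Finset.mem_image.mp hx
    exact Multiset.mem_toFinset.mpr (hρ j)
  have h1 : R.toFinset.card ≤ R.card := Multiset.toFinset_card_le R
  have h2 : R.card = g.natDegree := by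
    rw [hR, ← (IsAlgClosed.splits (g.map (Int.castRingHom ℂ))).natDegree_eq_card_roots,
      hg.natDegree_map]
  have h3 : Fintype.card (IRR.J r₁ r₂) = r₁ + 2 * r₂ := by
    simp [IRR.J, mul_comm]
  omega

end Base

open Base in
theorem far_irr {r₁ r₂ : ℕ} (hr : 1 ≤ r₁ + r₂) {a : Fin r₁ → ℤ} {b c : Fin r₂ → ℤ}
    (hF : Far a b c) : Irreducible (∏ i, fB a b c i - 1 : ℤ[X]) ∧
      (∏ i, fB a b c i - 1 : ℤ[X]).Monic ∧
      (∏ i, fB a b c i - 1 : ℤ[X]).natDegree = r₁ + 2 * r₂ := by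
  classical
  have hmon0 : (∏ i, fB a b c i).Monic := monic_prod_of_monic _ _ (fun i _ => fB_monic a b c i)
  have hdeg0 : (∏ i, fB a b c i).natDegree = r₁ + 2 * r₂ := by
    rw [natDegree_prod_of_monic _ _ (fun i _ => fB_monic a b c i), Fintype.sum_sum_type]
    simp [fB_natDegree_inl, fB_natDegree_inr, mul_comm]
  have hmon : (∏ i, fB a b c i - 1).Monic := by
    apply hmon0.sub_of_left
    rw [degree_one, degree_eq_natDegree hmon0.ne_zero, hdeg0]
    exact_mod_cast (by omega : 0 < r₁ + 2 * r₂)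
  have hdeg : (∏ i, fB a b c i - 1).natDegree = r₁ + 2 * r₂ := by
    rw [← hdeg0]
    have h1 : (1 : ℤ[X]) = C 1 := by simp
    rw [h1, natDegree_sub_C]
  refine ⟨?_, hmon, hdeg⟩
  rw [hmon.irreducible_iff_natDegree]
  refine ⟨?_, ?_⟩
  · intro h
    rw [h, natDegree_one] at hdeg
    omega
  · intro f g hf hg hfg
    by_contra hno
    push Not at hno
    have h1 := deg_le hF f hf (Nat.pos_of_ne_zero hno.1) ⟨g, hfg.symm⟩
    have h2 := deg_le hF g hg (Nat.pos_of_ne_zero hno.2)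
      ⟨f, by rw [mul_comm]; exact hfg.symm⟩
    have h3 : f.natDegree + g.natDegree = r₁ + 2 * r₂ := by
      rw [← hf.natDegree_mul hg, hfg, hdeg]
    omega

end

end Pool.Agent.N924.LP
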