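import Pool.Agent.N924.LP.Sys
import Pool.Agent.H33R4.Final
import Pool.Agent.H33R4.RANKI

set_option autoImplicit false

/-! # Families with several parameters: one class modulo `p ^ 2` -/

namespace Pool.Agent.N924.LP

open Polynomial NumberField Pool.Agent.H33R4
open Pool.Agent.H637R2.Leo (Leopoldt)

noncomputable section

/-- the specialisation of a polynomial with coefficients in `ℤ[z_1, …, z_s]` -/
def sp {s : ℕ} {B : Type} [CommRing B] (z : Fin s → B) (P : (MvPolynomial (Fin s) ℤ)[X]) : B[X] :=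
  P.map (MvPolynomial.eval₂Hom (Int.castRingHom B) z)

theorem sp_map {s : ℕ} {A B : Type} [CommRing A] [CommRing B] (φ : A →+* B) (z : Fin s → A)
    (P : (MvPolynomial (Fin s) ℤ)[X]) : (sp z P).map φ = sp (fun i => φ (z i)) P := by
  unfold sp
  rw [Polynomial.map_map]
  congr 1
  apply MvPolynomial.ringHom_ext
  · intro a
    simp
  · intro i
    simp

theorem sp_monic {s : ℕ} {B : Type} [CommRing B] (z : Fin s → B)
    {P : (MvPolynomial (Fin s) ℤ)[X]} (h : P.Monic) : (sp z P).Monic := h.map _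

variable {ι : Type} [Fintype ι] {s : ℕ}

/-- the family -/
def fm (Φ : ι → (MvPolynomial (Fin s) ℤ)[X]) : (MvPolynomial (Fin s) ℤ)[X] := ∏ i, Φ i - 1

theorem fm_monic {Φ : ι → (MvPolynomial (Fin s) ℤ)[X]} (hm : ∀ i, (Φ i).Monic)
    (hd : ∀ i, 0 < (Φ i).natDegree) (i₀ : ι) : (fm Φ).Monic := by
  have h1 : (∏ i, Φ i).Monic := monic_prod_of_monic _ _ fun i _ => hm i
  unfold fm
  apply h1.sub_of_left
  rw [degree_one, ← natDegree_pos_iff_degree_pos,
    natDegree_prod_of_monic _ _ fun i _ => hm i]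
  exact Finset.sum_pos' (fun i _ => Nat.zero_le _) ⟨i₀, Finset.mem_univ _, hd i₀⟩

theorem sp_fm {B : Type} [CommRing B] (z : Fin s → B) (Φ : ι → (MvPolynomial (Fin s) ℤ)[X]) :
    sp z (fm Φ) = ∏ i, sp z (Φ i) - 1 := by
  unfold sp fm
  rw [Polynomial.map_sub, Polynomial.map_prod, Polynomial.map_one]

/-- the line through `ρ` in the direction `j₀` -/
def line (ρ : Fin s → ℤ) (j₀ : Fin s) : Fin s → ℤ[X] := fun i => if i = j₀ then X else C (ρ i)

theorem spec_line {A : Type} [CommRing A] (x : A) (ρ : Fin s → ℤ) (j₀ : Fin s)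
    (P : (MvPolynomial (Fin s) ℤ)[X]) :
    spec x (sp (line ρ j₀) P) = sp (fun i => if i = j₀ then x else ((ρ i : ℤ) : A)) P := by
  unfold spec
  rw [sp_map]
  congr 1
  funext i
  unfold line
  split_ifs
  · simp
  · simp

/-- the units are independent modulo constants -/
def Hind (f : ℤ[X][X]) (r : ℕ) (U : Fin r → ℤ[X][X]) : Prop :=
  ∀ u : Fin r → (AdjoinRoot f)ˣ, (∀ i, AdjoinRoot.mk f (U i) = u i) → ∀ c : Fin r → ℤ,
    IsIntegral ℤ ((∏ i, u i ^ c i : (AdjoinRoot f)ˣ) : AdjoinRoot f) → c = 0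

theorem sep_of_irr (f : ℤ[X][X]) (hf : f.Monic) (t : ℤ) (h : Irreducible (spec t f)) :
    (f.map (algebraMap ℤ[X] (FractionRing ℤ[X]))).Separable := by
  have h1 : Irreducible f := hf.irreducible_of_irreducible_map _ _ h
  have h2 : Irreducible (f.map (algebraMap ℤ[X] (FractionRing ℤ[X]))) :=
    (hf.irreducible_iff_irreducible_map_fraction_map).1 h1
  exact h2.separable

/-- independence of the logarithms on the line -/
theorem line_indep (p : ℕ) [Fact p.Prime] (f : ℤ[X][X]) (hf : f.Monic) (t₁ : ℤ)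
    (hirr : Irreducible (spec t₁ f)) (r : ℕ) (U W : Fin r → ℤ[X][X])
    (hUW : ∀ i, f ∣ U i * W i - 1) (hind : Hind f r U) (M : ℕ) (hM : 0 < M)
    (G : (PowerSeries ℤ_[p])[X]) (hG : G = spec (par p t₁) f) (L : Fin r → AdjoinRoot G)
    (hL : ∀ i, IsLog p ((AdjoinRoot.mk G (spec (par p t₁) (U i))) ^ M) (L i))
    (h : Fin r → PowerSeries ℤ_[p]) (hh : ∑ i, AdjoinRoot.of G (h i) * L i = 0) : h = 0 := by
  subst hG
  have hsep := sep_of_irr f hf t₁ hirr
  obtain ⟨e, he, ϑ, hinj, hsplit⟩ := puis eul_proof f hf hsep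
  have hu : ∀ i, AdjoinRoot.mk f (U i) * AdjoinRoot.mk f (W i) = 1 := by
    intro i
    rw [← map_mul, ← map_one (AdjoinRoot.mk f)]
    exact AdjoinRoot.mk_eq_mk.mpr (hUW i)
  let u : Fin r → (AdjoinRoot f)ˣ := fun i =>
    ⟨AdjoinRoot.mk f (U i), AdjoinRoot.mk f (W i), hu i, by rw [mul_comm]; exact hu i⟩
  have hrank := rankI_proof f hf r u (hind u fun i => rfl) e he _ ϑ hinj hsplit U fun i => rfl
  exact form lemA_proof rel_proof eul_proof (dLog_of logB_proof good2_proof derL_proof) good1_proof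
    p _ r f hf U W hUW ℂ e he ϑ hinj hsplit hrank (par p t₁) (dR_par p t₁) M hM L hL h hh

/-- linear independence can be checked after a surjective homomorphism -/
theorem indep_lift {R R' : Type} [CommRing R] [IsDomain R] [CommRing R'] [IsDomain R']
    (σ : R →+* R') (hσ : Function.Surjective σ) (F : R[X]) (hF : F.Monic) (r : ℕ)
    (L : Fin r → AdjoinRoot F)
    (hind : ∀ h : Fin r → R', ∑ i, AdjoinRoot.of (F.map σ) (h i) *
      AdjoinRoot.map σ F (F.map σ) dvd_rfl (L i) = 0 → h = 0) :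
    ∀ h : Fin r → R, ∑ i, AdjoinRoot.of F (h i) * L i = 0 → h = 0 := by
  classical
  obtain ⟨P, hP⟩ : ∃ P : Fin r → R[X], P = fun i => AdjoinRoot.modByMonicHom hF (L i) := ⟨_, rfl⟩
  have hPL : ∀ i, AdjoinRoot.mk F (P i) = L i := by
    intro i
    rw [hP]
    exact AdjoinRoot.mk_leftInverse hF (L i)
  have hPd : ∀ i j, F.natDegree ≤ j → (P i).coeff j = 0 := by
    intro i j hj
    apply coeff_eq_zero_of_degree_lt
    obtain ⟨Q, hQ⟩ := AdjoinRoot.mk_surjective (L i)
    rw [hP]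
    simp only
    rw [← hQ, AdjoinRoot.modByMonicHom_mk]
    refine (degree_modByMonic_lt Q hF).trans_le ?_
    rw [degree_eq_natDegree hF.ne_zero]
    exact_mod_cast hj
  have hmk : ∀ i, AdjoinRoot.map σ F (F.map σ) dvd_rfl (L i) =
      AdjoinRoot.mk (F.map σ) ((P i).map σ) := by
    intro i
    rw [← hPL i, adj_map_mk]
  obtain ⟨h', G', hh', hG'⟩ := DUAL.exists_dual (n := F.natDegree)
    (fun i (j : Fin F.natDegree) => σ ((P i).coeff j)) (by
      intro c hc
      apply hind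
      have h1 : ∑ i, C (c i) * (P i).map σ = 0 := by
        ext j
        rw [finsetSum_coeff, coeff_zero]
        simp only [coeff_C_mul, coeff_map]
        by_cases hj : j < F.natDegree
        · exact hc ⟨j, hj⟩
        · exact Finset.sum_eq_zero fun i _ => by rw [hPd i j (by omega), map_zero, mul_zero]
      have h2 := congrArg (AdjoinRoot.mk (F.map σ)) h1
      rw [map_sum, map_zero] at h2
      simp only [map_mul, AdjoinRoot.mk_C, ← hmk] at h2
      exact h2)
  choose G hG using fun j k => hσ (G' j k)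
  let Q : Matrix (Fin r) (Fin r) R := fun i k => ∑ j : Fin F.natDegree, (P i).coeff j * G j k
  have hQ : σ.mapMatrix Q = h' • (1 : Matrix (Fin r) (Fin r) R') := by
    ext i k
    rw [RingHom.mapMatrix_apply, Matrix.map_apply, Matrix.smul_apply, Matrix.one_apply]
    simp only [Q]
    rw [map_sum]
    simp only [map_mul, hG]
    rw [hG' i k]
    split_ifs <;> simp
  have hdet : Q.det ≠ 0 := by
    intro h0
    have h1 := congrArg σ h0
    rw [RingHom.map_det, hQ, map_zero, Matrix.det_smul, Matrix.det_one, mul_one] at h1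
    exact pow_ne_zero _ hh' h1
  intro c hc
  have hmod : ∑ i, C (c i) * P i = 0 := by
    have h1 : AdjoinRoot.mk F (∑ i, C (c i) * P i) = 0 := by
      rw [map_sum]
      simp only [map_mul, AdjoinRoot.mk_C, hPL]
      exact hc
    rw [AdjoinRoot.mk_eq_zero] at h1
    by_contra hne
    have h3 : (∑ i, C (c i) * P i).degree < F.degree := by
      rw [degree_eq_natDegree hF.ne_zero, degree_lt_iff_coeff_zero]
      intro j hj
      rw [finsetSum_coeff]
      exact Finset.sum_eq_zero fun i _ => by rw [coeff_C_mul, hPd i j hj, mul_zero]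
    exact hF.not_dvd_of_degree_lt hne h3 h1
  have hco : ∀ j, ∑ i, c i * (P i).coeff j = 0 := by
    intro j
    have h4 := congrArg (fun Q : R[X] => Q.coeff j) hmod
    simp only [finsetSum_coeff, coeff_C_mul, coeff_zero] at h4
    exact h4
  apply Matrix.eq_zero_of_vecMul_eq_zero hdet
  funext k
  rw [Matrix.vecMul, dotProduct, Pi.zero_apply]
  simp only [Q, Finset.mul_sum]
  rw [Finset.sum_comm]
  refine Finset.sum_eq_zero fun j _ => ?_
  have h5 : ∀ i, c i * ((P i).coeff j * G j k) = (c i * (P i).coeff j) * G j k := fun i => by ring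
  simp only [h5]
  rw [← Finset.sum_mul, hco, zero_mul]

/-- a common exponent -/
theorem exists_exp {p : ℕ} [hp : Fact p.Prime] (S : Sys p s) (Φ : ι → (MvPolynomial (Fin s) ℤ)[X])
    (hm : (fm Φ).Monic) (ρ : Fin s → ℤ) :
    ∃ M : ℕ, 0 < M ∧ ∀ i, (p : AdjoinRoot (sp (fun i => (ρ i : S.R) + p * S.x i) (fm Φ))) ∣
      (AdjoinRoot.mk (sp (fun i => (ρ i : S.R) + p * S.x i) (fm Φ))
        (sp (fun i => (ρ i : S.R) + p * S.x i) (Φ i))) ^ M - 1 := by
  classical
  set Z : Fin s → S.R := fun i => (ρ i : S.R) + p * S.x i with hZ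
  set B := AdjoinRoot (sp Z (fm Φ)) with hB
  set I : Ideal B := Ideal.span {(p : B)} with hI
  let q : B →+* B ⧸ I := Ideal.Quotient.mk I
  have hqp : q (p : B) = 0 := Ideal.Quotient.eq_zero_iff_mem.2 (Ideal.mem_span_singleton_self _)
  have hqp' : ((p : ℕ) : B ⧸ I) = 0 := by rw [← map_natCast q p, hqp]
  have hp0 : ∀ a ∈ Ideal.span {(p : ℤ)}, (Int.castRingHom (B ⧸ I)) a = 0 := by
    intro a ha
    rw [Ideal.mem_span_singleton] at ha
    obtain ⟨b, rfl⟩ := ha
    rw [map_mul]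
    have : (Int.castRingHom (B ⧸ I)) (p : ℤ) = 0 := by
      simp only [map_natCast]
      exact hqp'
    rw [this, zero_mul]
  let c : ZMod p →+* B ⧸ I := (Ideal.Quotient.lift (Ideal.span {(p : ℤ)})
    (Int.castRingHom (B ⧸ I)) hp0).comp (Int.quotientSpanNatEquivZMod p).symm.toRingHom
  let z0 : Fin s → ZMod p := fun i => (ρ i : ZMod p)
  have hcz : (fun i => c (z0 i)) = fun i => ((ρ i : ℤ) : B ⧸ I) := by
    funext i
    exact map_intCast c _
  have hqz : (fun i => q (AdjoinRoot.of _ (Z i))) = fun i => ((ρ i : ℤ) : B ⧸ I) := by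
    funext i
    have hZi : Z i = (ρ i : S.R) + p * S.x i := rfl
    rw [hZi]
    simp only [map_add, map_mul, map_intCast, map_natCast]
    rw [hqp', zero_mul, add_zero]
  have hq : ∀ P : (MvPolynomial (Fin s) ℤ)[X], q (AdjoinRoot.mk _ (sp Z P)) =
      (sp (fun i => ((ρ i : ℤ) : B ⧸ I)) P).eval (q (AdjoinRoot.root _)) := by
    intro P
    have h1 : AdjoinRoot.mk (sp Z (fm Φ)) (sp Z P) =
        ((sp Z P).map (AdjoinRoot.of (sp Z (fm Φ)))).eval (AdjoinRoot.root _) := by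
      rw [eval_map]
      exact (AdjoinRoot.aeval_eq _).symm
    rw [h1, ← Polynomial.eval₂_at_apply, ← Polynomial.eval_map, Polynomial.map_map, sp_map]
    congr 2
  set f0 : (ZMod p)[X] := sp z0 (fm Φ) with hf0
  have hf0m : f0.Monic := sp_monic _ hm
  have hlift : f0.eval₂ c (q (AdjoinRoot.root _)) = 0 := by
    rw [← Polynomial.eval_map, hf0, sp_map, hcz, ← hq, AdjoinRoot.mk_self, map_zero]
  let ψ : AdjoinRoot f0 →+* B ⧸ I := AdjoinRoot.lift c _ hlift
  have hψ : ∀ P : (MvPolynomial (Fin s) ℤ)[X], ψ (AdjoinRoot.mk f0 (sp z0 P)) =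
      q (AdjoinRoot.mk _ (sp Z P)) := by
    intro P
    rw [hq]
    show AdjoinRoot.lift c _ hlift _ = _
    rw [AdjoinRoot.lift_mk, ← Polynomial.eval_map, sp_map, hcz]
  have _ : Module.Finite (ZMod p) (AdjoinRoot f0) := hf0m.finite_adjoinRoot
  have _ : Finite (AdjoinRoot f0) := Module.finite_of_finite (ZMod p)
  have _ : Finite (AdjoinRoot f0)ˣ := inferInstance
  refine ⟨Nat.card (AdjoinRoot f0)ˣ, Nat.card_pos, fun i => ?_⟩
  have hmul : AdjoinRoot.mk f0 (sp z0 (Φ i)) *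
      AdjoinRoot.mk f0 (∏ l ∈ Finset.univ.erase i, sp z0 (Φ l)) = 1 := by
    rw [← map_mul, Finset.mul_prod_erase Finset.univ (fun l => sp z0 (Φ l)) (Finset.mem_univ i)]
    have h2 : (∏ l, sp z0 (Φ l)) = f0 + 1 := by rw [hf0, sp_fm]; ring
    rw [h2, map_add, AdjoinRoot.mk_self, zero_add, map_one]
  let U : (AdjoinRoot f0)ˣ := ⟨_, _, hmul, by rw [mul_comm]; exact hmul⟩
  have hU : U ^ Nat.card (AdjoinRoot f0)ˣ = 1 := pow_card_eq_one'
  have hU2 : (AdjoinRoot.mk f0 (sp z0 (Φ i))) ^ Nat.card (AdjoinRoot f0)ˣ = 1 := by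
    have := congrArg Units.val hU
    rw [Units.val_pow_eq_pow_val, Units.val_one] at this
    exact this
  have h4 := congrArg ψ hU2
  rw [map_pow, hψ, map_one, ← map_pow, ← sub_eq_zero, ← map_one q, ← map_sub] at h4
  exact Ideal.mem_span_singleton.1 (Ideal.Quotient.eq_zero_iff_mem.1 h4)

/-- a field defined by `g` of unit rank `r` for which Leopoldt's conjecture fails -/
def Bd (p : ℕ) [Fact p.Prime] (r : ℕ) (g : ℤ[X]) : Prop :=
  ∃ (K : Type) (_ : Field K) (_ : NumberField K) (θ : K), aeval θ g = 0 ∧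
    Module.finrank ℚ K = g.natDegree ∧ IntermediateField.adjoin ℚ {θ} = ⊤ ∧ Units.rank K = r ∧
    ¬ Leopoldt K p

/-- **One class.** -/
theorem cls {p : ℕ} [hp : Fact p.Prime] (S : Sys p s) (Φ : ι → (MvPolynomial (Fin s) ℤ)[X])
    (hm : ∀ i, (Φ i).Monic) (hd : ∀ i, 0 < (Φ i).natDegree) (i₀ : ι) (r : ℕ)
    (eq : Fin r → ι) (ρ : Fin s → ℤ) (j₀ : Fin s) (hirr : Irreducible (sp ρ (fm Φ)))
    (hind : Hind (sp (line ρ j₀) (fm Φ)) r (fun k => sp (line ρ j₀) (Φ (eq k)))) :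
    ∃ h : S.R, h ≠ 0 ∧ ∀ z y : Fin s → ℤ, (∀ i, z i = ρ i + (p : ℤ) ^ 2 * y i) →
      Bd p r (sp z (fm Φ)) → S.ev (fun i => ((y i : ℤ) : ℤ_[p])) h = 0 := by
  classical
  have hfm := fm_monic hm hd i₀
  set Z : Fin s → S.R := fun i => (ρ i : S.R) + p * S.x i with hZ
  have hF : (sp Z (fm Φ)).Monic := sp_monic _ hfm
  have hgoodB : PGood p (AdjoinRoot (sp Z (fm Φ))) := good2_proof p _ _ hF S.good
  obtain ⟨M, hM, hMu⟩ := exists_exp S Φ hfm ρ
  choose L0 hL0 using fun i => logEx_proof p hp.out _ hgoodB _ (hMu i)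
  set L : Fin r → AdjoinRoot (sp Z (fm Φ)) := fun k => L0 (eq k) with hLdef
  have hL : ∀ k, IsLog p ((AdjoinRoot.mk (sp Z (fm Φ)) (sp Z (Φ (eq k)))) ^ M) (L k) :=
    fun k => hL0 _
  obtain ⟨σ, hσ1, hσ2, hσ3⟩ := S.slice j₀
  -- on the line
  have hσZ : (fun i => σ (Z i)) =
      fun i => if i = j₀ then par p (ρ j₀) else ((ρ i : ℤ) : PowerSeries ℤ_[p]) := by
    funext i
    rw [hZ]
    simp only [map_add, map_mul, map_intCast, map_natCast]
    split_ifs with hi
    · subst hi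
      rw [hσ2]
      rfl
    · rw [hσ3 i hi, mul_zero, add_zero]
  have hmapσ : ∀ P : (MvPolynomial (Fin s) ℤ)[X],
      (sp Z P).map σ = spec (par p (ρ j₀)) (sp (line ρ j₀) P) := by
    intro P
    rw [sp_map, spec_line, hσZ]
  have hUW : ∀ k, sp (line ρ j₀) (fm Φ) ∣ sp (line ρ j₀) (Φ (eq k)) *
      (∏ l ∈ Finset.univ.erase (eq k), sp (line ρ j₀) (Φ l)) - 1 := by
    intro k
    rw [Finset.mul_prod_erase Finset.univ (fun l => sp (line ρ j₀) (Φ l)) (Finset.mem_univ (eq k)),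
      sp_fm]
  have hline : ∀ h : Fin r → PowerSeries ℤ_[p],
      ∑ i, AdjoinRoot.of ((sp Z (fm Φ)).map σ) (h i) *
      AdjoinRoot.map σ (sp Z (fm Φ)) ((sp Z (fm Φ)).map σ) dvd_rfl (L i) = 0 → h = 0 := by
    intro h hh
    refine line_indep p (sp (line ρ j₀) (fm Φ)) (sp_monic _ hfm) (ρ j₀) ?_ r _ _ hUW hind M hM
      ((sp Z (fm Φ)).map σ) (hmapσ _) _ ?_ h hh
    · rw [spec_line]
      have e1 : (fun i => if i = j₀ then ρ j₀ else (Int.cast (ρ i) : ℤ)) = ρ := by
        funext i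
        split_ifs with hi
        · rw [hi]
        · exact Int.cast_id
      rw [e1]
      exact hirr
    · intro k
      have h3 := (logB_proof p hp.out _).2.2.2.1 _
        (AdjoinRoot.map σ (sp Z (fm Φ)) ((sp Z (fm Φ)).map σ) dvd_rfl) _ _ (hL k)
      rw [map_pow, adj_map_mk, hmapσ (Φ (eq k))] at h3
      exact h3
  obtain ⟨h, hh0, hh⟩ := dual_proof S.R (sp Z (fm Φ)) hF r L
    (indep_lift σ hσ1 (sp Z (fm Φ)) hF r L hline)
  refine ⟨h, hh0, ?_⟩
  rintro z y hzy ⟨K, _, _, θ, hθ, hdeg, hgen, hKr, hLeo⟩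
  set φ := S.ev (fun i => ((y i : ℤ) : ℤ_[p])) with hφ
  have hφZ : (fun i => φ (Z i)) = fun i => ((z i : ℤ) : ℤ_[p]) := by
    funext i
    rw [hZ]
    simp only [map_add, map_mul, map_intCast, map_natCast]
    rw [hφ, S.ev_x, hzy i]
    push_cast
    ring
  have hmapφ : ∀ P : (MvPolynomial (Fin s) ℤ)[X],
      (sp Z P).map φ = (sp z P).map (Int.castRingHom ℤ_[p]) := by
    intro P
    rw [sp_map, sp_map, hφZ]
    rfl
  have hUW' : ∀ k, sp z (fm Φ) ∣ sp z (Φ (eq k)) *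
      (∏ l ∈ Finset.univ.erase (eq k), sp z (Φ l)) - 1 := by
    intro k
    rw [Finset.mul_prod_erase Finset.univ (fun l => sp z (Φ l)) (Finset.mem_univ (eq k)), sp_fm]
  obtain ⟨wv, hw0, hw⟩ := partB' (partB_of logB_proof good1_proof good2_proof) p (sp z (fm Φ))
    (sp_monic _ hfm) r (fun k => sp z (Φ (eq k))) _ hUW' K θ hθ hdeg hgen hKr hLeo M hM
    ((sp Z (fm Φ)).map φ) (hmapφ _)
    (fun i => AdjoinRoot.map φ _ _ dvd_rfl (L i)) (fun i => by
      have h3 := (logB_proof p hp.out _).2.2.2.1 _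
        (AdjoinRoot.map φ (sp Z (fm Φ)) ((sp Z (fm Φ)).map φ) dvd_rfl) _ _ (hL i)
      rw [map_pow, adj_map_mk, hmapφ (Φ (eq i))] at h3
      exact h3)
  obtain ⟨i, hi⟩ := Function.ne_iff.1 hw0
  have h5 := hh ℤ_[p] φ wv hw i
  exact (mul_eq_zero.1 h5).resolve_right hi

end

end Pool.Agent.N924.LP
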