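import Pool.Agent.N924.LP.Sys

set_option autoImplicit false

/-! # Zero sets of power series are small -/

namespace Pool.Agent.N924.LP

open MeasureTheory Filter Topology

noncomputable section

variable {p : ℕ} [hp : Fact p.Prime] {s : ℕ}

/-- reduction modulo `p ^ k` -/
def rd (k : ℕ) (y : Fin s → ℤ_[p]) : Fin s → ZMod (p ^ k) := fun i => PadicInt.toZModPow k (y i)

theorem rd_fib (k : ℕ) (c : Fin s → ZMod (p ^ k)) :
    MeasurableSet (rd (p := p) k ⁻¹' {c}) ∧
      (Measure.pi fun _ : Fin s => haarZ p) (rd (p := p) k ⁻¹' {c}) =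
        (((p ^ k : ℕ) : ENNReal)⁻¹) ^ s := by
  have h1 : rd (p := p) k ⁻¹' {c} =
      Set.pi Set.univ (fun i => {x : ℤ_[p] | PadicInt.toZModPow k x = c i}) := by
    ext y
    simp only [Set.mem_preimage, Set.mem_singleton_iff, Set.mem_pi, Set.mem_univ, true_imp_iff]
    constructor
    · rintro rfl i
      rfl
    · intro h
      funext i
      exact h i
  rw [h1]
  refine ⟨MeasurableSet.univ_pi fun i => (closed_res k (c i)).measurableSet, ?_⟩
  rw [Measure.pi_pi, Finset.prod_congr rfl fun i _ => haar_fib k (c i), Finset.prod_const,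
    Finset.card_univ, Fintype.card_fin]

/-- **The zero set of a power series** is contained in few classes modulo a power of `p`. -/
theorem content (S : Sys p s) (h : S.R) (hh : h ≠ 0) (ε : ℝ) (hε : 0 < ε) :
    ∃ (k : ℕ) (T : Finset (Fin s → ZMod (p ^ k))), (T.card : ℝ) ≤ ε * ((p ^ k : ℕ) : ℝ) ^ s ∧
      ∀ y, S.ev y h = 0 → rd k y ∈ T := by
  classical
  let μ := Measure.pi fun _ : Fin s => haarZ p
  have hne : ∀ k, NeZero (p ^ k) := fun k => ⟨pow_ne_zero _ hp.out.ne_zero⟩
  let T : (k : ℕ) → Finset (Fin s → ZMod (p ^ k)) := fun k =>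
    Finset.univ.filter fun c => ∃ y, rd k y = c ∧ (p : ℤ_[p]) ^ k ∣ S.ev y h
  let Z : ℕ → Set (Fin s → ℤ_[p]) := fun k => {y | (p : ℤ_[p]) ^ k ∣ S.ev y h}
  have hZT : ∀ k, Z k = rd k ⁻¹' (T k : Set (Fin s → ZMod (p ^ k))) := by
    intro k
    ext y
    simp only [Z, T, Set.mem_ofPred_eq, Set.mem_preimage, Finset.coe_filter, Finset.mem_univ,
      true_and]
    constructor
    · intro hy
      exact ⟨y, rfl, hy⟩
    · rintro ⟨y', h1, h2⟩
      have h3 := S.cong k y y' (fun i => (res_iff _ _ k).1 (congrFun h1 i).symm) h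
      have h4 := dvd_add h3 h2
      rwa [sub_add_cancel] at h4
  have hmZ : ∀ k, MeasurableSet (Z k) := by
    intro k
    have e1 : Z k = {y | ‖S.ev y h‖ ≤ (p : ℝ) ^ (-(k : ℤ))} := by
      ext y
      simp only [Z, Set.mem_ofPred_eq]
      rw [norm_le_iff]
    rw [e1]
    exact (isClosed_le (S.continuous h).norm continuous_const).measurableSet
  have hμ : ∀ k, μ (Z k) = ((T k).card : ENNReal) * (((p ^ k : ℕ) : ENNReal)⁻¹) ^ s := by
    intro k
    rw [hZT k, ← sum_measure_preimage_singleton (T k) fun c _ => (rd_fib k c).1]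
    rw [Finset.sum_congr rfl fun c _ => (rd_fib k c).2, Finset.sum_const, nsmul_eq_mul]
  have hanti : Antitone Z := by
    intro k k' hkk y hy
    exact (pow_dvd_pow _ hkk).trans hy
  have hInter : ⋂ k, Z k = {y | S.ev y h = 0} := by
    ext y
    rw [Set.mem_iInter, Set.mem_ofPred_eq]
    constructor
    · intro hy
      exact (Pool.Agent.H33R4.good1_proof.1 p).sep _ hy
    · intro hy k
      change (p : ℤ_[p]) ^ k ∣ S.ev y h
      rw [hy]
      exact dvd_zero _
  have hlim := tendsto_measure_iInter_atTop (μ := μ) (fun k => (hmZ k).nullMeasurableSet) hanti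
    ⟨0, measure_ne_top _ _⟩
  rw [hInter, show μ {y | S.ev y h = 0} = 0 from S.null h hh] at hlim
  have hev := hlim.eventually (gt_mem_nhds (ENNReal.ofReal_pos.2 hε))
  obtain ⟨k, hk⟩ := hev.exists
  refine ⟨k, T k, ?_, ?_⟩
  · have h1 : μ (Z k) < ENNReal.ofReal ε := hk
    rw [hμ k] at h1
    have h2 := (ENNReal.toReal_lt_toReal (ne_top_of_lt h1) ENNReal.ofReal_ne_top).2 h1
    rw [ENNReal.toReal_ofReal hε.le, ENNReal.toReal_mul, ENNReal.toReal_natCast,
      ENNReal.toReal_pow, ENNReal.toReal_inv, ENNReal.toReal_natCast] at h2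
    have hpos : (0 : ℝ) < ((p ^ k : ℕ) : ℝ) ^ s := by
      have : 0 < p ^ k := pow_pos hp.out.pos _
      positivity
    rw [inv_pow, ← div_eq_mul_inv, div_lt_iff₀ hpos] at h2
    exact h2.le
  · intro y hy
    have h1 : y ∈ Z k := by
      change (p : ℤ_[p]) ^ k ∣ S.ev y h
      rw [hy]
      exact dvd_zero _
    rw [hZT k] at h1
    exact h1

end

end Pool.Agent.N924.LP
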