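import Pool.Agent.N924.LP.Cls
import Pool.Agent.N924.LP.Base

set_option autoImplicit false

/-! # Units of the family on a line are independent modulo constants -/

namespace Pool.Agent.N924.LP

open Polynomial Pool.Agent.H33R4

noncomputable section

/-- the parameters -/
abbrev Idx (r₁ r₂ : ℕ) : Type := Fin r₁ ⊕ (Fin r₂ ⊕ Fin r₂)

variable {r₁ r₂ s : ℕ}

/-- the factors with the parameters `z (e i)` -/
def Ph (e : Idx r₁ r₂ → Fin s) : Fin r₁ ⊕ Fin r₂ → (MvPolynomial (Fin s) ℤ)[X] :=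
  fB (fun i => MvPolynomial.X (e (Sum.inl i))) (fun k => MvPolynomial.X (e (Sum.inr (Sum.inl k))))
    (fun k => MvPolynomial.X (e (Sum.inr (Sum.inr k))))

/-- the factors at a point -/
def fz {B : Type} [CommRing B] (e : Idx r₁ r₂ → Fin s) (z : Fin s → B) : Fin r₁ ⊕ Fin r₂ → B[X] :=
  fB (fun i => z (e (Sum.inl i))) (fun k => z (e (Sum.inr (Sum.inl k))))
    (fun k => z (e (Sum.inr (Sum.inr k))))

theorem sp_Ph {B : Type} [CommRing B] (e : Idx r₁ r₂ → Fin s) (z : Fin s → B)
    (i : Fin r₁ ⊕ Fin r₂) : sp z (Ph e i) = fz e z i := by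
  unfold sp Ph fz
  rw [fB_map]
  simp

/-- the parameter which varies -/
def jj : Fin r₁ ⊕ Fin r₂ → Idx r₁ r₂
  | Sum.inl i => Sum.inl i
  | Sum.inr k => Sum.inr (Sum.inl k)

theorem fz_eq {B : Type} [CommRing B] (e : Idx r₁ r₂ → Fin s) (he : Function.Injective e)
    (i₀ i : Fin r₁ ⊕ Fin r₂) (hi : i ≠ i₀) (z z' : Fin s → B)
    (h : ∀ j, j ≠ e (jj i₀) → z j = z' j) : fz e z i = fz e z' i := by
  rcases i with i | k
  · have h1 : z (e (Sum.inl i)) = z' (e (Sum.inl i)) := by
      apply h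
      intro h2
      have h3 := he h2
      rcases i₀ with i₀ | k₀
      · simp only [jj, Sum.inl.injEq] at h3
        exact hi (by rw [h3])
      · simp [jj] at h3
    change X - C (z (e (Sum.inl i))) = X - C (z' (e (Sum.inl i)))
    rw [h1]
  · have h1 : z (e (Sum.inr (Sum.inl k))) = z' (e (Sum.inr (Sum.inl k))) := by
      apply h
      intro h2
      have h3 := he h2
      rcases i₀ with i₀ | k₀
      · simp [jj] at h3
      · simp only [jj, Sum.inr.injEq, Sum.inl.injEq] at h3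
        exact hi (by rw [h3])
    have h2 : z (e (Sum.inr (Sum.inr k))) = z' (e (Sum.inr (Sum.inr k))) := by
      apply h
      intro h2
      have h3 := he h2
      rcases i₀ with i₀ | k₀
      · simp [jj] at h3
      · simp [jj] at h3
    change (X - C (z (e (Sum.inr (Sum.inl k))))) ^ 2 + C (z (e (Sum.inr (Sum.inr k)))) =
      (X - C (z' (e (Sum.inr (Sum.inl k))))) ^ 2 + C (z' (e (Sum.inr (Sum.inr k))))
    rw [h1, h2]

/-- different factors have no common zeros -/
theorem no_common {a : Fin r₁ → ℤ} {b c : Fin r₂ → ℤ} (hF : Far a b c) (i i' : Fin r₁ ⊕ Fin r₂)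
    (hne : i ≠ i') (α : ℂ) (h : ((fB a b c i).map (Int.castRingHom ℂ)).eval α = 0)
    (h' : ((fB a b c i').map (Int.castRingHom ℂ)).eval α = 0) : False := by
  have hc : ∀ k, 0 < c k := by
    intro k
    have h1 := hF.hc k
    have h2 : (0 : ℤ) < ((bd r₁ r₂ : ℕ) : ℤ) ^ 2 := by
      have : 0 < bd r₁ r₂ := by unfold bd; omega
      positivity
    linarith
  have key : ∀ i : Fin r₁ ⊕ Fin r₂, ((fB a b c i).map (Int.castRingHom ℂ)).eval α = 0 →
      ∃ j : IRR.J r₁ r₂, α = Base.al a b c j ∧ (Sum.map id Prod.fst j : Fin r₁ ⊕ Fin r₂) = i := by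
    rintro (i | k) h
    · rw [Base.eval_inl, sub_eq_zero] at h
      exact ⟨Sum.inl i, h, rfl⟩
    · rw [Base.eval_inr a b c k (hc k), mul_eq_zero, sub_eq_zero, sub_eq_zero] at h
      rcases h with h | h
      · exact ⟨Sum.inr (k, true), h, rfl⟩
      · exact ⟨Sum.inr (k, false), h, rfl⟩
  obtain ⟨j, hj, hj'⟩ := key i h
  obtain ⟨l, hl, hl'⟩ := key i' h'
  have hjl : j ≠ l := by
    rintro rfl
    exact hne (hj'.symm.trans hl')
  have h1 := Base.far_al hF j l hjl
  rw [← hj, ← hl, sub_self, norm_zero] at h1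
  linarith

/-- a product of powers of polynomials without common zeros which takes finitely many values -/
theorem fin_values {r : ℕ} (g : Fin r → ℂ[X]) (hg : ∀ k, (g k).Monic)
    (hd : ∀ k, 0 < (g k).degree) (hno : ∀ k l, k ≠ l → ∀ α, (g k).eval α = 0 → (g l).eval α ≠ 0)
    (c : Fin r → ℤ) (W : Finset ℂ) (P : ℂ[X]) (hP : P ≠ 0)
    (hPg : ∀ y k, P.eval y ≠ 0 → (g k).eval y ≠ 0)
    (h : ∀ y, P.eval y ≠ 0 → ∏ k, (g k).eval y ^ c k ∈ W) : c = 0 := by
  classical
  by_contra hc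
  obtain ⟨k₀, hk₀⟩ := Function.ne_iff.1 hc
  rw [Pi.zero_apply] at hk₀
  set A : ℂ[X] := ∏ k, g k ^ (c k).toNat with hA
  set B : ℂ[X] := ∏ k, g k ^ (-c k).toNat with hB
  have hAm : A.Monic := monic_prod_of_monic _ _ fun k _ => (hg k).pow _
  have hAB : ∀ y, P.eval y ≠ 0 → A.eval y = (∏ k, (g k).eval y ^ c k) * B.eval y := by
    intro y hy
    rw [hA, hB, eval_prod, eval_prod, ← Finset.prod_mul_distrib]
    refine Finset.prod_congr rfl fun k _ => ?_
    rw [eval_pow, eval_pow, ← zpow_natCast, ← zpow_natCast, ← zpow_add₀ (hPg y k hy)]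
    congr 1
    omega
  have hzero : P * ∏ w ∈ W, (A - C w * B) = 0 := by
    apply Polynomial.funext
    intro y
    rw [eval_mul, eval_zero]
    by_cases hy : P.eval y = 0
    · rw [hy, zero_mul]
    · rw [eval_prod, Finset.prod_eq_zero (h y hy), mul_zero]
      rw [eval_sub, eval_mul, eval_C, hAB y hy, sub_self]
  rw [mul_eq_zero, or_iff_right hP, Finset.prod_eq_zero_iff] at hzero
  obtain ⟨w, -, hw⟩ := hzero
  rw [sub_eq_zero] at hw
  have hw0 : w ≠ 0 := by
    rintro rfl
    rw [C_0, zero_mul] at hw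
    exact hAm.ne_zero hw
  obtain ⟨α, hα⟩ := IsAlgClosed.exists_root (g k₀) (hd k₀).ne'
  rw [IsRoot.def] at hα
  have hwα : A.eval α = w * B.eval α := by rw [hw, eval_mul, eval_C]
  have hpos : ∀ (d : Fin r → ℕ), (∏ k, g k ^ d k).eval α = 0 → d k₀ ≠ 0 := by
    intro d hd0 hdk
    rw [eval_prod, Finset.prod_eq_zero_iff] at hd0
    obtain ⟨k, -, hk⟩ := hd0
    rw [eval_pow] at hk
    have h1 : (g k).eval α = 0 := by
      by_contra hne
      exact pow_ne_zero _ hne hk
    have h2 : k = k₀ := by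
      by_contra hne
      exact hno k k₀ hne α h1 hα
    subst h2
    rw [hdk, pow_zero] at hk
    exact one_ne_zero hk
  have hz : ∀ (d : Fin r → ℕ), d k₀ ≠ 0 → (∏ k, g k ^ d k).eval α = 0 := by
    intro d hdk
    rw [eval_prod]
    apply Finset.prod_eq_zero (Finset.mem_univ k₀)
    rw [eval_pow, hα, zero_pow hdk]
  rcases lt_or_gt_of_ne hk₀ with hneg | hp
  · have h1 : B.eval α = 0 := hz (fun k => (-c k).toNat) (by
      change (-c k₀).toNat ≠ 0
      omega)
    rw [h1, mul_zero] at hwα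
    have h2 := hpos (fun k => (c k).toNat) hwα
    apply h2
    change (c k₀).toNat = 0
    omega
  · have h1 : A.eval α = 0 := hz (fun k => (c k).toNat) (by
      change (c k₀).toNat ≠ 0
      omega)
    rw [h1] at hwα
    have h3 : B.eval α = 0 := by
      rcases mul_eq_zero.1 hwα.symm with h | h
      · exact absurd h hw0
      · exact h
    have h2 := hpos (fun k => (-c k).toNat) h3
    apply h2
    change (-c k₀).toNat = 0
    omega

/-- solving for the parameter -/
theorem solve (e : Idx r₁ r₂ → Fin s) (he : Function.Injective e) (i₀ : Fin r₁ ⊕ Fin r₂)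
    (z : Fin s → ℂ) (y v : ℂ) : ∃ t : ℂ,
      (fz e (fun j => if j = e (jj i₀) then t else z j) i₀).eval y = v := by
  rcases i₀ with i | k
  · refine ⟨y - v, ?_⟩
    change (X - C ((fun j => if j = e (Sum.inl i) then y - v else z j) (e (Sum.inl i)))).eval y = v
    simp
  · have hne : e (Sum.inr (Sum.inr k)) ≠ e (Sum.inr (Sum.inl k)) := by
      intro h
      have := he h
      simp at this
    obtain ⟨w, hw⟩ := IsAlgClosed.exists_pow_nat_eq (v - z (e (Sum.inr (Sum.inr k))))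
      (show 0 < 2 by norm_num)
    refine ⟨y - w, ?_⟩
    change ((X - C ((fun j => if j = e (Sum.inr (Sum.inl k)) then y - w else z j)
      (e (Sum.inr (Sum.inl k))))) ^ 2 + C ((fun j => if j = e (Sum.inr (Sum.inl k)) then y - w else z j)
      (e (Sum.inr (Sum.inr k))))).eval y = v
    simp only [if_true, if_neg hne, eval_add, eval_pow, eval_sub, eval_X, eval_C]
    rw [sub_sub_cancel, hw]
    ring

/-- **independence modulo constants** -/
theorem hind_abc (e : Idx r₁ r₂ → Fin s) (he : Function.Injective e) (ρ : Fin s → ℤ)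
    (hF : Far (fun i => ρ (e (Sum.inl i))) (fun k => ρ (e (Sum.inr (Sum.inl k))))
      (fun k => ρ (e (Sum.inr (Sum.inr k))))) (i₀ : Fin r₁ ⊕ Fin r₂) (r : ℕ)
    (eq : Fin r → Fin r₁ ⊕ Fin r₂) (hinj : Function.Injective eq) (hne : ∀ k, eq k ≠ i₀) :
    Hind (sp (line ρ (e (jj i₀))) (fm (Ph e))) r
      (fun k => sp (line ρ (e (jj i₀))) (Ph e (eq k))) := by
  classical
  obtain ⟨j₀, hj₀⟩ : ∃ j, j = e (jj i₀) := ⟨_, rfl⟩
  rw [← hj₀]
  obtain ⟨f, hf⟩ : ∃ f, f = sp (line ρ j₀) (fm (Ph e)) := ⟨_, rfl⟩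
  rw [← hf]
  intro u hu c hint
  obtain ⟨m, hm, hm0⟩ := hint
  let gg : Fin r₁ ⊕ Fin r₂ → ℂ[X] := fun i => (fz e ρ i).map (Int.castRingHom ℂ)
  have hgg : ∀ i, (gg i).Monic := fun i => (fB_monic _ _ _ i).map _
  let P : ℂ[X] := ∏ i ∈ Finset.univ.erase i₀, gg i
  have hP : P ≠ 0 := (monic_prod_of_monic _ _ fun i _ => hgg i).ne_zero
  have hz0 : ∀ t : ℂ, ∀ i, i ≠ i₀ → fz e (fun j => if j = j₀ then t else ((ρ j : ℤ) : ℂ)) i = gg i := by
    intro t i hi
    rw [fz_eq e he i₀ i hi _ (fun j => ((ρ j : ℤ) : ℂ))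
      (fun j hj => by rw [← hj₀] at hj; exact if_neg hj)]
    change _ = (fB _ _ _ i).map _
    rw [fB_map]
    rfl
  refine fin_values (fun k => gg (eq k)) (fun k => hgg _) ?_ ?_ c
    ((m.map (Int.castRingHom ℂ)).roots.toFinset) P hP ?_ ?_
  · intro k
    rw [← natDegree_pos_iff_degree_pos]
    change 0 < ((fB _ _ _ (eq k)).map (Int.castRingHom ℂ)).natDegree
    rw [(fB_monic _ _ _ (eq k)).natDegree_map]
    rcases eq k with i | l
    · rw [fB_natDegree_inl]; norm_num
    · rw [fB_natDegree_inr]; norm_num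
  · intro k l hkl α h1 h2
    exact no_common hF (eq k) (eq l) (fun h => hkl (hinj h)) α h1 h2
  · intro y k hy h0
    apply hy
    change (∏ i ∈ Finset.univ.erase i₀, gg i).eval y = 0
    rw [eval_prod]
    exact Finset.prod_eq_zero (Finset.mem_erase.2 ⟨hne k, Finset.mem_univ _⟩) h0
  · intro y hy
    obtain ⟨t, ht⟩ := solve e he i₀ (fun j => ((ρ j : ℤ) : ℂ)) y (P.eval y)⁻¹
    rw [← hj₀] at ht
    have hroot : (spec t f).eval y = 0 := by
      rw [hf, spec_line, sp_fm, eval_sub, eval_one, eval_prod]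
      have h1 : ∀ i, (sp (fun i => if i = j₀ then t else ((ρ i : ℤ) : ℂ)) (Ph e i)).eval y =
          (fz e (fun i => if i = j₀ then t else ((ρ i : ℤ) : ℂ)) i).eval y := fun i => by
        rw [sp_Ph]
      rw [Finset.prod_congr rfl fun i _ => h1 i,
        ← Finset.mul_prod_erase Finset.univ _ (Finset.mem_univ i₀)]
      have h2 : ∏ i ∈ Finset.univ.erase i₀,
          (fz e (fun i => if i = j₀ then t else ((ρ i : ℤ) : ℂ)) i).eval y = P.eval y := by
        change _ = (∏ i ∈ Finset.univ.erase i₀, gg i).eval y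
        rw [eval_prod]
        refine Finset.prod_congr rfl fun i hi => ?_
        rw [hz0 t i (Finset.ne_of_mem_erase hi)]
      rw [h2, ht, inv_mul_cancel₀ hy, sub_self]
    have hroot' : f.eval₂ (Polynomial.eval₂RingHom (Int.castRingHom ℂ) t) y = 0 := by
      rw [← eval_map]
      exact hroot
    let χ : AdjoinRoot f →+* ℂ := AdjoinRoot.lift _ y hroot'
    have hχU : ∀ k, χ (u k : AdjoinRoot f) = (gg (eq k)).eval y := by
      intro k
      rw [← hu k]
      change AdjoinRoot.lift _ y hroot' _ = _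
      rw [AdjoinRoot.lift_mk, ← eval_map]
      change (spec t (sp (line ρ j₀) (Ph e (eq k)))).eval y = _
      rw [spec_line, sp_Ph, hz0 t _ (hne k)]
    have hχv : χ ((∏ i, u i ^ c i : (AdjoinRoot f)ˣ) : AdjoinRoot f) =
        ∏ k, (gg (eq k)).eval y ^ c k := by
      have h1 : χ ((∏ i, u i ^ c i : (AdjoinRoot f)ˣ) : AdjoinRoot f) =
          ((Units.map (χ : AdjoinRoot f →* ℂ) (∏ i, u i ^ c i) : ℂˣ) : ℂ) := rfl
      rw [h1, map_prod, Units.coe_prod]
      refine Finset.prod_congr rfl fun k _ => ?_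
      rw [map_zpow, Units.val_zpow_eq_zpow_val]
      congr 1
      exact hχU k
    rw [Multiset.mem_toFinset, mem_roots (hm.map _).ne_zero, IsRoot.def, eval_map, ← hχv]
    have h3 := congrArg χ hm0
    rw [hom_eval₂, map_zero] at h3
    rw [← h3]
    congr 1
    exact RingHom.ext_int _ _

end

end Pool.Agent.N924.LP
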