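import Pool.Agent.N924.LP.Main
import Pool.Agent.N924.TH.Null

set_option autoImplicit false

/-! # One null set for countably many properties -/

namespace Pool.Agent.N924.LP

open Filter Topology
open Pool.Agent.N666.TM (NullIn diag)
open Pool.Agent.N924.TH (UD)

theorem ud_eqd {S : ℕ → Finset ℕ} {z : ℕ → ℕ → ℤ} (h : UD S z) {κ : Type} [Fintype κ]
    (σ : κ → ℕ) (hσ : Function.Injective σ) : Eqd S (fun t i => z (σ i) t) := by
  classical
  intro q hq ρ
  let e := Fintype.equivFin κ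
  have h1 := h (Fintype.card κ) (fun i => σ (e.symm i)) (hσ.comp e.symm.injective) q hq
    (fun i => ρ (e.symm i))
  refine h1.congr fun N => ?_
  congr 3
  ext t
  simp only [Set.mem_ofPred_eq]
  refine and_congr_right fun _ => ?_
  constructor
  · intro h2 i
    have := h2 (e i)
    simpa using this
  · intro h2 i
    exact h2 _

theorem nul_iff {S : ℕ → Finset ℕ} {E : Set ℕ} : Nul S E ↔ NullIn S E := Iff.rfl

/-- one null set for countably many null sets -/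
theorem one_set {D : Type} [Countable D] (B : D → Set ℕ) {S₁ S₂ : ℕ → Finset ℕ}
    (hS₁ : ∀ N, S₁ N ⊆ Finset.Ioc N (2 * N)) (hS₂ : ∀ N, S₂ N ⊆ Finset.Ioc N (2 * N))
    (h₁ : ∀ d, Nul S₁ (B d)) (h₂ : ∀ d, Nul S₂ (B d)) :
    ∃ E : Set ℕ, Nul S₁ E ∧ Nul S₂ E ∧ ∀ d, {t : ℕ | t ∉ E ∧ t ∈ B d}.Finite := by
  classical
  obtain ⟨f, hf⟩ := exists_injective_nat D
  have hfin : ∀ k : ℕ, {d : D | f d ≤ k}.Finite := fun k =>
    Set.Finite.preimage hf.injOn (Set.finite_le_nat k)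
  let E : ℕ → Set ℕ := fun k => {t | ∃ d ∈ (hfin k).toFinset, t ∈ B d}
  have hmono : Monotone E := by
    rintro k k' hkk t ⟨d, hd, ht⟩
    refine ⟨d, ?_, ht⟩
    rw [Set.Finite.mem_toFinset] at hd ⊢
    exact le_trans hd hkk
  obtain ⟨E', e1, e2, e3⟩ := diag hmono hS₁ hS₂
    (fun k => nul_iff.1 (nul_union _ _ fun d _ => h₁ d))
    (fun k => nul_iff.1 (nul_union _ _ fun d _ => h₂ d))
  refine ⟨E', nul_iff.2 e1, nul_iff.2 e2, fun d => (e3 (f d)).subset ?_⟩
  rintro t ⟨ht, hbad⟩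
  refine ⟨⟨d, ?_, hbad⟩, ht⟩
  rw [Set.Finite.mem_toFinset]
  exact (le_refl (f d) : f d ≤ f d)

end Pool.Agent.N924.LP
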