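import Pool.Agent.N924.LP.Sym
import Pool.Agent.R89.RQ.Main

set_option autoImplicit false

/-! # The `Σ`-Leopoldt statement from Leopoldt's conjecture for `ℚ(√w)` -/

namespace Pool.Agent.N924.LP.SG

open NumberField IntermediateField Pool.Agent.W289.SL Pool.Agent.N924.LP
open Pool.Agent.H637R2.Leo (Leopoldt)

lemma prod_dA {R : Type} [CommRing R] {d : ℕ} (A : Fin d → ℤ) (x : R) :
    ∏ i, (x - ((dA A i : ℤ) : R)) = ∏ i, (x ^ 2 - ((A i : ℤ) : R) ^ 2) := by
  rw [Fin.prod_univ_add, ← Finset.prod_mul_distrib]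
  refine Finset.prod_congr rfl fun i _ => ?_
  unfold dA
  rw [Fin.append_left, Fin.append_right]
  push_cast
  ring

section fields

variable {d : ℕ} (hd : 1 ≤ d) (A : Fin d → ℤ) (hE : ∀ i j, i ≠ j → 3 ≤ |dA A i - dA A j|)
  (hG : ∀ i j, i ≠ j → 3 ≤ |A i ^ 2 - A j ^ 2|)

include hd hE hG

lemma E_deg (E : Type) [Field E] [NumberField E] (θ : E)
    (hθ : ∏ i, (θ ^ 2 - ((A i : ℤ) : E) ^ 2) = 1) (hgen : IntermediateField.adjoin ℚ {θ} = ⊤) :
    Module.finrank ℚ E = d + d ∧ IsTotallyReal E := by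
  have hgap := hE
  have hθ' : ∏ i, (θ - ((dA A i : ℤ) : E)) = 1 := by rw [prod_dA, hθ]
  refine ⟨?_, ?_⟩
  · refine Pool.Agent.H637R2.Leo.finrank_eq (by omega) (fun i => dA A i) ?_ θ hθ' hgen
    intro i j hij
    by_contra hne
    have h := hgap i j hne
    simp only at hij
    rw [hij, sub_self, abs_zero] at h
    omega
  · exact Pool.Agent.Y789.SG.totally_real (by omega) (fun i => dA A i) hgap E θ hθ' hgen

omit hE in
lemma F_deg (F : Type) [Field F] [NumberField F] (w : F)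
    (hw : ∏ i, (w - ((A i : ℤ) : F) ^ 2) = 1) (hgen : IntermediateField.adjoin ℚ {w} = ⊤) :
    Module.finrank ℚ F = d ∧ IsTotallyReal F := by
  have hgap := hG
  have hw' : ∏ i, (w - (((A i) ^ 2 : ℤ) : F)) = 1 := by
    rw [← hw]
    refine Finset.prod_congr rfl fun i _ => ?_
    push_cast
    rfl
  refine ⟨?_, ?_⟩
  · refine Pool.Agent.H637R2.Leo.finrank_eq hd (fun i => (A i) ^ 2) ?_ w hw' hgen
    intro i j hij
    by_contra hne
    have h := hgap i j hne
    simp only at hij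
    rw [hij, sub_self, abs_zero] at h
    omega
  · exact Pool.Agent.Y789.SG.totally_real hd (fun i => (A i) ^ 2) hgap F w hw' hgen

omit hd hE hG in
lemma gen_top {M : Type} [Field M] [NumberField M] (x : M) :
    IntermediateField.adjoin ℚ {AdjoinSimple.gen ℚ x} = (⊤ : IntermediateField ℚ (ℚ⟮x⟯)) := by
  rw [eq_top_iff]
  have h1 : lift (IntermediateField.adjoin ℚ {AdjoinSimple.gen ℚ x}) = ℚ⟮x⟯ := by
    rw [lift_adjoin_simple, AdjoinSimple.coe_gen]
  intro z _
  have h2 : (z : M) ∈ lift (IntermediateField.adjoin ℚ {AdjoinSimple.gen ℚ x}) := by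
    rw [h1]
    exact z.2
  exact (mem_lift z).1 h2

lemma sub_deg {M : Type} [Field M] [NumberField M] (x : M)
    (hx : ∏ i, (x ^ 2 - ((A i : ℤ) : M) ^ 2) = 1) :
    Module.finrank ℚ (ℚ⟮x⟯) = d + d ∧ IsTotallyReal (ℚ⟮x⟯) := by
  have : NumberField (ℚ⟮x⟯) := inferInstance
  refine E_deg hd A hE hG (ℚ⟮x⟯) (AdjoinSimple.gen ℚ x) ?_ (gen_top x)
  apply (algebraMap (ℚ⟮x⟯) M).injective
  rw [map_prod, map_one, ← hx]
  refine Finset.prod_congr rfl fun i _ => ?_
  rw [map_sub, map_pow, map_pow, map_intCast, AdjoinSimple.algebraMap_gen]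

/-- no square root in `F` -/
lemma not_sq_F (F : Type) [Field F] [NumberField F] (w : F)
    (hw : ∏ i, (w - ((A i : ℤ) : F) ^ 2) = 1) (hgen : IntermediateField.adjoin ℚ {w} = ⊤) :
    ¬ IsSquare w := by
  rintro ⟨s, hs⟩
  have h1 := (sub_deg hd A hE hG s (by rw [pow_two s, ← hs]; exact hw)).1
  have h2 := (F_deg hd A hG F w hw hgen).1
  have h3 : Module.finrank ℚ (ℚ⟮s⟯) ≤ Module.finrank ℚ F := Submodule.finrank_le (R := ℚ) (M := F)
    (Subalgebra.toSubmodule (ℚ⟮s⟯).toSubalgebra)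
  omega

/-- no square root in a totally complex quadratic extension -/
lemma not_sq_K (F : Type) [Field F] [NumberField F] (w : F)
    (hw : ∏ i, (w - ((A i : ℤ) : F) ^ 2) = 1) (hgen : IntermediateField.adjoin ℚ {w} = ⊤)
    (K : Type) [Field K] [NumberField K] [IsTotallyComplex K] [Algebra F K]
    (hFK : Module.finrank F K = 2) : ¬ IsSquare (algebraMap F K w) := by
  rintro ⟨s, hs⟩
  have hs' : ∏ i, (s ^ 2 - ((A i : ℤ) : K) ^ 2) = 1 := by
    rw [pow_two s, ← hs]
    have h1 := congrArg (algebraMap F K) hw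
    rw [map_prod, map_one] at h1
    rw [← h1]
    refine Finset.prod_congr rfl fun i _ => ?_
    rw [map_sub, map_pow, map_intCast]
  have h1 := (sub_deg hd A hE hG s hs').1
  have h2 := (F_deg hd A hG F w hw hgen).1
  have h3 : Module.finrank ℚ K = d + d := by
    rw [← Module.finrank_mul_finrank ℚ F K, h2, hFK]
    ring
  have h4 : ℚ⟮s⟯ = (⊤ : IntermediateField ℚ K) := by
    apply IntermediateField.eq_of_le_of_finrank_eq le_top
    rw [h1, IntermediateField.finrank_top', h3]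
  have h5 := (E_deg hd A hE hG K s hs' h4).2
  obtain ⟨v⟩ : Nonempty (InfinitePlace K) := inferInstance
  exact (InfinitePlace.not_isReal_iff_isComplex.2 (IsTotallyComplex.isComplex v))
    (IsTotallyReal.isReal v)

/-- the reduction to Leopoldt's conjecture for `ℚ(√w)` -/
theorem sigma_of (p : ℕ) [Fact p.Prime]
    (hL : ∀ (E : Type) [Field E] [NumberField E] (θ : E),
      ∏ i, (θ ^ 2 - ((A i : ℤ) : E) ^ 2) = 1 → IntermediateField.adjoin ℚ {θ} = ⊤ →
      Leopoldt E p)
    (F : Type) [Field F] [NumberField F] (w : F)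
    (hw : ∏ i, (w - ((A i : ℤ) : F) ^ 2) = 1) (hgen : IntermediateField.adjoin ℚ {w} = ⊤)
    (K : Type) [Field K] [NumberField K] [IsTotallyComplex K] [Algebra F K]
    (hFK : Module.finrank F K = 2)
    (H : Type) [Field H] [NumberField H] [Algebra K H] (θ : H) (hKH : Module.finrank K H = 2)
    (hθ : θ ^ 2 = algebraMap K H (algebraMap F K w)) (S : Set (K →+* ℂ_[p]))
    (hS : IsCMType p F K S) (χ : (H ≃ₐ[K] H) →* ℂ_[p]ˣ) : SigmaLeopoldt p K H S χ := by
  set f : F →+* H := (algebraMap K H).comp (algebraMap F K) with hf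
  have hθ' : ∏ i, (θ ^ 2 - ((A i : ℤ) : H) ^ 2) = 1 := by
    have h1 := congrArg f hw
    rw [map_prod, map_one] at h1
    rw [← h1]
    refine Finset.prod_congr rfl fun i _ => ?_
    rw [map_sub, map_pow, map_intCast, hθ]
    rfl
  obtain ⟨hE1, hE2⟩ := sub_deg hd A hE hG θ hθ'
  have hEL : Leopoldt (ℚ⟮θ⟯) p := by
    refine hL (ℚ⟮θ⟯) (AdjoinSimple.gen ℚ θ) ?_ (gen_top θ)
    apply (algebraMap (ℚ⟮θ⟯) H).injective
    rw [map_prod, map_one, ← hθ']
    refine Finset.prod_congr rfl fun i _ => ?_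
    rw [map_sub, map_pow, map_pow, map_intCast, AdjoinSimple.algebraMap_gen]
  have htop : Algebra.adjoin ℚ {w} = ⊤ := by
    rw [← IntermediateField.adjoin_simple_toSubalgebra_of_isAlgebraic
      (Algebra.IsAlgebraic.isAlgebraic _), hgen]
    rfl
  have hmem : ∀ z : F, f z ∈ (ℚ⟮θ⟯ : IntermediateField ℚ H) := by
    intro z
    have hz : z ∈ Algebra.adjoin ℚ {w} := by rw [htop]; trivial
    induction hz using Algebra.adjoin_induction with
    | mem z hz =>
      rw [Set.mem_singleton_iff] at hz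
      subst hz
      have : f z = θ ^ 2 := hθ.symm
      rw [this]
      exact pow_mem (mem_adjoin_simple_self _ _) 2
    | algebraMap q =>
      have : f (algebraMap ℚ F q) = ((q : ℚ) : H) := by simp
      rw [this]
      exact SubfieldClass.ratCast_mem _ q
    | add a b _ _ ha hb => rw [map_add]; exact add_mem ha hb
    | mul a b _ _ ha hb => rw [map_mul]; exact mul_mem ha hb
  letI alg : Algebra F (ℚ⟮θ⟯) := (f.codRestrict (ℚ⟮θ⟯).toSubring hmem).toAlgebra
  have hFd := (F_deg hd A hG F w hw hgen).1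
  have hKd : Module.finrank ℚ K = d + d := by
    rw [← Module.finrank_mul_finrank ℚ F K, hFd, hFK]
    ring
  have hEH : Module.finrank (ℚ⟮θ⟯) H = 2 := by
    have h1 := Module.finrank_mul_finrank ℚ (ℚ⟮θ⟯) H
    have h2 := Module.finrank_mul_finrank ℚ K H
    rw [hKd, hKH] at h2
    rw [hE1, ← h2] at h1
    exact Nat.eq_of_mul_eq_mul_left (by omega) h1
  exact Pool.Agent.Y419.LC.sig p F K (ℚ⟮θ⟯) H hE2 inferInstance hFK hEH (fun x => rfl)
    (Pool.Agent.Y419.LC.lcp p (ℚ⟮θ⟯) hEL) S hS χ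

end fields

end Pool.Agent.N924.LP.SG
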