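import Pool.Agent.N924.LP.Hin

set_option autoImplicit false

/-! # The family `∏ (Y - A_i) (Y + A_i) - 1` -/

namespace Pool.Agent.N924.LP

open Polynomial Pool.Agent.H33R4

noncomputable section

/-- `A` and `-A` -/
def dA {B : Type} [CommRing B] {d : ℕ} (A : Fin d → B) : Fin (d + d) → B :=
  Fin.append A (fun i => -A i)

theorem dA_map {A B : Type} [CommRing A] [CommRing B] (φ : A →+* B) {d : ℕ} (a : Fin d → A)
    (l : Fin (d + d)) : φ (dA a l) = dA (fun i => φ (a i)) l := by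
  refine Fin.addCases (fun j => ?_) (fun j => ?_) l
  · simp only [dA, Fin.append_left]
  · simp only [dA, Fin.append_right, map_neg]

/-- the factors `Y - A_i`, `Y + A_i` -/
def sB {B : Type} [CommRing B] {d : ℕ} (A : Fin d → B) : Fin (d + d) ⊕ Fin 0 → B[X] :=
  fB (dA A) (fun i => i.elim0) (fun i => i.elim0)

theorem sB_map {A B : Type} [CommRing A] [CommRing B] (φ : A →+* B) {d : ℕ} (a : Fin d → A)
    (i : Fin (d + d) ⊕ Fin 0) : (sB a i).map φ = sB (fun i => φ (a i)) i := by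
  unfold sB
  rw [fB_map]
  have h1 : (fun i => φ (dA a i)) = dA (fun i => φ (a i)) := funext fun l => dA_map φ a l
  rw [h1]
  congr 1
  · exact funext fun i => i.elim0
  · exact funext fun i => i.elim0

/-- the family -/
def PhS (d : ℕ) : Fin (d + d) ⊕ Fin 0 → (MvPolynomial (Fin d) ℤ)[X] :=
  sB (fun i => MvPolynomial.X i)

theorem sp_PhS {B : Type} [CommRing B] {d : ℕ} (z : Fin d → B) (i : Fin (d + d) ⊕ Fin 0) :
    sp z (PhS d i) = sB z i := by
  unfold sp PhS
  rw [sB_map]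
  simp

/-- a product of powers of polynomials without common zeros which takes finitely many values -/
theorem fin_values' {ι : Type} [DecidableEq ι] (J : Finset ι) (g : ι → ℂ[X])
    (hg : ∀ k ∈ J, (g k).Monic) (hd : ∀ k ∈ J, 0 < (g k).degree)
    (hno : ∀ k ∈ J, ∀ l ∈ J, k ≠ l → ∀ α, (g k).eval α = 0 → (g l).eval α ≠ 0)
    (c : ι → ℤ) (W : Finset ℂ) (P : ℂ[X]) (hP : P ≠ 0)
    (hPg : ∀ y, ∀ k ∈ J, P.eval y ≠ 0 → (g k).eval y ≠ 0)
    (h : ∀ y, P.eval y ≠ 0 → ∏ k ∈ J, (g k).eval y ^ c k ∈ W) : ∀ k ∈ J, c k = 0 := by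
  classical
  intro k₀ hJ
  by_contra hk₀
  set A : ℂ[X] := ∏ k ∈ J, g k ^ (c k).toNat with hA
  set B : ℂ[X] := ∏ k ∈ J, g k ^ (-c k).toNat with hB
  have hAm : A.Monic := monic_prod_of_monic _ _ fun k hk => (hg k hk).pow _
  have hAB : ∀ y, P.eval y ≠ 0 → A.eval y = (∏ k ∈ J, (g k).eval y ^ c k) * B.eval y := by
    intro y hy
    rw [hA, hB, eval_prod, eval_prod, ← Finset.prod_mul_distrib]
    refine Finset.prod_congr rfl fun k hk => ?_
    rw [eval_pow, eval_pow, ← zpow_natCast, ← zpow_natCast, ← zpow_add₀ (hPg y k hk hy)]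
    congr 1
    omega
  have hzero : P * ∏ w ∈ W, (A - C w * B) = 0 := by
    apply Polynomial.funext
    intro y
    rw [eval_mul, eval_zero]
    by_cases hy : P.eval y = 0
    · rw [hy, zero_mul]
    · rw [eval_prod, Finset.prod_eq_zero (h y hy), mul_zero]
      rw [eval_sub, eval_mul, eval_C, hAB y hy, sub_self]
  rw [mul_eq_zero, or_iff_right hP, Finset.prod_eq_zero_iff] at hzero
  obtain ⟨w, -, hw⟩ := hzero
  rw [sub_eq_zero] at hw
  have hw0 : w ≠ 0 := by
    rintro rfl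
    rw [C_0, zero_mul] at hw
    exact hAm.ne_zero hw
  obtain ⟨α, hα⟩ := IsAlgClosed.exists_root (g k₀) (hd k₀ hJ).ne'
  rw [IsRoot.def] at hα
  have hwα : A.eval α = w * B.eval α := by rw [hw, eval_mul, eval_C]
  have hpos : ∀ (d : ι → ℕ), (∏ k ∈ J, g k ^ d k).eval α = 0 → d k₀ ≠ 0 := by
    intro d hd0 hdk
    rw [eval_prod, Finset.prod_eq_zero_iff] at hd0
    obtain ⟨k, hkJ, hk⟩ := hd0
    rw [eval_pow] at hk
    have h1 : (g k).eval α = 0 := by
      by_contra hne
      exact pow_ne_zero _ hne hk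
    have h2 : k = k₀ := by
      by_contra hne
      exact hno k hkJ k₀ hJ hne α h1 hα
    subst h2
    rw [hdk, pow_zero] at hk
    exact one_ne_zero hk
  have hz : ∀ (d : ι → ℕ), d k₀ ≠ 0 → (∏ k ∈ J, g k ^ d k).eval α = 0 := by
    intro d hdk
    rw [eval_prod]
    apply Finset.prod_eq_zero hJ
    rw [eval_pow, hα, zero_pow hdk]
  rcases lt_or_gt_of_ne hk₀ with hneg | hp
  · have h1 : B.eval α = 0 := hz (fun k => (-c k).toNat) (by
      change (-c k₀).toNat ≠ 0
      omega)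
    rw [h1, mul_zero] at hwα
    have h2 := hpos (fun k => (c k).toNat) hwα
    apply h2
    change (c k₀).toNat = 0
    omega
  · have h1 : A.eval α = 0 := hz (fun k => (c k).toNat) (by
      change (c k₀).toNat ≠ 0
      omega)
    rw [h1] at hwα
    have h3 : B.eval α = 0 := by
      rcases mul_eq_zero.1 hwα.symm with h | h
      · exact absurd h hw0
      · exact h
    have h2 := hpos (fun k => (-c k).toNat) h3
    apply h2
    change (-c k₀).toNat = 0
    omega

variable {d : ℕ}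

/-- the factor `Y - A_{j₀}` -/
def k0 (j₀ : Fin d) : Fin (d + d) ⊕ Fin 0 := Sum.inl (Fin.castAdd d j₀)

/-- the factor `Y + A_{j₀}` -/
def k1 (j₀ : Fin d) : Fin (d + d) ⊕ Fin 0 := Sum.inl (Fin.natAdd d j₀)

theorem k0_ne_k1 (j₀ : Fin d) : k0 j₀ ≠ k1 j₀ := by
  intro h
  unfold k0 k1 at h
  have h1 := Sum.inl_injective h
  have h2 := congrArg Fin.val h1
  simp only [Fin.val_castAdd, Fin.val_natAdd] at h2
  have := j₀.2
  omega

/-- the parameters with value `t` at `j₀` -/
def zt (ρ : Fin d → ℤ) (j₀ : Fin d) (t : ℂ) : Fin d → ℂ := fun j => if j = j₀ then t else ((ρ j : ℤ) : ℂ)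

theorem G_k0 (ρ : Fin d → ℤ) (j₀ : Fin d) (t y : ℂ) : (sB (zt ρ j₀ t) (k0 j₀)).eval y = y - t := by
  change (X - C (dA (zt ρ j₀ t) (Fin.castAdd d j₀))).eval y = _
  simp [dA, zt]

theorem G_k1 (ρ : Fin d → ℤ) (j₀ : Fin d) (t y : ℂ) : (sB (zt ρ j₀ t) (k1 j₀)).eval y = y + t := by
  change (X - C (dA (zt ρ j₀ t) (Fin.natAdd d j₀))).eval y = _
  unfold dA
  rw [Fin.append_right, eval_sub, eval_X, eval_C]
  simp only [zt, if_true]
  ring

theorem G_other (ρ : Fin d → ℤ) (j₀ : Fin d) (t : ℂ) (i : Fin (d + d) ⊕ Fin 0) (h0 : i ≠ k0 j₀)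
    (h1 : i ≠ k1 j₀) : sB (zt ρ j₀ t) i = (sB ρ i).map (Int.castRingHom ℂ) := by
  rw [sB_map]
  rcases i with l | l
  · change X - C (dA (zt ρ j₀ t) l) = X - C (dA (fun j => (Int.castRingHom ℂ) (ρ j)) l)
    congr 2
    revert h0 h1
    refine Fin.addCases (fun j => ?_) (fun j => ?_) l
    · intro h0 h1
      have hj : j ≠ j₀ := fun h => h0 (by rw [h]; rfl)
      simp [dA, zt, hj]
    · intro h0 h1
      have hj : j ≠ j₀ := fun h => h1 (by rw [h]; rfl)
      unfold dA
      rw [Fin.append_right, Fin.append_right]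
      simp [zt, hj]
  · exact l.elim0

/-- **independence modulo constants** -/
theorem hind_sym (ρ : Fin d → ℤ)
    (hF : Far (dA ρ) (fun i : Fin 0 => i.elim0) (fun i : Fin 0 => i.elim0)) (j₀ : Fin d) (r : ℕ)
    (eq : Fin r → Fin (d + d) ⊕ Fin 0) (hinj : Function.Injective eq)
    (hne : ∀ k, eq k ≠ k0 j₀) :
    Hind (sp (line ρ j₀) (fm (PhS d))) r (fun k => sp (line ρ j₀) (PhS d (eq k))) := by
  classical
  obtain ⟨f, hf⟩ : ∃ f, f = sp (line ρ j₀) (fm (PhS d)) := ⟨_, rfl⟩
  rw [← hf]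
  intro u hu c hint
  obtain ⟨m, hm, hm0⟩ := hint
  let W : Finset ℂ := (m.map (Int.castRingHom ℂ)).roots.toFinset
  let G : Fin (d + d) ⊕ Fin 0 → ℂ → ℂ → ℂ := fun i y t => (sB (zt ρ j₀ t) i).eval y
  let gg : Fin (d + d) ⊕ Fin 0 → ℂ[X] := fun i => (sB ρ i).map (Int.castRingHom ℂ)
  let J : Finset (Fin (d + d) ⊕ Fin 0) := (Finset.univ.erase (k0 j₀)).erase (k1 j₀)
  let P : ℂ[X] := ∏ i ∈ J, gg i
  have hgg : ∀ i, (gg i).Monic := fun i => (fB_monic _ _ _ i).map _
  have hggd : ∀ i, 0 < (gg i).degree := by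
    intro i
    rw [← natDegree_pos_iff_degree_pos]
    change 0 < ((fB _ _ _ i).map (Int.castRingHom ℂ)).natDegree
    rw [(fB_monic _ _ _ i).natDegree_map]
    rcases i with i | l
    · rw [fB_natDegree_inl]; norm_num
    · rw [fB_natDegree_inr]; norm_num
  have hPm : P.Monic := monic_prod_of_monic _ _ fun i _ => hgg i
  have hP : P ≠ 0 := hPm.ne_zero
  have hJmem : ∀ i ∈ J, i ≠ k0 j₀ ∧ i ≠ k1 j₀ := by
    intro i hi
    exact ⟨Finset.ne_of_mem_erase (Finset.mem_of_mem_erase hi), Finset.ne_of_mem_erase hi⟩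
  have hsplit : ∀ (F : Fin (d + d) ⊕ Fin 0 → ℂ), ∏ i, F i = F (k0 j₀) * (F (k1 j₀) * ∏ i ∈ J, F i) := by
    intro F
    rw [← Finset.mul_prod_erase Finset.univ F (Finset.mem_univ (k0 j₀)),
      ← Finset.mul_prod_erase (Finset.univ.erase (k0 j₀)) F
        (Finset.mem_erase.2 ⟨(k0_ne_k1 j₀).symm, Finset.mem_univ _⟩)]
  have hGJ : ∀ y t, ∀ i ∈ J, G i y t = (gg i).eval y := by
    intro y t i hi
    change (sB (zt ρ j₀ t) i).eval y = _
    rw [G_other ρ j₀ t i (hJmem i hi).1 (hJmem i hi).2]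
  have hno : ∀ k ∈ J, ∀ l ∈ J, k ≠ l → ∀ α, (gg k).eval α = 0 → (gg l).eval α ≠ 0 :=
    fun k _ l _ hkl α h1 h2 => no_common hF k l hkl α h1 h2
  have hPg : ∀ y, ∀ k ∈ J, P.eval y ≠ 0 → (gg k).eval y ≠ 0 := by
    intro y k hk hy h0
    apply hy
    change (∏ i ∈ J, gg i).eval y = 0
    rw [eval_prod]
    exact Finset.prod_eq_zero hk h0
  -- exponents indexed by the factors
  let c' : Fin (d + d) ⊕ Fin 0 → ℤ := fun i => if h : ∃ k, eq k = i then c h.choose else 0
  have hc' : ∀ k, c' (eq k) = c k := by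
    intro k
    have h : ∃ l, eq l = eq k := ⟨k, rfl⟩
    simp only [c', dif_pos h]
    rw [hinj h.choose_spec]
  have hc0 : c' (k0 j₀) = 0 := by
    have h : ¬ ∃ l, eq l = k0 j₀ := fun ⟨l, hl⟩ => hne l hl
    simp only [c', dif_neg h]
  have hprod : ∀ g : Fin (d + d) ⊕ Fin 0 → ℂ, ∏ k, g (eq k) ^ c k = ∏ i, g i ^ c' i := by
    intro g
    rw [← Finset.prod_subset (Finset.subset_univ (Finset.univ.image eq))]
    · rw [Finset.prod_image fun a _ b _ h => hinj h]
      exact Finset.prod_congr rfl fun k _ => by rw [hc']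
    · intro i _ hi
      have h : ¬ ∃ l, eq l = i := fun ⟨l, hl⟩ => hi (Finset.mem_image.2 ⟨l, Finset.mem_univ _, hl⟩)
      simp only [c', dif_neg h, zpow_zero]
  -- values on the curve
  have hval : ∀ y t : ℂ, (y - t) * ((y + t) * P.eval y) = 1 →
      (y + t) ^ c' (k1 j₀) * ∏ i ∈ J, (gg i).eval y ^ c' i ∈ W := by
    intro y t hyt
    have hroot : (spec t f).eval y = 0 := by
      rw [hf, spec_line, sp_fm, eval_sub, eval_one, eval_prod]
      have h1 : ∀ i, (sp (fun i => if i = j₀ then t else ((ρ i : ℤ) : ℂ)) (PhS d i)).eval y =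
          G i y t := fun i => by
        rw [sp_PhS]
        rfl
      rw [Finset.prod_congr rfl fun i _ => h1 i, hsplit, Finset.prod_congr rfl (hGJ y t)]
      change (sB (zt ρ j₀ t) (k0 j₀)).eval y * ((sB (zt ρ j₀ t) (k1 j₀)).eval y * _) - 1 = 0
      rw [G_k0, G_k1, ← eval_prod, hyt, sub_self]
    have hroot' : f.eval₂ (Polynomial.eval₂RingHom (Int.castRingHom ℂ) t) y = 0 := by
      rw [← eval_map]
      exact hroot
    let χ : AdjoinRoot f →+* ℂ := AdjoinRoot.lift _ y hroot'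
    have hχU : ∀ k, χ (u k : AdjoinRoot f) = G (eq k) y t := by
      intro k
      rw [← hu k]
      change AdjoinRoot.lift _ y hroot' _ = _
      rw [AdjoinRoot.lift_mk, ← eval_map]
      change (spec t (sp (line ρ j₀) (PhS d (eq k)))).eval y = _
      rw [spec_line, sp_PhS]
      rfl
    have hχv : χ ((∏ i, u i ^ c i : (AdjoinRoot f)ˣ) : AdjoinRoot f) =
        (y + t) ^ c' (k1 j₀) * ∏ i ∈ J, (gg i).eval y ^ c' i := by
      have h1 : χ ((∏ i, u i ^ c i : (AdjoinRoot f)ˣ) : AdjoinRoot f) =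
          ((Units.map (χ : AdjoinRoot f →* ℂ) (∏ i, u i ^ c i) : ℂˣ) : ℂ) := rfl
      rw [h1, map_prod, Units.coe_prod]
      have h2 : ∀ k, ((Units.map (χ : AdjoinRoot f →* ℂ) (u k ^ c k) : ℂˣ) : ℂ) =
          (fun i => G i y t) (eq k) ^ c k := by
        intro k
        rw [map_zpow, Units.val_zpow_eq_zpow_val]
        congr 1
        exact hχU k
      have h7 : ∏ k, ((Units.map (χ : AdjoinRoot f →* ℂ) (u k ^ c k) : ℂˣ) : ℂ) =
          ∏ i, (fun i => G i y t) i ^ c' i :=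
        (Finset.prod_congr rfl fun k _ => h2 k).trans (hprod fun i => G i y t)
      rw [h7, hsplit, hc0, zpow_zero, one_mul]
      congr 1
      · change (sB (zt ρ j₀ t) (k1 j₀)).eval y ^ _ = _
        rw [G_k1]
      · refine Finset.prod_congr rfl fun i hi => ?_
        change G i y t ^ _ = _
        rw [hGJ y t i hi]
    change _ ∈ (m.map (Int.castRingHom ℂ)).roots.toFinset
    rw [Multiset.mem_toFinset, mem_roots (hm.map _).ne_zero, IsRoot.def, eval_map, ← hχv]
    have h3 := congrArg χ hm0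
    rw [hom_eval₂, map_zero] at h3
    rw [← h3]
    congr 1
    exact RingHom.ext_int _ _
  let W2 : Finset ℂ := (W ×ˢ W).image fun w => w.1 * w.2
  have hW2 : ∀ a ∈ W, ∀ b ∈ W, a * b ∈ W2 := fun a ha b hb =>
    Finset.mem_image.2 ⟨(a, b), Finset.mem_product.2 ⟨ha, hb⟩, rfl⟩
  set c₁ := c' (k1 j₀) with hc₁
  -- first step
  have hstep1 : ∀ i ∈ J, 2 * c' i - c₁ = 0 := by
    refine fin_values' J gg (fun k _ => hgg k) (fun k _ => hggd k) hno
      (fun i => 2 * c' i - c₁) W2 P hP hPg ?_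
    intro y hy
    obtain ⟨t, ht⟩ := IsAlgClosed.exists_pow_nat_eq (y ^ 2 - (P.eval y)⁻¹) (show 0 < 2 by norm_num)
    have e1 : (y - t) * (y + t) = (P.eval y)⁻¹ := by
      have : (y - t) * (y + t) = y ^ 2 - t ^ 2 := by ring
      rw [this, ht]
      ring
    have h1 := hval y t (by rw [← mul_assoc, e1, inv_mul_cancel₀ hy])
    have h2 := hval y (-t) (by
      have : (y - -t) * ((y + -t) * P.eval y) = ((y - t) * (y + t)) * P.eval y := by ring
      rw [this, e1, inv_mul_cancel₀ hy])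
    have h3 := hW2 _ h1 _ h2
    have h4 : ((y + t) ^ c₁ * ∏ i ∈ J, (gg i).eval y ^ c' i) *
        ((y + -t) ^ c₁ * ∏ i ∈ J, (gg i).eval y ^ c' i) =
        ∏ i ∈ J, (gg i).eval y ^ (2 * c' i - c₁) := by
      have h5 : ∀ i ∈ J, (gg i).eval y ^ (2 * c' i - c₁) =
          (((gg i).eval y ^ c' i) * ((gg i).eval y ^ c' i)) * ((gg i).eval y ^ c₁)⁻¹ := by
        intro i hi
        have hn := hPg y i hi hy
        rw [zpow_sub₀ hn, two_mul, zpow_add₀ hn, div_eq_mul_inv]
      rw [Finset.prod_congr rfl h5, Finset.prod_mul_distrib, Finset.prod_mul_distrib,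
        Finset.prod_inv_distrib, Finset.prod_zpow, ← eval_prod]
      have h6 : (P.eval y ^ c₁)⁻¹ = (y + t) ^ c₁ * (y + -t) ^ c₁ := by
        rw [← mul_zpow, ← inv_zpow, ← e1]
        congr 1
        ring
      rw [show (∏ i ∈ J, gg i).eval y = P.eval y from rfl, h6]
      ring
    rw [h4] at h3
    exact h3
  -- second step
  have hR : ∀ y, P.eval y ≠ 0 → (∏ i ∈ J, (gg i).eval y ^ c' i) * (∏ i ∈ J, (gg i).eval y ^ c' i) =
      P.eval y ^ c₁ := by
    intro y hy
    rw [← Finset.prod_mul_distrib, show P.eval y = ∏ i ∈ J, (gg i).eval y from eval_prod _ _ _,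
      ← Finset.prod_zpow]
    refine Finset.prod_congr rfl fun i hi => ?_
    rw [← zpow_add₀ (hPg y i hi hy)]
    congr 1
    have := hstep1 i hi
    linarith
  have hstep2 : c₁ = 0 := by
    have h := fin_values' ({()} : Finset Unit) (fun _ => (X : ℂ[X])) (fun _ _ => monic_X)
      (fun _ _ => by rw [degree_X]; exact zero_lt_one) (fun k _ l _ hkl => absurd (Subsingleton.elim k l) hkl)
      (fun _ => c₁) W2 (X * (X + 1)) (mul_ne_zero X_ne_zero (monic_X_add_C (1 : ℂ)).ne_zero) ?_ ?_ ()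
      (Finset.mem_singleton_self _)
    · exact h
    · intro y k _ hy
      rw [eval_mul, eval_X] at hy
      rw [eval_X]
      exact left_ne_zero_of_mul hy
    · intro s hs
      rw [eval_mul, eval_add, eval_X, eval_one] at hs
      have hs0 : s ≠ 0 := left_ne_zero_of_mul hs
      have hs1 : s + 1 ≠ 0 := right_ne_zero_of_mul hs
      rw [Finset.prod_singleton, eval_X]
      set μ : ℂ := 4 * s / (s + 1) ^ 2 with hμ
      have hμ0 : μ ≠ 0 := by
        rw [hμ]
        exact div_ne_zero (mul_ne_zero (by norm_num) hs0) (pow_ne_zero _ hs1)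
      have hdeg : (C μ * (X ^ 2 * P) - 1 : ℂ[X]).degree ≠ 0 := by
        have h1 : (X ^ 2 * P : ℂ[X]).Monic := (monic_X_pow 2).mul hPm
        have h2 : 0 < (C μ * (X ^ 2 * P) : ℂ[X]).degree := by
          rw [degree_C_mul hμ0, ← natDegree_pos_iff_degree_pos, (monic_X_pow 2).natDegree_mul hPm,
            natDegree_X_pow]
          omega
        have h3 : (C μ * (X ^ 2 * P) - 1 : ℂ[X]).degree = (C μ * (X ^ 2 * P) : ℂ[X]).degree := by
          apply degree_sub_eq_left_of_degree_lt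
          rw [degree_one]
          exact h2
        rw [h3]
        exact h2.ne'
      obtain ⟨y, hy⟩ := IsAlgClosed.exists_root _ hdeg
      rw [IsRoot.def, eval_sub, eval_mul, eval_C, eval_mul, eval_pow, eval_X, eval_one,
        sub_eq_zero] at hy
      have hPy : P.eval y ≠ 0 := by
        intro h0
        rw [h0, mul_zero, mul_zero] at hy
        exact zero_ne_one hy
      have hy0 : y ≠ 0 := by
        rintro rfl
        norm_num at hy
      set t : ℂ := (s - 1) / (s + 1) * y with ht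
      have ep : y + t = 2 * s / (s + 1) * y := by
        rw [ht]
        field_simp
        ring
      have em : y - t = 2 / (s + 1) * y := by
        rw [ht]
        field_simp
        ring
      have hcurve : (y - t) * ((y + t) * P.eval y) = 1 := by
        calc (y - t) * ((y + t) * P.eval y) = μ * (y ^ 2 * P.eval y) := by
              rw [ep, em, hμ]
              field_simp
              ring
          _ = 1 := hy
      have h1 := hval y t hcurve
      have h2 := hW2 _ h1 _ h1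
      have h3 : ((y + t) ^ c₁ * ∏ i ∈ J, (gg i).eval y ^ c' i) *
          ((y + t) ^ c₁ * ∏ i ∈ J, (gg i).eval y ^ c' i) = s ^ c₁ := by
        have h4 : ((y + t) ^ c₁ * ∏ i ∈ J, (gg i).eval y ^ c' i) *
          ((y + t) ^ c₁ * ∏ i ∈ J, (gg i).eval y ^ c' i) = ((y + t) ^ c₁ * (y + t) ^ c₁) *
          ((∏ i ∈ J, (gg i).eval y ^ c' i) * (∏ i ∈ J, (gg i).eval y ^ c' i)) := by ring
        rw [h4, hR y hPy, ← mul_zpow, ← mul_zpow]
        congr 1
        have h5 : (y - t) * ((y + t) * (y + t) * P.eval y) = y + t := by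
          calc (y - t) * ((y + t) * (y + t) * P.eval y) =
              (y + t) * ((y - t) * ((y + t) * P.eval y)) := by ring
            _ = y + t := by rw [hcurve, mul_one]
        have hm0 : y - t ≠ 0 := by
          rw [em]
          exact mul_ne_zero (div_ne_zero (by norm_num) hs1) hy0
        apply mul_left_cancel₀ hm0
        rw [h5, ep, em]
        field_simp
      rw [h3] at h2
      exact h2
  -- conclusion
  have hall : ∀ i, c' i = 0 := by
    intro i
    by_cases h0 : i = k0 j₀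
    · rw [h0, hc0]
    by_cases h1 : i = k1 j₀
    · rw [h1]
      exact hstep2
    · have h2 := hstep1 i (Finset.mem_erase.2 ⟨h1, Finset.mem_erase.2 ⟨h0, Finset.mem_univ _⟩⟩)
      rw [hstep2] at h2
      omega
  funext k
  rw [← hc' k, hall]
  rfl

end

end Pool.Agent.N924.LP
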