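import Pool.Agent.H33R4.EVZ
import Pool.Agent.H33R4.GOOD1

set_option autoImplicit false

/-! # Rings of power series in several variables over `ℤ_p`, with evaluations -/

namespace Pool.Agent.N924.LP

open MeasureTheory Pool.Agent.H33R4

noncomputable section

variable {p : ℕ} [hp : Fact p.Prime]

instance instMS : MeasurableSpace ℤ_[p] := borel _

instance instBS : BorelSpace ℤ_[p] := ⟨rfl⟩

/-- the Haar probability measure -/
def haarZ (p : ℕ) [Fact p.Prime] : Measure ℤ_[p] :=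
  Measure.addHaarMeasure (⊤ : TopologicalSpace.PositiveCompacts ℤ_[p])

instance : IsProbabilityMeasure (haarZ p) := by
  constructor
  have := Measure.addHaarMeasure_self (K₀ := (⊤ : TopologicalSpace.PositiveCompacts ℤ_[p]))
  simpa [haarZ] using this

instance : (haarZ p).IsAddLeftInvariant := by
  unfold haarZ; infer_instance

theorem norm_le_iff (x : ℤ_[p]) (k : ℕ) : ‖x‖ ≤ (p : ℝ) ^ (-(k : ℤ)) ↔ (p : ℤ_[p]) ^ k ∣ x := by
  rw [PadicInt.norm_le_pow_iff_mem_span_pow, Ideal.mem_span_singleton]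

theorem res_iff (x y : ℤ_[p]) (k : ℕ) :
    PadicInt.toZModPow k x = PadicInt.toZModPow k y ↔ (p : ℤ_[p]) ^ k ∣ x - y := by
  rw [← sub_eq_zero, ← map_sub, ← RingHom.mem_ker, PadicInt.ker_toZModPow,
    Ideal.mem_span_singleton]

theorem res_surj (k : ℕ) : Function.Surjective (PadicInt.toZModPow (p := p) k) := by
  have : NeZero (p ^ k) := ⟨pow_ne_zero _ hp.out.ne_zero⟩
  intro a
  refine ⟨(a.val : ℤ_[p]), ?_⟩
  rw [map_natCast, ZMod.natCast_zmod_val]

theorem closed_res (k : ℕ) (a : ZMod (p ^ k)) :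
    IsClosed {x : ℤ_[p] | PadicInt.toZModPow k x = a} := by
  obtain ⟨y, rfl⟩ := res_surj k a
  have e1 : {x : ℤ_[p] | PadicInt.toZModPow k x = PadicInt.toZModPow k y} =
      {x : ℤ_[p] | ‖x - y‖ ≤ (p : ℝ) ^ (-(k : ℤ))} := by
    ext x
    rw [Set.mem_ofPred_eq, Set.mem_ofPred_eq, res_iff, norm_le_iff]
  rw [e1]
  exact isClosed_le (by fun_prop) continuous_const

theorem meas_fib (k : ℕ) (a : ZMod (p ^ k)) :
    haarZ p {x : ℤ_[p] | PadicInt.toZModPow k x = a} =
      haarZ p {x : ℤ_[p] | PadicInt.toZModPow k x = 0} := by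
  obtain ⟨y, rfl⟩ := res_surj k a
  have h1 : {x : ℤ_[p] | PadicInt.toZModPow k x = PadicInt.toZModPow k y} =
      (fun x => -y + x) ⁻¹' {x : ℤ_[p] | PadicInt.toZModPow k x = 0} := by
    ext x
    simp only [Set.mem_ofPred_eq, Set.mem_preimage, map_add, map_neg]
    constructor
    · intro h; rw [h]; ring
    · intro h
      have : PadicInt.toZModPow k x = PadicInt.toZModPow k y +
        (-PadicInt.toZModPow k y + PadicInt.toZModPow k x) := by ring
      rw [this, h, add_zero]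
  rw [h1]
  exact measure_preimage_add (haarZ p) (-y) _

theorem haar_fib (k : ℕ) (a : ZMod (p ^ k)) :
    haarZ p {x : ℤ_[p] | PadicInt.toZModPow k x = a} = ((p ^ k : ℕ) : ENNReal)⁻¹ := by
  classical
  have : NeZero (p ^ k) := ⟨pow_ne_zero _ hp.out.ne_zero⟩
  have h1 : ∑ b ∈ (Finset.univ : Finset (ZMod (p ^ k))), haarZ p (PadicInt.toZModPow k ⁻¹' {b}) =
      haarZ p (PadicInt.toZModPow k ⁻¹' ↑(Finset.univ : Finset (ZMod (p ^ k)))) := by
    apply sum_measure_preimage_singleton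
    intro y _
    exact (closed_res k y).measurableSet
  have h2 : ∀ b : ZMod (p ^ k), haarZ p (PadicInt.toZModPow k ⁻¹' {b}) =
      haarZ p {x : ℤ_[p] | PadicInt.toZModPow k x = 0} := fun b => meas_fib k b
  rw [Finset.sum_congr rfl (fun b _ => h2 b)] at h1
  simp only [Finset.sum_const, Finset.card_univ, Finset.coe_univ, Set.preimage_univ,
    measure_univ, nsmul_eq_mul, ZMod.card] at h1
  rw [meas_fib]
  have h3 : ((p ^ k : ℕ) : ENNReal) ≠ 0 := by
    exact_mod_cast pow_ne_zero _ hp.out.ne_zero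
  rw [mul_comm] at h1
  exact ENNReal.eq_inv_of_mul_eq_one_left h1

theorem meas_sing (a : ℤ_[p]) : haarZ p {a} = 0 := by
  have h1 : ∀ k : ℕ, haarZ p {a} ≤ ((p ^ k : ℕ) : ENNReal)⁻¹ := by
    intro k
    rw [← haar_fib k (PadicInt.toZModPow k a)]
    apply measure_mono
    rintro x rfl
    rfl
  by_contra h0
  obtain ⟨k, hk⟩ := ENNReal.exists_inv_nat_lt h0
  have h2 := h1 k
  have h3 : ((p ^ k : ℕ) : ENNReal)⁻¹ ≤ (k : ENNReal)⁻¹ := by
    rw [ENNReal.inv_le_inv]
    exact_mod_cast (Nat.lt_pow_self hp.out.one_lt).le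
  exact absurd (hk.trans_le (h2.trans h3)) (lt_irrefl _)

instance : NullSingletonClass (haarZ p) := ⟨meas_sing⟩

/-! ### one variable -/

theorem exists_ev1 (y : ℤ_[p]) : ∃ φ, IsEval p ((p : ℤ_[p]) * y) φ :=
  (evZ_proof p).1 _ (dvd_mul_right _ _)

/-- evaluation at `p y` -/
def ev1 (y : ℤ_[p]) : PowerSeries ℤ_[p] →+* ℤ_[p] := Classical.choose (exists_ev1 y)

theorem ev1_spec (y : ℤ_[p]) : IsEval p ((p : ℤ_[p]) * y) (ev1 y) :=
  Classical.choose_spec (exists_ev1 y)

open Polynomial in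
theorem rem {s : ℤ_[p]} (hs : (p : ℤ_[p]) ∣ s) (g : PowerSeries ℤ_[p]) :
    ∃ (r : ℤ_[p]) (q : PowerSeries ℤ_[p]),
      g = PowerSeries.C r + (PowerSeries.X - PowerSeries.C s) * q := by
  let e := (EVZaux.dist hs).algEquivQuotient
  let q := quotientSpanXSubCAlgEquiv s
  let m : PowerSeries ℤ_[p] →ₐ[ℤ_[p]] (PowerSeries ℤ_[p] ⧸
      Ideal.span {((X - C s : ℤ_[p][X]) : PowerSeries ℤ_[p])}) := Ideal.Quotient.mkₐ ℤ_[p] _
  obtain ⟨r, hr⟩ : ∃ r : ℤ_[p], m g = m (PowerSeries.C r) := by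
    refine ⟨q (e.symm (m g)), ?_⟩
    have h1 : e.symm (m g) = algebraMap ℤ_[p] _ (q (e.symm (m g))) := by
      apply q.injective
      rw [AlgEquiv.commutes]
      rfl
    have h2 : m g = algebraMap ℤ_[p] _ (q (e.symm (m g))) := by
      apply e.symm.injective
      rw [AlgEquiv.commutes]
      exact h1
    exact h2.trans (m.commutes _).symm
  have h3 : m (g - PowerSeries.C r) = 0 := by rw [map_sub, hr, sub_self]
  have h4 : g - PowerSeries.C r ∈
      Ideal.span {((X - C s : ℤ_[p][X]) : PowerSeries ℤ_[p])} := Ideal.Quotient.eq_zero_iff_mem.1 h3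
  obtain ⟨w, hw⟩ := Ideal.mem_span_singleton.1 h4
  refine ⟨r, w, ?_⟩
  have h5 : ((X - C s : ℤ_[p][X]) : PowerSeries ℤ_[p]) = PowerSeries.X - PowerSeries.C s := by
    simp
  rw [h5] at hw
  rw [← hw]
  ring

theorem ev1_cong (k : ℕ) (y y' : ℤ_[p]) (h : (p : ℤ_[p]) ^ k ∣ y - y') (g : PowerSeries ℤ_[p]) :
    (p : ℤ_[p]) ^ k ∣ ev1 y g - ev1 y' g := by
  obtain ⟨r, q, hq⟩ := rem (dvd_mul_right (p : ℤ_[p]) y) g
  have h1 : ev1 y g = r := by
    rw [hq, map_add, map_mul, map_sub, (ev1_spec y).2, (ev1_spec y).1, (ev1_spec y).2]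
    ring
  have h2 : ev1 y' g = r + ((p : ℤ_[p]) * y' - p * y) * ev1 y' q := by
    conv_lhs => rw [hq]
    rw [map_add, map_mul, map_sub, (ev1_spec y').2, (ev1_spec y').1, (ev1_spec y').2]
  rw [h1, h2]
  have e1 : r - (r + ((p : ℤ_[p]) * y' - p * y) * ev1 y' q) = (y - y') * (p * ev1 y' q) := by ring
  rw [e1]
  exact h.mul_right _

theorem ev1_coeff (k : ℕ) (y : ℤ_[p]) (g : PowerSeries ℤ_[p])
    (h : ∀ n, (p : ℤ_[p]) ^ k ∣ PowerSeries.coeff n g) : (p : ℤ_[p]) ^ k ∣ ev1 y g := by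
  choose c hc using h
  have h1 : g = PowerSeries.C ((p : ℤ_[p]) ^ k) * PowerSeries.mk c := by
    ext n
    rw [PowerSeries.coeff_C_mul, PowerSeries.coeff_mk]
    exact hc n
  rw [h1, map_mul, (ev1_spec y).2]
  exact dvd_mul_right _ _

theorem ev1_zeros (g : PowerSeries ℤ_[p]) (hg : g ≠ 0) : {y : ℤ_[p] | ev1 y g = 0}.Finite := by
  have h1 := (evZ_proof p).2 g hg
  have hp0 : (p : ℤ_[p]) ≠ 0 := by exact_mod_cast hp.out.ne_zero
  refine Set.Finite.of_finite_image (f := fun y : ℤ_[p] => (p : ℤ_[p]) * y) (h1.subset ?_) ?_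
  · rintro _ ⟨y, hy, rfl⟩
    exact ⟨dvd_mul_right _ _, ev1 y, ev1_spec y, hy⟩
  · intro y _ y' _ h
    exact mul_left_cancel₀ hp0 h

/-! ### several variables -/

/-- a ring of power series in `s` variables over `ℤ_p`; `ev y` is the evaluation at `x_i = p y_i` -/
structure Sys (p : ℕ) [Fact p.Prime] (s : ℕ) where
  R : Type
  [cr : CommRing R]
  [dom : IsDomain R]
  good : PGood p R
  x : Fin s → R
  c : ℤ_[p] →+* R
  ev : (Fin s → ℤ_[p]) → R →+* ℤ_[p]
  ev_x : ∀ y i, ev y (x i) = p * y i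
  ev_c : ∀ y a, ev y (c a) = a
  cong : ∀ (k : ℕ) (y y' : Fin s → ℤ_[p]), (∀ i, (p : ℤ_[p]) ^ k ∣ y i - y' i) →
    ∀ h, (p : ℤ_[p]) ^ k ∣ ev y h - ev y' h
  null : ∀ h, h ≠ 0 → (Measure.pi fun _ : Fin s => haarZ p) {y | ev y h = 0} = 0
  slice : ∀ j : Fin s, ∃ σ : R →+* PowerSeries ℤ_[p], Function.Surjective σ ∧
    σ (x j) = PowerSeries.X ∧ ∀ i, i ≠ j → σ (x i) = 0

attribute [instance] Sys.cr Sys.dom

theorem cont_of_cong {s : ℕ} (F : (Fin s → ℤ_[p]) → ℤ_[p])
    (hF : ∀ (k : ℕ) (y y' : Fin s → ℤ_[p]), (∀ i, (p : ℤ_[p]) ^ k ∣ y i - y' i) →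
      (p : ℤ_[p]) ^ k ∣ F y - F y') : Continuous F := by
  rw [continuous_iff_continuousAt]
  intro y
  rw [ContinuousAt, Metric.tendsto_nhds]
  intro ε hε
  have hp1 : (1 : ℝ) < p := by exact_mod_cast hp.out.one_lt
  obtain ⟨k, hk⟩ := exists_pow_lt_of_lt_one hε (inv_lt_one_of_one_lt₀ hp1)
  have hk' : (p : ℝ) ^ (-(k : ℤ)) < ε := by
    rw [zpow_neg, zpow_natCast, ← inv_pow]
    exact hk
  have hpos : (0 : ℝ) < (p : ℝ) ^ (-(k : ℤ)) := by positivity
  have h1 : ∀ᶠ y' in nhds y, ∀ i, ‖y' i - y i‖ ≤ (p : ℝ) ^ (-(k : ℤ)) := by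
    rw [Filter.eventually_all]
    intro i
    have h2 : Filter.Tendsto (fun y' : Fin s → ℤ_[p] => ‖y' i - y i‖) (nhds y) (nhds ‖y i - y i‖) := by
      apply Continuous.tendsto (f := fun y' : Fin s → ℤ_[p] => ‖y' i - y i‖)
      fun_prop
    rw [sub_self, norm_zero] at h2
    exact (h2.eventually (gt_mem_nhds hpos)).mono fun _ h => h.le
  filter_upwards [h1] with y' hy'
  rw [dist_eq_norm]
  refine lt_of_le_of_lt ?_ hk'
  rw [norm_le_iff]
  exact hF k y' y (fun i => (norm_le_iff _ k).1 (hy' i))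

theorem Sys.continuous {s : ℕ} (S : Sys p s) (h : S.R) : Continuous fun y => S.ev y h :=
  cont_of_cong _ fun k y y' hy => S.cong k y y' hy h

theorem Sys.closed {s : ℕ} (S : Sys p s) (h : S.R) : IsClosed {y | S.ev y h = 0} :=
  isClosed_eq (S.continuous h) continuous_const

/-- no variable -/
def sys0 (p : ℕ) [Fact p.Prime] : Sys p 0 where
  R := ℤ_[p]
  good := good1_proof.1 p
  x := fun i => i.elim0
  c := RingHom.id _
  ev := fun _ => RingHom.id _
  ev_x := fun _ i => i.elim0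
  ev_c := fun _ _ => rfl
  cong := fun k y y' _ h => by simp
  null := fun h hh => by
    have : {y : Fin 0 → ℤ_[p] | (RingHom.id ℤ_[p]) h = 0} = ∅ := by
      ext y
      simpa using hh
    rw [this, measure_empty]
  slice := fun j => j.elim0

theorem next_cong {s : ℕ} (S : Sys p s) (h : PowerSeries S.R) (k : ℕ)
    (y y' : Fin (s + 1) → ℤ_[p]) (hy : ∀ i, (p : ℤ_[p]) ^ k ∣ y i - y' i) :
    (p : ℤ_[p]) ^ k ∣ ev1 (y 0) (PowerSeries.map (S.ev fun i => y i.succ) h) -
      ev1 (y' 0) (PowerSeries.map (S.ev fun i => y' i.succ) h) := by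
  have h1 := ev1_cong k (y 0) (y' 0) (hy 0) (PowerSeries.map (S.ev fun i => y i.succ) h)
  have h2 : (p : ℤ_[p]) ^ k ∣ ev1 (y' 0) (PowerSeries.map (S.ev fun i => y i.succ) h -
      PowerSeries.map (S.ev fun i => y' i.succ) h) := by
    apply ev1_coeff
    intro n
    rw [map_sub, PowerSeries.coeff_map, PowerSeries.coeff_map]
    exact S.cong k _ _ (fun i => hy i.succ) _
  rw [map_sub] at h2
  have h3 := dvd_add h1 h2
  rwa [sub_add_sub_cancel] at h3

theorem next_null {s : ℕ} (S : Sys p s) (h : PowerSeries S.R) (hh : h ≠ 0) :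
    (Measure.pi fun _ : Fin (s + 1) => haarZ p)
      {y | ev1 (y 0) (PowerSeries.map (S.ev fun i => y i.succ) h) = 0} = 0 := by
  classical
  set Z := {y : Fin (s + 1) → ℤ_[p] |
    ev1 (y 0) (PowerSeries.map (S.ev fun i => y i.succ) h) = 0} with hZ
  have hcl : IsClosed Z :=
    isClosed_eq (cont_of_cong _ fun k y y' hy => next_cong S h k y y' hy) continuous_const
  obtain ⟨n, hn⟩ : ∃ n, PowerSeries.coeff n h ≠ 0 := by
    by_contra hc
    push Not at hc
    exact hh (PowerSeries.ext fun n => by simpa using hc n)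
  have hnull := S.null _ hn
  have hmp := measurePreserving_piFinSuccAbove (fun _ : Fin (s + 1) => haarZ p) 0
  have h1 := (hmp.symm _).measure_preimage_equiv Z
  rw [← h1]
  have hm : MeasurableSet ((MeasurableEquiv.piFinSuccAbove (fun _ : Fin (s + 1) => ℤ_[p]) 0).symm ⁻¹' Z) :=
    (MeasurableEquiv.measurable _) hcl.measurableSet
  rw [Measure.prod_apply_symm hm]
  rw [lintegral_eq_zero_iff' (measurable_measure_prodMk_right hm).aemeasurable]
  rw [measure_eq_zero_iff_ae_notMem] at hnull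
  filter_upwards [hnull] with y' hy'
  have hne : PowerSeries.map (S.ev y') h ≠ 0 := by
    intro h0
    apply hy'
    have := congrArg (PowerSeries.coeff n) h0
    rwa [PowerSeries.coeff_map, map_zero] at this
  refine Set.Finite.measure_zero ((ev1_zeros _ hne).subset ?_) _
  intro x hx
  exact hx

/-- one more variable -/
def Sys.next {s : ℕ} (S : Sys p s) : Sys p (s + 1) where
  R := PowerSeries S.R
  good := good1_proof.2 p _ S.good
  x := Fin.cons PowerSeries.X fun i => PowerSeries.C (S.x i)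
  c := PowerSeries.C.comp S.c
  ev := fun y => (ev1 (y 0)).comp (PowerSeries.map (S.ev fun i => y i.succ))
  ev_x := fun y i => by
    refine Fin.cases ?_ (fun i => ?_) i
    · rw [Fin.cons_zero, RingHom.comp_apply, PowerSeries.map_X, (ev1_spec (y 0)).1]
    · rw [Fin.cons_succ, RingHom.comp_apply, PowerSeries.map_C, (ev1_spec (y 0)).2, S.ev_x]
  ev_c := fun y a => by
    rw [RingHom.comp_apply, RingHom.comp_apply, PowerSeries.map_C, (ev1_spec (y 0)).2, S.ev_c]
  cong := fun k y y' hy h => next_cong S h k y y' hy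
  null := fun h hh => next_null S h hh
  slice := fun j => by
    refine Fin.cases ?_ (fun j => ?_) j
    · refine ⟨PowerSeries.map (S.ev 0), ?_, ?_, ?_⟩
      · intro g
        refine ⟨PowerSeries.mk fun n => S.c (PowerSeries.coeff n g), ?_⟩
        ext n
        rw [PowerSeries.coeff_map, PowerSeries.coeff_mk, S.ev_c]
      · rw [Fin.cons_zero, PowerSeries.map_X]
      · intro i
        refine Fin.cases ?_ (fun i => ?_) i
        · intro h
          exact absurd rfl h
        · intro _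
          rw [Fin.cons_succ, PowerSeries.map_C, S.ev_x]
          simp
    · obtain ⟨σ, h1, h2, h3⟩ := S.slice j
      refine ⟨σ.comp (PowerSeries.constantCoeff (R := S.R)), ?_, ?_, ?_⟩
      · intro g
        obtain ⟨a, ha⟩ := h1 g
        exact ⟨PowerSeries.C a, by simpa using ha⟩
      · rw [Fin.cons_succ, RingHom.comp_apply, PowerSeries.constantCoeff_C, h2]
      · intro i
        refine Fin.cases ?_ (fun i => ?_) i
        · intro _
          rw [Fin.cons_zero, RingHom.comp_apply, PowerSeries.constantCoeff_X, map_zero]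
        · intro hi
          rw [Fin.cons_succ, RingHom.comp_apply, PowerSeries.constantCoeff_C]
          exact h3 i fun h => hi (by rw [h])

theorem exists_sys (p : ℕ) [Fact p.Prime] (s : ℕ) : Nonempty (Sys p s) := by
  induction s with
  | zero => exact ⟨sys0 p⟩
  | succ s ih => exact ⟨ih.some.next⟩

end

end Pool.Agent.N924.LP
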